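import Pool.Agent.Lib.CR5.SpecG1
import Pool.Agent.Lib.CR5.B.Geo

/-!
# CR5, block G: geometry of `γ` (helper63)

Proof of `S_GEO`.
-/

open MeasureTheory Set Filter Topology
open scoped ENNReal ComplexConjugate

noncomputable section

namespace Pool.Agent.CR5

namespace GGeo

theorem sum_e5 (h : E5) : h = ∑ k : Fin 5, h k • e5 k := by
  ext i
  simp only [e5, smul_eq_mul, WithLp.ofLp_sum, WithLp.ofLp_smul,
    Finset.sum_apply, Pi.smul_apply]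
  rw [Finset.sum_eq_single i]
  · simp
  · intro b _ hb
    simp [hb.symm]
  · intro h0
    exact absurd (Finset.mem_univ i) h0

theorem fderiv_le {v : E5 → ℂ} {B : ℝ} (hB : 0 ≤ B) {x : E5} (h : sq 1 v x ≤ B ^ 2) :
    ‖fderiv ℝ v x‖ ≤ B := by
  refine ContinuousLinearMap.opNorm_le_bound _ hB fun w => ?_
  have h1 : fderiv ℝ v x w = ∑ k : Fin 5, w k • pd k v x := by
    conv_lhs => rw [sum_e5 w]
    rw [map_sum]
    exact Finset.sum_congr rfl fun k _ => by rw [map_smul]; rfl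
  have h2 : ‖∑ k : Fin 5, w k • pd k v x‖ ≤ ∑ k : Fin 5, |w k| * ‖pd k v x‖ :=
    (norm_sum_le _ _).trans (le_of_eq (Finset.sum_congr rfl fun k _ => by
      rw [norm_smul, Real.norm_eq_abs]))
  have h3 : (∑ k : Fin 5, |w k| * ‖pd k v x‖) ^ 2
      ≤ (∑ k : Fin 5, |w k| ^ 2) * ∑ k : Fin 5, ‖pd k v x‖ ^ 2 :=
    Finset.sum_mul_sq_le_sq_mul_sq _ _ _
  have h4 : ∑ k : Fin 5, |w k| ^ 2 = ‖w‖ ^ 2 := by
    rw [EuclideanSpace.norm_sq_eq]
    simp only [Real.norm_eq_abs]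
  have h5 : ∑ k : Fin 5, ‖pd k v x‖ ^ 2 ≤ B ^ 2 := h
  rw [h4] at h3
  have h6 : (∑ k : Fin 5, |w k| * ‖pd k v x‖) ^ 2 ≤ (B * ‖w‖) ^ 2 := by
    rw [mul_pow]
    have h7 : ‖w‖ ^ 2 * ∑ k : Fin 5, ‖pd k v x‖ ^ 2 ≤ ‖w‖ ^ 2 * B ^ 2 :=
      mul_le_mul_of_nonneg_left h5 (sq_nonneg _)
    linarith
  rw [h1]
  exact h2.trans (abs_le_of_sq_le_sq' h6 (by positivity)).2

theorem lip {v : E5 → ℂ} (hv : Sm v) {B : ℝ} (hB : 0 ≤ B) (h : ∀ x, sq 1 v x ≤ B ^ 2)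
    (x y : E5) : ‖v x - v y‖ ≤ B * dist x y := by
  rw [dist_eq_norm]
  exact Convex.norm_image_sub_le_of_norm_fderiv_le (𝕜 := ℝ) (s := Set.univ)
    (fun z _ => hv.diffAt z) (fun z _ => fderiv_le hB (h z)) convex_univ (Set.mem_univ y)
    (Set.mem_univ x)

theorem F02 (x : E5) : F0 2 x = (x 4 : ℂ) + Complex.I * (zz x : ℂ) := by
  simp [F0]

theorem gam0_im (x : E5) : (gam F0 x).im = zz x + (x 4 ^ 2 - zz x ^ 2) / 4 := by
  have h1 : gam F0 x = ((x 4 - x 4 * zz x / 2 : ℝ) : ℂ)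
      + Complex.I * ((zz x + (x 4 ^ 2 - zz x ^ 2) / 4 : ℝ) : ℂ) := by
    unfold gam
    rw [F02]
    push_cast
    linear_combination ((x 4 : ℂ) * (zz x : ℂ) / 2 + Complex.I * (zz x : ℂ) ^ 2 / 4)
      * Complex.I_sq
  rw [h1]
  simp only [Complex.add_im, Complex.ofReal_im, Complex.I_mul_im, Complex.ofReal_re, zero_add]

theorem split (F : Mp) (x : E5) : gam F x - gam F0 x = (F 2 x - F0 2 x)
    + Complex.I / 4 * ((F 2 x - F0 2 x) * (2 * F0 2 x + (F 2 x - F0 2 x))) := by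
  unfold gam
  ring

theorem zz_le {x : E5} {r : ℝ} (hx : ‖x‖ < r) : zz x ≤ r ^ 2 := by
  have h1 := geo_zz_le x
  have h2 := norm_nonneg x
  nlinarith

theorem t_le {x : E5} {r : ℝ} (hx : ‖x‖ < r) : |x 4| ≤ r := by
  have h : ‖x 4‖ ≤ ‖x‖ := PiLp.norm_apply_le x 4
  rw [Real.norm_eq_abs] at h
  linarith

theorem F02_le {x : E5} (hx : ‖x‖ < 3 / 4) : ‖F0 2 x‖ ≤ 2 := by
  rw [F02]
  refine (norm_add_le _ _).trans ?_
  rw [norm_mul, Complex.norm_I, one_mul, Complex.norm_real, Complex.norm_real,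
    Real.norm_eq_abs, Real.norm_eq_abs, abs_of_nonneg (geo_zz_nonneg x)]
  have h1 := zz_le hx
  have h2 := t_le hx
  linarith

section

variable {ε1 : ℝ} {F : Mp}

theorem v_le (H : FC ε1 F) (h0 : 0 ≤ ε1) (x : E5) : ‖F 2 x - F0 2 x‖ ≤ ε1 := by
  have h1 := H.c5 2 0 (by norm_num) x
  rw [sq_zero'] at h1
  exact (sq_le_sq₀ (norm_nonneg _) h0).1 h1

theorem v_lip (H : FC ε1 F) (h0 : 0 ≤ ε1) (x y : E5) :
    ‖(F 2 x - F0 2 x) - (F 2 y - F0 2 y)‖ ≤ ε1 * dist x y :=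
  lip (v := fun z => F 2 z - F0 2 z) ((H.sm 2).sub (sm_F0 2)) h0
    (fun z => H.c5 2 1 (by norm_num) z) x y

theorem gam_near (H : FC ε1 F) (h0 : 0 ≤ ε1) (h1 : ε1 ≤ 1 / 100) {x : E5} (hx : ‖x‖ < 3 / 4) :
    ‖gam F x - gam F0 x‖ ≤ 3 * ε1 := by
  have h2 := v_le H h0 x
  have h3 := F02_le hx
  rw [split]
  refine (norm_add_le _ _).trans ?_
  rw [norm_mul, norm_mul, norm_div, Complex.norm_I]
  have h4 : ‖2 * F0 2 x + (F 2 x - F0 2 x)‖ ≤ 5 := by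
    refine (norm_add_le _ _).trans ?_
    rw [norm_mul]
    have : ‖(2 : ℂ)‖ = 2 := by simp
    rw [this]
    linarith
  have h5 : ‖(4 : ℂ)‖ = 4 := by simp
  rw [h5]
  have h6 : ‖F 2 x - F0 2 x‖ * ‖2 * F0 2 x + (F 2 x - F0 2 x)‖ ≤ ε1 * 5 :=
    mul_le_mul h2 h4 (norm_nonneg _) h0
  linarith

theorem im_near (H : FC ε1 F) (h0 : 0 ≤ ε1) (h1 : ε1 ≤ 1 / 100) {x : E5} (hx : ‖x‖ < 3 / 4) :
    |(gam F x).im - (gam F0 x).im| ≤ 3 * ε1 := by
  rw [← Complex.sub_im]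
  exact (Complex.abs_im_le_norm _).trans (gam_near H h0 h1 hx)

theorem r0_ge {x : E5} (hx : ‖x‖ < 3 / 4) : ‖x‖ ^ 2 / 4 ≤ (gam F0 x).im := by
  rw [gam0_im, geo_norm_sq]
  have h1 := zz_le hx
  have h2 := geo_zz_nonneg x
  have h3 := sq_nonneg (x 4)
  nlinarith

theorem part1 (H : FC ε1 F) (h0 : 0 ≤ ε1) (h1 : ε1 ≤ 1 / 100) (x : E5) (hx : ‖x‖ < 3 / 4)
    (hr : (gam F x).im < 1 / 16) : ‖x‖ < 5 / 8 := by
  have h2 := abs_le.1 (im_near H h0 h1 hx)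
  have h3 := r0_ge hx
  have h4 := norm_nonneg x
  by_contra h5
  push Not at h5
  nlinarith

theorem part2 (H : FC ε1 F) (h0 : 0 ≤ ε1) (h1 : ε1 ≤ 1 / 100) (x : E5) (hx : ‖x‖ < 3 / 4) :
    -(1 / 32) ≤ (gam F x).im := by
  have h2 := abs_le.1 (im_near H h0 h1 hx)
  have h3 := r0_ge hx
  have h4 := sq_nonneg ‖x‖
  linarith

theorem norm_sq_diff {x y : E5} (hx : ‖x‖ < 3 / 4) (hy : ‖y‖ < 3 / 4) :
    |‖x‖ ^ 2 - ‖y‖ ^ 2| ≤ 3 / 2 * dist x y := by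
  have h1 := abs_norm_sub_norm_le x y
  rw [← dist_eq_norm] at h1
  have h2 : ‖x‖ ^ 2 - ‖y‖ ^ 2 = (‖x‖ - ‖y‖) * (‖x‖ + ‖y‖) := by ring
  rw [h2, abs_mul]
  have h3 := norm_nonneg x
  have h4 := norm_nonneg y
  have h5 : |‖x‖ + ‖y‖| ≤ 3 / 2 := by
    rw [abs_of_nonneg (by linarith)]
    linarith
  have h6 := mul_le_mul h1 h5 (abs_nonneg _) dist_nonneg
  linarith

theorem t_diff (x y : E5) : |x 4 - y 4| ≤ dist x y := by
  rw [dist_eq_norm]
  have h : ‖(x - y) 4‖ ≤ ‖x - y‖ := PiLp.norm_apply_le (x - y) 4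
  simpa [Real.norm_eq_abs] using h

theorem t_sq_diff {x y : E5} (hx : ‖x‖ < 3 / 4) (hy : ‖y‖ < 3 / 4) :
    |x 4 ^ 2 - y 4 ^ 2| ≤ 3 / 2 * dist x y := by
  have h1 := t_diff x y
  have h2 : x 4 ^ 2 - y 4 ^ 2 = (x 4 - y 4) * (x 4 + y 4) := by ring
  rw [h2, abs_mul]
  have h3 := t_le hx
  have h4 := t_le hy
  have h5 : |x 4 + y 4| ≤ 3 / 2 := by
    refine (abs_add_le _ _).trans ?_
    linarith
  have h6 := mul_le_mul h1 h5 (abs_nonneg _) dist_nonneg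
  linarith

theorem r0_lip {x y : E5} (hx : ‖x‖ < 3 / 4) (hy : ‖y‖ < 3 / 4) :
    (gam F0 x).im - (gam F0 y).im ≤ 21 / 8 * dist x y := by
  rw [gam0_im, gam0_im]
  have hN := abs_le.1 (norm_sq_diff hx hy)
  have hT := abs_le.1 (t_sq_diff hx hy)
  have zx := zz_le hx
  have zy := zz_le hy
  have zx0 := geo_zz_nonneg x
  have zy0 := geo_zz_nonneg y
  have hd := dist_nonneg (x := x) (y := y)
  rw [geo_norm_sq, geo_norm_sq] at hN
  obtain ⟨c, hc⟩ : ∃ c, c = 1 - (zz x + zz y) / 4 := ⟨_, rfl⟩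
  have hc1 : 1 / 4 ≤ c := by rw [hc]; linarith
  have hc2 : c ≤ 1 := by rw [hc]; linarith
  have e : zz x + (x 4 ^ 2 - zz x ^ 2) / 4 - (zz y + (y 4 ^ 2 - zz y ^ 2) / 4)
      = (zz x + x 4 ^ 2 - (zz y + y 4 ^ 2)) * c - (x 4 ^ 2 - y 4 ^ 2) * (c - 1 / 4) := by
    rw [hc]; ring
  rw [e]
  have b1 : (zz x + x 4 ^ 2 - (zz y + y 4 ^ 2)) * c ≤ 3 / 2 * dist x y * c :=
    mul_le_mul_of_nonneg_right hN.2 (by linarith)
  have b2 : -(x 4 ^ 2 - y 4 ^ 2) * (c - 1 / 4) ≤ 3 / 2 * dist x y * (c - 1 / 4) :=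
    mul_le_mul_of_nonneg_right (by linarith [hT.1]) (by linarith)
  have b3 : 3 / 2 * dist x y * c ≤ 3 / 2 * dist x y * 1 :=
    mul_le_mul_of_nonneg_left hc2 (by positivity)
  nlinarith

theorem F02_lip {x y : E5} (hx : ‖x‖ < 3 / 4) (hy : ‖y‖ < 3 / 4) :
    ‖F0 2 x - F0 2 y‖ ≤ 4 * dist x y := by
  have hN := abs_le.1 (norm_sq_diff hx hy)
  have hT := abs_le.1 (t_sq_diff hx hy)
  rw [geo_norm_sq, geo_norm_sq] at hN
  have e : F0 2 x - F0 2 y = ((x 4 - y 4 : ℝ) : ℂ) + Complex.I * ((zz x - zz y : ℝ) : ℂ) := by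
    rw [F02, F02]
    push_cast
    ring
  rw [e]
  refine (norm_add_le _ _).trans ?_
  rw [norm_mul, Complex.norm_I, one_mul, Complex.norm_real, Complex.norm_real,
    Real.norm_eq_abs, Real.norm_eq_abs]
  have h1 := t_diff x y
  have h2 : |zz x - zz y| ≤ 3 * dist x y := by
    rw [abs_le]
    constructor <;> linarith [hN.1, hN.2, hT.1, hT.2]
  linarith

theorem part3 (H : FC ε1 F) (h0 : 0 ≤ ε1) (h1 : ε1 ≤ 1 / 100) (x y : E5) (hx : ‖x‖ < 3 / 4)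
    (hy : ‖y‖ < 3 / 4) : (gam F x).im ≤ (gam F y).im + 3 * dist x y := by
  have hd := dist_nonneg (x := x) (y := y)
  have hr := r0_lip hx hy
  have hu := F02_lip hx hy
  have hv := v_lip H h0 x y
  have hvy := v_le H h0 y
  have hvx := v_le H h0 x
  have hux := F02_le hx
  have e : (gam F x - gam F0 x) - (gam F y - gam F0 y)
      = ((F 2 x - F0 2 x) - (F 2 y - F0 2 y)) + Complex.I / 4 *
        (((F 2 x - F0 2 x) - (F 2 y - F0 2 y)) * (2 * F0 2 x + (F 2 x - F0 2 x))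
          + (F 2 y - F0 2 y) * (2 * (F0 2 x - F0 2 y) + ((F 2 x - F0 2 x) - (F 2 y - F0 2 y)))) := by
    rw [split, split]
    ring
  have hn : ‖(gam F x - gam F0 x) - (gam F y - gam F0 y)‖ ≤ 5 * ε1 * dist x y := by
    rw [e]
    refine (norm_add_le _ _).trans ?_
    rw [norm_mul, norm_div, Complex.norm_I]
    have h5 : ‖(4 : ℂ)‖ = 4 := by simp
    have h2 : ‖(2 : ℂ)‖ = 2 := by simp
    rw [h5]
    have a1 : ‖2 * F0 2 x + (F 2 x - F0 2 x)‖ ≤ 5 := by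
      refine (norm_add_le _ _).trans ?_
      rw [norm_mul, h2]
      linarith
    have a2 : ‖2 * (F0 2 x - F0 2 y) + ((F 2 x - F0 2 x) - (F 2 y - F0 2 y))‖
        ≤ 9 * dist x y := by
      refine (norm_add_le _ _).trans ?_
      rw [norm_mul, h2]
      nlinarith
    have a3 : ‖((F 2 x - F0 2 x) - (F 2 y - F0 2 y)) * (2 * F0 2 x + (F 2 x - F0 2 x))
          + (F 2 y - F0 2 y) * (2 * (F0 2 x - F0 2 y) + ((F 2 x - F0 2 x) - (F 2 y - F0 2 y)))‖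
        ≤ 14 * ε1 * dist x y := by
      refine (norm_add_le _ _).trans ?_
      rw [norm_mul, norm_mul]
      have b1 := mul_le_mul hv a1 (norm_nonneg _) (by positivity)
      have b2 := mul_le_mul hvy a2 (norm_nonneg _) h0
      nlinarith
    nlinarith
  have hi : ((gam F x).im - (gam F0 x).im) - ((gam F y).im - (gam F0 y).im)
      ≤ 5 * ε1 * dist x y := by
    have h6 := (le_abs_self _).trans ((Complex.abs_im_le_norm _).trans hn)
    simpa only [Complex.sub_im] using h6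
  nlinarith

theorem part4 (H : FC ε1 F) (h0 : 0 ≤ ε1) (h1 : ε1 ≤ 1 / 100) (ρ ρ' : ℝ) (hρ : ρ' < ρ)
    (hρ1 : ρ ≤ 1 / 16) : Inn (Dm F ρ') (Dm F ρ) ((ρ - ρ') / 4) := by
  intro x hx y hy
  rw [Metric.mem_ball] at hy
  have a1 := part1 H h0 h1 x hx.1 (by linarith [hx.2])
  have a2 := part2 H h0 h1 x hx.1
  have a3 : ‖y‖ < 3 / 4 := by
    have h2 : ‖y‖ ≤ ‖x‖ + dist y x := by
      rw [dist_eq_norm]
      have h3 := norm_add_le x (y - x)
      rwa [add_sub_cancel] at h3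
    linarith [hx.2]
  refine ⟨a3, ?_⟩
  have a4 := part3 H h0 h1 y x a3 hx.1
  linarith [hx.2]

end

end GGeo

open GGeo in
/-- **GEO** -/
theorem pGEO : S_GEO := by
  obtain ⟨C, hC, hF0⟩ := Bo_F0 5
  have hc := cmG_pos 5
  have hC0 : (0 : ℝ) < C := by linarith
  have hpos : 0 ≤ cmG 5 * (C + 1) * (C + 1) := by positivity
  refine ⟨1 / 100, by norm_num, C + 1 + cmG 5 * (C + 1) * (C + 1), by linarith, ?_⟩
  intro F H
  have hB : ∀ k, Bo 5 (Metric.ball 0 1) (F k) (C + 1) := by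
    intro k
    have h1 : Bo 5 (Metric.ball (0 : E5) 1) (fun y => F k y - F0 k y) 1 := fun i hi x _ =>
      (H.c5 k i hi x).trans (by norm_num)
    have h2 := Bo.add (sm_F0 k) ((H.sm k).sub (sm_F0 k)) hC0.le zero_le_one (hF0 k) h1
    have e : F k = fun x => F0 k x + (F k x - F0 k x) := by
      funext x
      ring
    rw [e]
    exact h2
  refine ⟨part1 H (by norm_num) le_rfl, part2 H (by norm_num) le_rfl,
    part3 H (by norm_num) le_rfl, part4 H (by norm_num) le_rfl, fun k => ?_, ?_⟩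
  · exact Bo.mono (hB k) le_rfl (Subset.refl _) (by positivity) (by linarith)
  · have h1 := Bo.mul (H.sm 2) (H.sm 2) (hB 2) (hB 2)
    have h2 := Bo.const_mul ((H.sm 2).mul (H.sm 2)) (Complex.I / 4) h1
    have h3 := Bo.add (H.sm 2) ((Sm.const _).mul ((H.sm 2).mul (H.sm 2))) (by positivity)
      (by positivity) (hB 2) h2
    have e : gam F = fun x => F 2 x + Complex.I / 4 * (F 2 x * F 2 x) := by
      funext x
      unfold gam
      ring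
    rw [e]
    refine Bo.mono h3 le_rfl (Subset.refl _) (by positivity) ?_
    have h4 : ‖Complex.I / 4‖ ≤ 1 := by
      rw [norm_div, Complex.norm_I]
      norm_num
    have h5 := mul_le_mul_of_nonneg_right h4 hpos
    linarith

end Pool.Agent.CR5
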