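import Pool.Agent.Lib.CR5.SpecG1

/-!
# CR5, block G, LG1: the weighted bound of `γ` and `F₂`
-/

set_option autoImplicit false

open MeasureTheory Set Filter Topology
open scoped ENNReal ComplexConjugate

noncomputable section

namespace Pool.Agent.CR5

namespace GLG1Aux

theorem h_le_one {h : ℕ → ℝ} {m : ℕ} (H : Adm h m) : ∀ i, h i ≤ 1 := by
  intro i
  induction i with
  | zero => exact (H.one 0 (Nat.zero_le _)).le
  | succ i ih => exact (H.anti i).trans ih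

theorem alg {C₁ C₃ δ A B : ℝ} {p : ℕ} (h1 : 1 ≤ C₁) (h3 : 1 ≤ C₃) (hδ : 0 < δ) (hδ1 : δ ≤ 1)
    (hA : A ≤ C₃) (hB : B ≤ (C₁ / (δ / 4)) ^ p * C₃ * C₃) :
    A + B ≤ (8 * C₁ * C₃ / δ) ^ (p + 2) := by
  have hX : 1 ≤ 1 / δ := by
    rw [le_div_iff₀ hδ]
    linarith
  have e1 : C₁ / (δ / 4) = 4 * C₁ * (1 / δ) := by
    field_simp
  have e2 : 8 * C₁ * C₃ / δ = 8 * C₁ * C₃ * (1 / δ) := by ring
  rw [e2]
  rw [e1] at hB
  set X := 1 / δ with hXdef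
  have q0 : 0 ≤ X := by linarith
  have q1 : C₁ ≤ C₁ * C₃ := le_mul_of_one_le_right (by linarith) h3
  have q2 : 4 * C₁ * X ≤ 8 * C₁ * C₃ * X := by
    refine mul_le_mul_of_nonneg_right ?_ q0
    nlinarith
  have q3 : C₃ ≤ C₁ * C₃ := le_mul_of_one_le_left (by linarith) h1
  have q4 : C₁ * C₃ ≤ C₁ * C₃ * X := le_mul_of_one_le_right (by positivity) hX
  have q5 : 8 * C₃ ≤ 8 * C₁ * C₃ * X := by linarith
  set K := 8 * C₁ * C₃ * X with hK
  have hK1 : 1 ≤ K := by linarith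
  have q6 : (4 * C₁ * X) ^ p ≤ K ^ p := pow_le_pow_left₀ (by positivity) q2 p
  have q7 : (4 * C₁ * X) ^ p * C₃ * C₃ ≤ K ^ p * (K / 8) * (K / 8) := by
    have hC : C₃ ≤ K / 8 := by linarith
    have hK0 : 0 ≤ K ^ p := by positivity
    have hC0 : 0 ≤ C₃ := by linarith
    exact mul_le_mul (mul_le_mul q6 hC hC0 hK0) hC hC0 (by positivity)
  have q8 : K ≤ K ^ (p + 2) := by
    calc K = K ^ 1 := (pow_one K).symm
      _ ≤ K ^ (p + 2) := pow_le_pow_right₀ hK1 (by omega)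
  have q9 : K ^ p * (K / 8) * (K / 8) = K ^ (p + 2) / 64 := by
    rw [pow_add]
    ring
  rw [q9] at q7
  have q10 : 0 ≤ K ^ (p + 2) := by positivity
  linarith

end GLG1Aux

open GLG1Aux in
theorem pLG1 : R_LG1 := by
  rintro ⟨ε1, hε1, Cg, hCg, hG⟩ hPR
  refine ⟨ε1, hε1, fun m => ?_⟩
  obtain ⟨C₁, p₁, hC₁, hP⟩ := hPR m
  obtain ⟨C₀, hC₀, hB⟩ := Bo_F0 m
  have hv := Real.sqrt_nonneg volB
  have hC₃ : 1 ≤ ((m : ℝ) + 1) * Real.sqrt volB * C₀ + 1 := by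
    have : 0 ≤ ((m : ℝ) + 1) * Real.sqrt volB * C₀ := by positivity
    linarith
  set C₃ := ((m : ℝ) + 1) * Real.sqrt volB * C₀ + 1 with hC₃def
  have hC13 : C₃ ≤ C₁ * C₃ := le_mul_of_one_le_left (by linarith) hC₁
  refine ⟨8 * C₁ * C₃, p₁ + 2, by linarith, ?_⟩
  intro a h lam R δ F ha hA hlam hR hR' hδ hδ' H
  have hopen := Dm_open H.sm R
  have hopen' := Dm_open H.sm (R - δ)
  have hsub : Dm F (R - δ) ⊆ Dm F R := Dm_mono F (by linarith)
  -- the bound of F 2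
  have hF2 : NN h m (Dm F R) (F 2) ≤ C₃ := by
    have e : (fun x => F0 2 x + (F 2 x - F0 2 x)) = F 2 := by
      funext x
      ring
    have h1 := NN_add_le hA.pos m (Dm_bdd F R) (sm_F0 2) ((H.sm 2).sub (sm_F0 2))
    rw [e] at h1
    have h2 := NN_le_of_sup (h_le_one hA) m hopen.measurableSet (Dm_sub F R) (sm_F0 2)
      (B := C₀) (by linarith) (fun i hi x hx => hB 2 i hi x (Dm_sub F R hx))
    have h3 := H.nn 2
    linarith
  have hF2' : NN h m (Dm F (R - δ)) (F 2) ≤ C₃ :=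
    (NN_mono hA.pos m hsub (Dm_bdd F R) (H.sm 2)).trans hF2
  refine ⟨?_, by linarith⟩
  -- the bound of the square
  have hInn : Inn (Dm F (R - δ)) (Dm F R) (δ / 4) := by
    have := (hG F H.fc).2.2.2.1 R (R - δ) (by linarith) hR'
    have e : (R - (R - δ)) / 4 = δ / 4 := by ring
    rwa [e] at this
  have h4 := hP h hA (δ / 4) (by linarith) (by linarith) (Dm F (R - δ)) (Dm F R) hopen' hopen hsub
    hInn (Dm_sub F R) (F 2) (F 2) (H.sm 2) (H.sm 2)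
  have hnn : 0 ≤ NN h m (Dm F R) (F 2) := NN_nonneg hA.pos m _ _
  have hpos : 0 ≤ (C₁ / (δ / 4)) ^ p₁ := by positivity
  have h5 : NN h m (Dm F (R - δ)) (fun x => F 2 x * F 2 x) ≤ (C₁ / (δ / 4)) ^ p₁ * C₃ * C₃ :=
    h4.trans (mul_le_mul (mul_le_mul_of_nonneg_left hF2 hpos) hF2 hnn (by positivity))
  have e : gam F = fun x => F 2 x + Complex.I / 4 * (F 2 x * F 2 x) := by
    funext x
    unfold gam
    ring
  rw [e]
  have h6 := NN_add_le hA.pos m (Dm_bdd F (R - δ)) (H.sm 2)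
    ((Sm.const (Complex.I / 4)).mul ((H.sm 2).mul (H.sm 2)))
  rw [NN_const_mul h m (Dm F (R - δ)) ((H.sm 2).mul (H.sm 2)) (Complex.I / 4)] at h6
  have h7 : ‖(Complex.I / 4 : ℂ)‖ ≤ 1 := by
    rw [norm_div, Complex.norm_I]
    norm_num
  have h8 : 0 ≤ NN h m (Dm F (R - δ)) (fun x => F 2 x * F 2 x) := NN_nonneg hA.pos m _ _
  have h9 : ‖(Complex.I / 4 : ℂ)‖ * NN h m (Dm F (R - δ)) (fun x => F 2 x * F 2 x) ≤
      (C₁ / (δ / 4)) ^ p₁ * C₃ * C₃ := by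
    refine (mul_le_mul_of_nonneg_right h7 h8).trans ?_
    rw [one_mul]
    exact h5
  exact h6.trans (alg hC₁ hC₃ hδ (by linarith) hF2' h9)

end Pool.Agent.CR5
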