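import Pool.Agent.Lib.CR5.SpecG1

/-!
# CR5, block G: LGW, weighted bounds of `γ` and of `L γ`
-/

open MeasureTheory Set Filter Topology
open scoped ENNReal ComplexConjugate

noncomputable section

namespace Pool.Agent.CR5

namespace GLGWAux

theorem hypF_mono {a : Str} {h : ℕ → ℝ} {m : ℕ} {ε1 ε2 lam R : ℝ} {F : Mp} (h0 : 0 ≤ ε1)
    (h12 : ε1 ≤ ε2) (H : HypF a h m ε1 lam R F) : HypF a h m ε2 lam R F :=
  ⟨H.sm, H.out, fun k i hi x => (H.c5 k i hi x).trans (by gcongr), H.nn, H.er⟩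

theorem adm_le_one {h : ℕ → ℝ} {m : ℕ} (H : Adm h m) : ∀ i, h i ≤ 1 := by
  intro i
  induction i with
  | zero => exact (H.one 0 (Nat.zero_le _)).le
  | succ n ih => exact (H.anti n).trans ih

theorem NN_one {h : ℕ → ℝ} {m : ℕ} (H : Adm h m) {Ω : Set E5} (ho : IsOpen Ω)
    (hΩ : Ω ⊆ Metric.ball 0 1) : NN h m Ω (fun _ => 1) ≤ (m + 1) * Real.sqrt volB * 1 := by
  refine NN_le_of_sup (adm_le_one H) m ho.measurableSet hΩ (Sm.const 1) zero_le_one ?_
  have h1 := Bo.const m Ω 1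
  rw [norm_one] at h1
  exact h1

end GLGWAux

open GLGWAux in
theorem pLGW : R_LGW := by
  intro hGEO hPR hEX hLG1
  obtain ⟨εG, hεG, CG, hCG, hGEO⟩ := hGEO
  obtain ⟨εL, hεL, hLG1⟩ := hLG1
  refine ⟨min εG εL, lt_min hεG hεL, fun m => ?_⟩
  obtain ⟨CL, pL, hCL, hLG⟩ := hLG1 m
  obtain ⟨CP, pP, hCP, hPR⟩ := hPR m
  obtain ⟨CE, pE, hCE, hEX⟩ := hEX m
  have hvol : 0 ≤ ((m : ℝ) + 1) * Real.sqrt volB * 1 := by positivity
  obtain ⟨K0, hK0⟩ : ∃ K0 : ℝ, K0 = (m + 1) * Real.sqrt volB * 1 + CL := ⟨_, rfl⟩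
  have hK01 : 1 ≤ K0 := by rw [hK0]; linarith
  obtain ⟨C0, hC0⟩ : ∃ C0 : ℝ, C0 = 4 * CP + 8 * CE + 2 * CL + 2 + K0 := ⟨_, rfl⟩
  refine ⟨C0, pP + 1 + pE + m + (pL + 1) * m + pL, by linarith, ?_⟩
  intro a h lam R δ F ha hh hlam hR1 hR2 hδ hδ' H
  have hmin : 0 ≤ min εG εL := (lt_min hεG hεL).le
  have HG : HypF a h m εG lam R F := hypF_mono hmin (min_le_left _ _) H
  have HL : HypF a h m εL lam R F := hypF_mono hmin (min_le_right _ _) H
  obtain ⟨_, _, _, hInn, _, _⟩ := hGEO F HG.fc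
  obtain ⟨Y, hY⟩ : ∃ Y : ℝ, Y = C0 * lam / δ := ⟨_, rfl⟩
  rw [← hY]
  have hcδ : ∀ c : ℝ, 0 ≤ c → c ≤ C0 → c / δ ≤ Y := by
    intro c hc hcC
    rw [hY]
    refine div_le_div_of_nonneg_right ?_ hδ.le
    nlinarith
  have hcY : ∀ c : ℝ, 0 ≤ c → c ≤ C0 → c ≤ Y := by
    intro c hc hcC
    refine le_trans ?_ (hcδ c hc hcC)
    rw [le_div_iff₀ hδ]
    nlinarith
  have hY1 : 1 ≤ Y := hcY 1 zero_le_one (by linarith)
  have hY2 : 2 ≤ Y := hcY 2 (by norm_num) (by linarith)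
  have hY0 : 0 ≤ Y := by linarith
  have hlY : 2 * lam ≤ Y := by
    rw [hY, le_div_iff₀ hδ]
    have h1 : 2 * lam * δ ≤ 2 * lam * 1 := mul_le_mul_of_nonneg_left (by linarith) (by linarith)
    nlinarith
  constructor
  · obtain ⟨g1, _⟩ := hLG a h lam R δ F ha hh hlam hR1 hR2 hδ hδ' HL
    refine g1.trans ?_
    calc (CL / δ) ^ pL ≤ Y ^ pL :=
          pow_le_pow_left₀ (by positivity) (hcδ CL (by linarith) (by linarith)) _
      _ ≤ Y ^ (pP + 1 + pE + m + (pL + 1) * m + pL) :=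
          pow_le_pow_right₀ hY1 (Nat.le_add_left _ _)
  intro D hD0 hDl j
  obtain ⟨g, hg⟩ : ∃ g : E5 → ℂ, g = fun x => ex lam F x * EF a F j 2 x := ⟨_, rfl⟩
  have hgs : Sm g := by
    rw [hg]
    exact (ex_sm H.sm lam).mul (Sm.L ha j (H.sm 2))
  have hγs := gam_sm H.sm
  have hge : NN h m (Dm F (R - δ / 2)) g ≤ Real.exp (-(lam * R)) := by
    refine (NN_mono hh.pos m (Dm_mono F (by linarith : R - δ / 2 ≤ R)) (Dm_bdd F R) hgs).trans ?_
    rw [hg]
    exact H.er j 2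
  have hγe : NN h m (Dm F (R - δ / 2)) (gam F) ≤ Y ^ pL := by
    obtain ⟨g1, _⟩ := hLG a h lam R (δ / 2) F ha hh hlam hR1 hR2 (by linarith) (by linarith) HL
    refine g1.trans (pow_le_pow_left₀ (by positivity) ?_ _)
    have e : CL / (δ / 2) = (2 * CL) / δ := by
      have := hδ.ne'
      field_simp
    rw [e]
    exact hcδ _ (by linarith) (by linarith)
  have hInn1 : Inn (Dm F (R - δ)) (Dm F (R - δ / 2)) (δ / 8) := by
    have h1 := hInn (R - δ / 2) (R - δ) (by linarith) (by linarith)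
    have e : (R - δ / 2 - (R - δ)) / 4 = δ / 8 := by ring
    rwa [e] at h1
  have hInn2 : Inn (Dm F (R - 2 * δ)) (Dm F (R - δ)) (δ / 4) := by
    have h1 := hInn (R - δ) (R - 2 * δ) (by linarith) (by linarith)
    have e : (R - δ - (R - 2 * δ)) / 4 = δ / 4 := by ring
    rwa [e] at h1
  have hno : ∀ x ∈ Dm F (R - δ), ‖Complex.exp (Complex.I * ((D - lam : ℝ) : ℂ) * gam F x)‖ ≤
      Real.exp ((lam - D) * (R - δ)) := by
    intro x hx
    have h1 := ex_norm (D - lam) F x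
    unfold ex at h1
    rw [h1]
    refine Real.exp_le_exp.2 ?_
    have h2 : (gam F x).im ≤ R - δ := hx.2.le
    have h3 : (lam - D) * (gam F x).im ≤ (lam - D) * (R - δ) :=
      mul_le_mul_of_nonneg_left h2 (by linarith)
    linarith
  have hexpo := hEX h hh (δ / 8) (by linarith) (by linarith) (Dm F (R - δ)) (Dm F (R - δ))
    (Dm F (R - δ / 2)) (Dm_open H.sm _) (Subset.refl _) (Dm_open H.sm _) (Dm_open H.sm _)
    (Dm_mono F (by linarith)) hInn1 (Dm_sub F _) (gam F) g (D - lam)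
    (Real.exp ((lam - D) * (R - δ))) hγs hgs (Real.exp_pos _).le hno
  obtain ⟨Z, hZ⟩ : ∃ Z : ℝ, Z = Real.exp (-(D * (R - δ)) - lam * δ) := ⟨_, rfl⟩
  have hZ0 : 0 ≤ Z := by rw [hZ]; exact (Real.exp_pos _).le
  rw [← hZ]
  obtain ⟨g', hg'⟩ : ∃ g' : E5 → ℂ, g' = fun x =>
      Complex.exp (Complex.I * ((D - lam : ℝ) : ℂ) * gam F x) * g x := ⟨_, rfl⟩
  rw [← hg'] at hexpo
  have hg's : Sm g' := by
    rw [hg']
    exact (((Sm.const _).mul hγs).cexp).mul hgs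
  have hb : NN h m (Dm F (R - δ)) g' ≤ (Y ^ pE * Y ^ m * (Y ^ (pL + 1)) ^ m) * Z := by
    refine hexpo.trans ?_
    have b1 : (CE / (δ / 8)) ^ pE ≤ Y ^ pE := by
      refine pow_le_pow_left₀ (by positivity) ?_ _
      have e : CE / (δ / 8) = (8 * CE) / δ := by
        have := hδ.ne'
        field_simp
      rw [e]
      exact hcδ _ (by linarith) (by linarith)
    have b2 : (1 + |D - lam|) ^ m ≤ Y ^ m := by
      refine pow_le_pow_left₀ (by positivity) ?_ _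
      rw [abs_sub_comm, abs_of_nonneg (by linarith : 0 ≤ lam - D)]
      linarith
    have b3 : (1 + NN h m (Dm F (R - δ / 2)) (gam F)) ^ m ≤ (Y ^ (pL + 1)) ^ m := by
      have hn := NN_nonneg hh.pos m (Dm F (R - δ / 2)) (gam F)
      refine pow_le_pow_left₀ (by linarith) ?_ _
      have h1 : 1 ≤ Y ^ pL := one_le_pow₀ hY1
      rw [pow_succ]
      nlinarith
    have b4 : Real.exp ((lam - D) * (R - δ)) * NN h m (Dm F (R - δ / 2)) g ≤ Z := by
      refine (mul_le_mul_of_nonneg_left hge (Real.exp_pos _).le).trans (le_of_eq ?_)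
      rw [← Real.exp_add, hZ]
      congr 1
      ring
    have n2 : 0 ≤ (1 + |D - lam|) ^ m := by positivity
    have n3 : 0 ≤ (1 + NN h m (Dm F (R - δ / 2)) (gam F)) ^ m := by
      have hn := NN_nonneg hh.pos m (Dm F (R - δ / 2)) (gam F)
      exact pow_nonneg (by linarith) _
    have n4 : 0 ≤ Real.exp ((lam - D) * (R - δ)) * NN h m (Dm F (R - δ / 2)) g :=
      mul_nonneg (Real.exp_pos _).le (NN_nonneg hh.pos m _ _)
    rw [mul_assoc ((CE / (δ / 8)) ^ pE * (1 + |D - lam|) ^ m *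
      (1 + NN h m (Dm F (R - δ / 2)) (gam F)) ^ m)]
    have hYE : 0 ≤ Y ^ pE := pow_nonneg hY0 _
    have hYm : 0 ≤ Y ^ m := pow_nonneg hY0 _
    have hYL : 0 ≤ (Y ^ (pL + 1)) ^ m := pow_nonneg (pow_nonneg hY0 _) _
    exact mul_le_mul (mul_le_mul (mul_le_mul b1 b2 n2 hYE) b3 n3 (mul_nonneg hYE hYm)) b4 n4
      (mul_nonneg (mul_nonneg hYE hYm) hYL)
  -- the factor `1 + (I/2) F 2`
  have hf : NN h m (Dm F (R - δ)) (fun x => 1 + Complex.I / 2 * F 2 x) ≤ K0 := by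
    refine (NN_add_le hh.pos m (Dm_bdd F _) (Sm.const 1) ((Sm.const _).mul (H.sm 2))).trans ?_
    rw [NN_const_mul h m _ (H.sm 2), hK0]
    refine add_le_add (NN_one hh (Dm_open H.sm _) (Dm_sub F _)) ?_
    have h1 : NN h m (Dm F (R - δ)) (F 2) ≤ CL :=
      (NN_mono hh.pos m (Dm_mono F (by linarith : R - δ ≤ R)) (Dm_bdd F R) (H.sm 2)).trans
        (hLG a h lam R δ F ha hh hlam hR1 hR2 hδ hδ' HL).2
    have h2 : ‖Complex.I / 2‖ = 1 / 2 := by
      rw [norm_div, Complex.norm_I]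
      norm_num
    have h3 := NN_nonneg hh.pos m (Dm F (R - δ)) (F 2)
    rw [h2]
    linarith
  have e : (fun x => ex D F x * L a j (gam F) x) =
      fun x => (1 + Complex.I / 2 * F 2 x) * g' x := by
    funext x
    have h1 := ex_add lam (D - lam) F x
    have h2 : lam + (D - lam) = D := by ring
    rw [h2] at h1
    rw [h1, L_gam H.sm j x, hg', hg]
    show ex (D - lam) F x * ex lam F x * ((1 + Complex.I / 2 * F 2 x) * EF a F j 2 x) =
      (1 + Complex.I / 2 * F 2 x) * (ex (D - lam) F x * (ex lam F x * EF a F j 2 x))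
    ring
  rw [e]
  have hpr := hPR h hh (δ / 4) (by linarith) (by linarith) (Dm F (R - 2 * δ)) (Dm F (R - δ))
    (Dm_open H.sm _) (Dm_open H.sm _) (Dm_mono F (by linarith)) hInn2 (Dm_sub F _)
    (fun x => 1 + Complex.I / 2 * F 2 x) g' ((Sm.const 1).add ((Sm.const _).mul (H.sm 2))) hg's
  refine hpr.trans ?_
  have b5 : (CP / (δ / 4)) ^ pP ≤ Y ^ pP := by
    refine pow_le_pow_left₀ (by positivity) ?_ _
    have e : CP / (δ / 4) = (4 * CP) / δ := by
      have := hδ.ne'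
      field_simp
    rw [e]
    exact hcδ _ (by linarith) (by linarith)
  have b6 : NN h m (Dm F (R - δ)) (fun x => 1 + Complex.I / 2 * F 2 x) ≤ Y :=
    hf.trans (hcY K0 (by linarith) (by linarith))
  have hYP : 0 ≤ Y ^ pP := pow_nonneg hY0 _
  have n5 := NN_nonneg hh.pos m (Dm F (R - δ)) (fun x => 1 + Complex.I / 2 * F 2 x)
  have n6 := NN_nonneg hh.pos m (Dm F (R - δ)) g'
  refine (mul_le_mul (mul_le_mul b5 b6 n5 hYP) hb n6 (mul_nonneg hYP hY0)).trans ?_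
  have e2 : Y ^ pP * Y * (Y ^ pE * Y ^ m * (Y ^ (pL + 1)) ^ m * Z) =
      Y ^ (pP + 1 + pE + m + (pL + 1) * m) * Z := by
    rw [← pow_mul]
    ring
  rw [e2]
  exact mul_le_mul_of_nonneg_right (pow_le_pow_right₀ hY1 (Nat.le_add_right _ _)) hZ0

end Pool.Agent.CR5
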