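import Pool.Agent.Lib.CR5.G.StsB

/-!
# CR5, block G: the glued structure (statement `S_STS`, helper73)
-/

open MeasureTheory Set Filter Topology
open scoped ENNReal ComplexConjugate

noncomputable section

namespace Pool.Agent.CR5

namespace Stsx

/-- all derivatives of the zero function -/
theorem sq_zero_near {f : E5 → ℂ} {x : E5} (h : f =ᶠ[𝓝 x] fun _ => 0) (i : ℕ) :
    sq i f x = 0 := by
  rw [sq_congr i h, sq_zero_fun]

/-- the commutator of the glued structure where the error is small -/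
theorem kap_bd {a : Str} (ha : SmS a) {F : Mp} (hF : ∀ k, Sm (F k)) (h0 : ∀ y, dt F y ≠ 0)
    {χ : E5 → ℂ} (hχ : Sm χ) {KG M : ℝ} (hKG : 0 ≤ KG) (hM : 0 ≤ M)
    {Ω : Set E5} (hg : ∀ l k, Bo 1 Ω (gi F l k) KG)
    (ha3 : ∀ j l, Bo 1 Ω (aG a F χ j l) 3)
    (hE : ∀ j k, Bo 2 Ω (fun y => χ y * EF a F j k y) M) (l : Fin 3) :
    Bo 1 Ω (kap (aG a F χ) l) (3 * (cmG 1 * KG * (2 * ((1 + 9 * cmG 1) * M)))) := by
  have hc := cmG_pos 1
  have hs := sm_aG ha hF h0 hχ
  have s : ∀ j k, Sm (fun y => χ y * EF a F j k y) := fun j k => hχ.mul (sm_EF ha hF j k)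
  have b : ∀ i j k, Bo 1 Ω (L (aG a F χ) i (fun y => χ y * EF a F j k y))
      ((1 + 9 * cmG 1) * M) := by
    intro i j k
    have h1 := Bo.L hs (s j k) (by norm_num) hM i (fun l => ha3 i l) (hE j k)
    refine Bo.mono h1 le_rfl (Subset.refl _) (by positivity) (le_of_eq ?_)
    ring
  have d : ∀ k, Bo 1 Ω (fun x => L (aG a F χ) 0 (fun y => χ y * EF a F 1 k y) x
        - L (aG a F χ) 1 (fun y => χ y * EF a F 0 k y) x) (2 * ((1 + 9 * cmG 1) * M)) := by
    intro k
    have h1 := Bo.sub ((s 1 k).L hs 0) ((s 0 k).L hs 1) (by positivity) (by positivity)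
      (b 0 1 k) (b 1 0 k)
    refine Bo.mono h1 le_rfl (Subset.refl _) (by positivity) (le_of_eq ?_)
    ring
  rw [kap_aG ha hF h0 hχ]
  have h1 := Bo.sum (Finset.univ : Finset (Fin 3)) (m := 1) (Ω := Ω)
    (f := fun k x => gi F l k x * (L (aG a F χ) 0 (fun y => χ y * EF a F 1 k y) x
        - L (aG a F χ) 1 (fun y => χ y * EF a F 0 k y) x))
    (M := fun _ => cmG 1 * KG * (2 * ((1 + 9 * cmG 1) * M)))
    (fun k _ => (sm_gi hF h0 l k).mul (((s 1 k).L hs 0).sub ((s 0 k).L hs 1)))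
    (fun _ _ => by positivity)
    (fun k _ => Bo.mul (sm_gi hF h0 l k) (((s 1 k).L hs 0).sub ((s 0 k).L hs 1)) (hg l k) (d k))
  refine Bo.mono h1 le_rfl (Subset.refl _) (by simp; positivity) (le_of_eq ?_)
  simp only [Finset.sum_const, Finset.card_univ, Fintype.card_fin, nsmul_eq_mul]
  push_cast
  ring

/-- where the cutoff vanishes, the commutator vanishes -/
theorem kap_zero {a : Str} (ha : SmS a) {F : Mp} (hF : ∀ k, Sm (F k)) (h0 : ∀ y, dt F y ≠ 0)
    {χ : E5 → ℂ} (hχ : Sm χ) {x : E5} (hx : χ =ᶠ[𝓝 x] fun _ => 0) (l : Fin 3) :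
    kap (aG a F χ) l x = 0 := by
  rw [kap_aG ha hF h0 hχ]
  have h1 : ∀ i j k, L (aG a F χ) i (fun y => χ y * EF a F j k y) x = 0 := by
    intro i j k
    have h2 : (fun y => χ y * EF a F j k y) =ᶠ[𝓝 x] fun _ => (0 : ℂ) := by
      filter_upwards [hx] with y hy
      rw [hy, zero_mul]
    rw [L_congr i h2, L_const]
  simp only [h1]
  simp

/-- powers of the parameter -/
theorem pow_arith {CE C Q W : ℝ} {pE : ℕ} (hCE : 1 ≤ CE) (hQ : 1 ≤ Q) (hW : 0 ≤ W)
    (hC : CE ≤ C) (hC2 : W ≤ C) : W * Q ^ 4 * (CE * Q) ^ pE ≤ (C * Q) ^ (pE + 5) := by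
  have hC1 : 1 ≤ C := hCE.trans hC
  have h1 : (CE * Q) ^ pE ≤ (C * Q) ^ pE := by
    apply pow_le_pow_left₀ (by positivity)
    exact mul_le_mul_of_nonneg_right hC (by linarith)
  have h2 : W * Q ^ 4 ≤ (C * Q) ^ 5 := by
    have e : (C * Q) ^ 5 = C * (Q ^ 4) * (C ^ 4 * Q) := by ring
    rw [e]
    have h3 : W * Q ^ 4 ≤ C * Q ^ 4 := mul_le_mul_of_nonneg_right hC2 (by positivity)
    have h4 : 1 ≤ C ^ 4 * Q := by
      have : 1 ≤ C ^ 4 := one_le_pow₀ hC1
      nlinarith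
    have h5 : 0 ≤ C * Q ^ 4 := by positivity
    nlinarith
  rw [pow_add, mul_comm ((C * Q) ^ pE)]
  exact mul_le_mul h2 h1 (by positivity) (by positivity)

/-- the exponential beats the power -/
theorem exp_arith {X t : ℝ} {p : ℕ} (hX : 1 ≤ X) (ht : 0 ≤ t) (h : p * Real.log X ≤ t / 4) :
    X ^ p * Real.exp (-t) ≤ 1 := by
  have hX0 : 0 < X := by linarith
  have e : X ^ p = Real.exp (p * Real.log X) := by
    rw [mul_comm, Real.exp_mul, Real.exp_log hX0, Real.rpow_natCast]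
  rw [e, ← Real.exp_add]
  apply Real.exp_le_one_iff.2
  linarith

end Stsx

open Stsx in
theorem pSTS (h1 : S_GEO) (h2 : S_ELP) (h3 : S_CUT2) (h4 : S_Inv) : S_STS := by
  intro ε' hε'
  obtain ⟨εg, hεg, K, hK, hG⟩ := h1
  obtain ⟨εe, hεe, CE, pE, hCE, hEL⟩ := h2
  obtain ⟨Cχ, hCχ, hcut⟩ := h3 4
  have hK' : 1 ≤ K := hK
  have hCχ' : 1 ≤ Cχ := hCχ
  have hK0 : 0 < K := by linarith
  have hF0 : ∀ k, Bo 5 (Metric.ball 0 1) (F0 k) K := (hG F0 (FC_F0 εg)).2.2.2.2.1
  obtain ⟨KG, hKG, hgi⟩ := gi_bd h4 hK'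
  obtain ⟨K1, hK1, hEb⟩ := E_bd hK' hF0
  have hKG' : 1 ≤ KG := hKG
  have hK1' : 1 ≤ K1 := hK1
  have hKG0 : 0 ≤ KG := by linarith
  have hK10 : 0 ≤ K1 := by linarith
  have hc4 := cmG_pos 4
  have hc1 := cmG_pos 1
  -- the constants
  set ε2 : ℝ := min ε' 1 with hε2
  have hε20 : 0 < ε2 := lt_min hε' one_pos
  have hε21 : ε2 ≤ 1 := min_le_right _ _
  have hε2' : ε2 ≤ ε' := min_le_left _ _
  set KT : ℝ := 3 * (cmG 4 * KG * K1) with hKT
  have hKT0 : 0 ≤ KT := by positivity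
  set η : ℝ := min (min εg εe) (min (1 / (36 * K ^ 2)) (ε2 / (2 * (1 + KT)))) with hη
  have hη0 : 0 < η := by
    refine lt_min (lt_min hεg hεe) (lt_min (by positivity) (by positivity))
  have hηg : η ≤ εg := (min_le_left _ _).trans (min_le_left _ _)
  have hηe : η ≤ εe := (min_le_left _ _).trans (min_le_right _ _)
  have hηK : 36 * K ^ 2 * η ≤ 1 := by
    have h : η ≤ 1 / (36 * K ^ 2) := (min_le_right _ _).trans (min_le_left _ _)
    rw [le_div_iff₀ (by positivity)] at h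
    linarith
  have hη2 : (1 + KT) * η ≤ ε2 / 2 := by
    have h : η ≤ ε2 / (2 * (1 + KT)) := (min_le_right _ _).trans (min_le_right _ _)
    rw [le_div_iff₀ (by positivity)] at h
    linarith
  have hη1 : η ≤ 1 := by nlinarith
  have hηε : η ≤ ε2 / 2 := by nlinarith
  set Kχ : ℝ := 8192 * Cχ with hKχ
  have hKχ0 : 0 ≤ Kχ := by positivity
  set W1 : ℝ := cmG 4 * Kχ * (3 * (cmG 4 * KG)) * (2 / ε2) with hW1
  have hW10 : 0 ≤ W1 := by positivity
  set W2 : ℝ := 3 * (cmG 1 * KG * (2 * ((1 + 9 * cmG 1) * (cmG 4 * Kχ)))) with hW2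
  have hW20 : 0 ≤ W2 := by positivity
  refine ⟨η, hη0, η, hη0, CE + W1 + W2, pE + 5, by linarith, ?_⟩
  intro a ha _ h m lam R δ F hadm hlam hR1 hR2 hδ hδ1 hF hlog
  set C : ℝ := CE + W1 + W2 with hC
  have hCC1 : 1 ≤ C := by linarith
  -- hypotheses on the map
  have hFC : FC η F := hF.fc
  have hFCg : FC εg F := ⟨hFC.sm, hFC.out, fun k i hi x => (hFC.c5 k i hi x).trans
    (pow_le_pow_left₀ hη0.le hηg 2)⟩
  have hFe : HypF a h m εe lam R F := ⟨hF.sm, hF.out, fun k i hi x => (hF.c5 k i hi x).trans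
    (pow_le_pow_left₀ hη0.le hηe 2), hF.nn, hF.er⟩
  obtain ⟨-, -, -, hInn, hFK, -⟩ := hG F hFCg
  have hs : SmS a := ha.sm
  have hsF : ∀ k, Sm (F k) := hF.sm
  have hdl : ∀ y, 1 / 2 ≤ ‖dt F y‖ := fun y => dt_low hK' hη0.le hηK hFC hFK hF0 y
  have hd0 : ∀ y, dt F y ≠ 0 := by
    intro y hy
    have := hdl y
    rw [hy, norm_zero] at this
    linarith
  have hg : ∀ l k, Bo 4 (Metric.ball 0 1) (gi F l k) KG := hgi F hsF hFK hdl
  have ha4 : Near a 4 η := ha.monoG (by unfold MM; norm_num) hη0.le le_rfl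
  have hE4 : ∀ j k, Bo 4 (Metric.ball 0 1) (EF a F j k) (K1 * η) := hEb a F η hη0.le hη1 ha4 hFC
  -- the parameter
  set Q : ℝ := lam / δ with hQ
  have hQδ : 1 / δ ≤ Q := by
    rw [hQ]
    gcongr
  have hQ1 : 1 ≤ Q := by
    have : 1 ≤ 1 / δ := by
      rw [le_div_iff₀ hδ]
      linarith
    linarith
  have eC : C * lam / δ = C * Q := by rw [hQ]; ring
  have eCE : CE * lam / δ = CE * Q := by rw [hQ]; ring
  rw [eC] at hlog
  have ht0 : 0 ≤ lam * δ := by positivity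
  -- the error on the smaller domain
  set D1' : Set E5 := Dm F (R - δ) with hD1'
  have hDo : IsOpen D1' := Dm_open hsF _
  have hDb : D1' ⊆ Metric.ball 0 1 := Dm_sub F _
  set θ : ℝ := (CE * Q) ^ pE * Real.exp (-(lam * δ)) with hθ
  have hθ0 : 0 ≤ θ := by positivity
  have hE5 : ∀ j k, Bo 4 D1' (EF a F j k) θ := by
    intro j k i hi x hx
    have e1 := hEL a h m lam R δ F hs hadm hlam hR1 hR2 hδ hδ1 hFe j k i hi x hx
    refine e1.trans ?_
    apply pow_le_pow_left₀ (by positivity)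
    rw [eCE, hθ]
    apply mul_le_mul_of_nonneg_left _ (by positivity)
    apply Real.exp_le_exp.2
    have e2 : (gam F x).im < R - δ := hx.2
    have e3 : lam * δ ≤ lam * (R - (gam F x).im) :=
      mul_le_mul_of_nonneg_left (by linarith) (by linarith)
    linarith
  -- the cutoff
  have hs0 : 0 < δ / 8 := by positivity
  obtain ⟨χ, hχ, hχr, hχ1, hχ2, hχb⟩ := hcut (Dm F (R - 2 * δ)) (δ / 8) hs0 (by linarith)
  have hInn' : Inn (Dm F (R - 2 * δ)) D1' (δ / 4) := by
    have e := hInn (R - δ) (R - 2 * δ) (by linarith) (by linarith)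
    have e2 : (R - δ - (R - 2 * δ)) / 4 = δ / 4 := by ring
    rwa [e2] at e
  have hχz : ∀ x, x ∉ D1' → χ =ᶠ[𝓝 x] fun _ => 0 := by
    intro x hx
    filter_upwards [Metric.ball_mem_nhds x hs0] with y hy
    by_contra hne
    obtain ⟨z, hz, hyz⟩ := hχ2 y hne
    apply hx
    apply hInn' z hz
    rw [Metric.mem_ball] at hy ⊢
    have e1 := dist_triangle x y z
    rw [dist_comm x y] at e1
    linarith
  have hχB : Bo 4 univ χ (Cχ / (δ / 8) ^ 4) := by
    intro i hi x _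
    refine (hχb i hi x).trans ?_
    apply pow_le_pow_left₀ (by positivity)
    apply div_le_div_of_nonneg_left (by linarith) (by positivity)
    exact pow_le_pow_of_le_one hs0.le (by linarith) hi
  have hχQ : Cχ / (δ / 8) ^ 4 ≤ 4096 * Cχ * Q ^ 4 := by
    have e1 : Cχ / (δ / 8) ^ 4 = 4096 * Cχ * (1 / δ) ^ 4 := by
      field_simp
      norm_num
    rw [e1]
    have e2 : (1 / δ) ^ 4 ≤ Q ^ 4 := pow_le_pow_left₀ (by positivity) hQδ 4
    exact mul_le_mul_of_nonneg_left e2 (by positivity)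
  have hχ4 : Bo 4 univ χ (Kχ * Q ^ 4) := by
    refine Bo.mono hχB le_rfl (Subset.refl _) (by positivity) (hχQ.trans ?_)
    have : 0 ≤ 4096 * Cχ * Q ^ 4 := by positivity
    rw [hKχ]
    linarith
  have h1χ : Bo 4 univ (fun x => 1 - χ x) (Kχ * Q ^ 4) := by
    have e1 := Bo.sub (Sm.const 1) hχ (norm_nonneg _) (by positivity) (Bo.const 4 univ 1) hχB
    refine Bo.mono e1 le_rfl (Subset.refl _) (by positivity) ?_
    rw [norm_one]
    have e2 : 1 ≤ 4096 * Cχ * Q ^ 4 := by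
      have : 1 ≤ Q ^ 4 := one_le_pow₀ hQ1
      nlinarith
    rw [hKχ]
    linarith
  -- the glued structure
  have hsG : SmS (aG a F χ) := sm_aG hs hsF hd0 hχ
  have hsT : ∀ j l, Sm (TT a F j l) := fun j l => sm_TT hs hsF hd0 j l
  have hT1 := TT_bd hs hsF hd0 hKG0 (by positivity : 0 ≤ K1 * η) hg (Subset.refl _) hE4
  have hT2 := TT_bd hs hsF hd0 hKG0 hθ0 hg hDb hE5
  have hX : W1 * Q ^ 4 * (CE * Q) ^ pE ≤ (C * Q) ^ (pE + 5) :=
    pow_arith hCE hQ1 hW10 (by linarith) (by linarith)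
  have hY : W2 * Q ^ 4 * (CE * Q) ^ pE ≤ (C * Q) ^ (pE + 5) :=
    pow_arith hCE hQ1 hW20 (by linarith) (by linarith)
  have hexp : (C * Q) ^ (pE + 5) * Real.exp (-(lam * δ)) ≤ 1 :=
    exp_arith (by nlinarith) ht0 hlog
  have hnear : ∀ j l i, i ≤ 4 → ∀ x, sq i (fun y => aG a F χ j l y - a0 j l y) x ≤ ε2 ^ 2 := by
    intro j l i hi x
    by_cases hx : x ∈ D1'
    · -- inside
      have b1 : Bo 4 D1' (fun y => (1 - χ y) * TT a F j l y)
          (cmG 4 * (Kχ * Q ^ 4) * (3 * (cmG 4 * KG * θ))) :=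
        Bo.mul ((Sm.const 1).sub hχ) (hsT j l)
          (Bo.mono h1χ le_rfl (subset_univ _) (by positivity) le_rfl) (hT2 j l)
      have b2 : Bo 4 D1' (fun y => a j l y - a0 j l y) η := fun i hi x _ => ha4.bd j l i hi x
      have b3 := Bo.sub ((hs j l).sub (smS_a0 j l)) (((Sm.const 1).sub hχ).mul (hsT j l))
        hη0.le (by positivity) b2 b1
      have e : (fun y => aG a F χ j l y - a0 j l y)
          = fun y => (a j l y - a0 j l y) - (1 - χ y) * TT a F j l y := by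
        funext y
        unfold aG
        ring
      rw [e]
      refine (b3 i hi x hx).trans ?_
      apply pow_le_pow_left₀ (by positivity)
      have e2 : cmG 4 * (Kχ * Q ^ 4) * (3 * (cmG 4 * KG * θ))
          = (ε2 / 2) * (W1 * Q ^ 4 * (CE * Q) ^ pE * Real.exp (-(lam * δ))) := by
        rw [hW1, hθ]
        field_simp
      have e3 : W1 * Q ^ 4 * (CE * Q) ^ pE * Real.exp (-(lam * δ)) ≤ 1 :=
        (mul_le_mul_of_nonneg_right hX (Real.exp_pos _).le).trans hexp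
      rw [e2]
      have e4 : (ε2 / 2) * (W1 * Q ^ 4 * (CE * Q) ^ pE * Real.exp (-(lam * δ)))
          ≤ (ε2 / 2) * 1 := mul_le_mul_of_nonneg_left e3 (by positivity)
      linarith
    · have hz := hχz x hx
      rcases lt_or_ge ‖x‖ 1 with hx1 | hx1
      · -- in the unit ball, outside the domain
        have b2 : Bo 4 (Metric.ball 0 1) (fun y => a j l y - a0 j l y) η :=
          fun i hi x _ => ha4.bd j l i hi x
        have b3 := Bo.sub ((hs j l).sub (smS_a0 j l)) (hsT j l) hη0.le (by positivity) b2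
          (hT1 j l)
        have e : (fun y => aG a F χ j l y - a0 j l y)
            =ᶠ[𝓝 x] fun y => (a j l y - a0 j l y) - TT a F j l y := by
          filter_upwards [hz] with y hy
          unfold aG
          rw [hy]
          ring
        rw [sq_congr i e]
        refine (b3 i hi x (by rwa [mem_ball_zero_iff])).trans ?_
        apply pow_le_pow_left₀ (by positivity)
        have e2 : η + 3 * (cmG 4 * KG * (K1 * η)) = (1 + KT) * η := by
          rw [hKT]
          ring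
        rw [e2]
        linarith
      · have e : (fun y => aG a F χ j l y - a0 j l y) =ᶠ[𝓝 x] fun _ => 0 := by
          have ho : IsOpen {y : E5 | 3 / 4 < ‖y‖} := isOpen_lt continuous_const continuous_norm
          have hx2 : x ∈ {y : E5 | 3 / 4 < ‖y‖} := by
            show 3 / 4 < ‖x‖
            linarith
          filter_upwards [hz, ho.mem_nhds hx2] with y hy hy2
          rw [aG_out hFC (hd0 y) hy2 hy]
          ring
        rw [sq_zero_near e]
        positivity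
  have hN : Near (aG a F χ) 4 ε2 := by
    refine ⟨hsG, ?_, hnear⟩
    intro j l x hx
    have hx' : x ∉ D1' := by
      intro hx'
      have := hx'.1
      linarith
    exact aG_out hFC (hd0 x) (by linarith) (hχz x hx').eq_of_nhds j l
  have h3 : ∀ j l, Bo 4 (Metric.ball 0 1) (aG a F χ j l) 3 := fun j l =>
    Bo_near hN hε20.le hε21 j l
  -- the commutator
  have hkap : ∀ l, Bo 1 D1' (kap (aG a F χ) l)
      ((C * Q) ^ (pE + 5) * Real.exp (-(lam * δ))) := by
    intro l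
    have b1 : ∀ j k, Bo 4 D1' (fun y => χ y * EF a F j k y) (cmG 4 * (Kχ * Q ^ 4) * θ) :=
      fun j k => Bo.mul hχ (sm_EF hs hsF j k)
        (Bo.mono hχ4 le_rfl (subset_univ _) (by positivity) le_rfl) (hE5 j k)
    have b2 := kap_bd hs hsF hd0 hχ hKG0 (by positivity : 0 ≤ cmG 4 * (Kχ * Q ^ 4) * θ)
      (fun l k => Bo.mono (hg l k) (by norm_num) hDb hKG0 le_rfl)
      (fun j l => Bo.mono (h3 j l) (by norm_num) hDb (by norm_num) le_rfl)
      (fun j k => Bo.mono (b1 j k) (by norm_num) (Subset.refl _) (by positivity) le_rfl) l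
    refine Bo.mono b2 le_rfl (Subset.refl _) (by positivity) ?_
    have e2 : 3 * (cmG 1 * KG * (2 * ((1 + 9 * cmG 1) * (cmG 4 * (Kχ * Q ^ 4) * θ))))
        = W2 * Q ^ 4 * (CE * Q) ^ pE * Real.exp (-(lam * δ)) := by
      rw [hW2, hθ]
      ring
    rw [e2]
    exact mul_le_mul_of_nonneg_right hY (Real.exp_pos _).le
  have hB0 : 0 ≤ (C * Q) ^ (pE + 5) * Real.exp (-(lam * δ)) := by positivity
  rw [eC]
  refine ⟨aG a F χ, hN.monoG le_rfl hε20.le hε2', ?_, ?_, ?_⟩
  · intro j l x hx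
    have e : χ x = 1 := hχ1 x hx x (by rw [dist_self]; positivity)
    unfold aG
    rw [e]
    ring
  · intro l x
    by_cases hx : x ∈ D1'
    · exact (hkap l).norm_le hB0 hx
    · rw [kap_zero hs hsF hd0 hχ (hχz x hx), norm_zero]
      exact hB0
  · intro l i x
    by_cases hx : x ∈ D1'
    · exact (Bo.pd (m := 0) (hkap l) i).norm_le hB0 hx
    · have e : kap (aG a F χ) l =ᶠ[𝓝 x] fun _ => (0 : ℂ) := by
        have hz := (hχz x hx).eventually_nhds
        filter_upwards [hz] with y hy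
        exact kap_zero hs hsF hd0 hχ hy l
      rw [(pd_congr e i).eq_of_nhds, pd_const, norm_zero]
      exact hB0

end Pool.Agent.CR5
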