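import Pool.Agent.Lib.CR5.SpecG

/-!
# CR5, block G, gBdE: every structure has bounded derivatives
-/

set_option autoImplicit false

open MeasureTheory Set Filter Topology
open scoped ENNReal ComplexConjugate

namespace Pool.Agent.CR5

namespace GgBdE

theorem sq_bd : ∀ (n : ℕ) (f : E5 → ℂ), Tst f → ∃ M : ℝ, 0 ≤ M ∧ ∀ x, sq n f x ≤ M := by
  intro n
  induction n with
  | zero =>
    intro f hf
    obtain ⟨C, hC⟩ := hf.cs.exists_bound_of_continuous hf.sm.cont
    refine ⟨C ^ 2, sq_nonneg _, fun x => ?_⟩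
    show ‖f x‖ ^ 2 ≤ C ^ 2
    exact pow_le_pow_left₀ (norm_nonneg _) (hC x) 2
  | succ n ih =>
    intro f hf
    have h1 : ∀ k : Fin 5, ∃ M : ℝ, 0 ≤ M ∧ ∀ x, sq n (pd k f) x ≤ M := fun k => ih _ (hf.pd k)
    choose M h0 hM using h1
    refine ⟨∑ k, M k, Finset.sum_nonneg fun k _ => h0 k, fun x => ?_⟩
    show ∑ k : Fin 5, sq n (pd k f) x ≤ ∑ k, M k
    exact Finset.sum_le_sum fun k _ => hM k x

theorem tst {a : Str} {m : ℕ} {ε : ℝ} (h : Near a m ε) (j : Fin 2) (l : Fin 3) :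
    Tst fun y => a j l y - a0 j l y := by
  refine ⟨(h.sm j l).sub (smS_a0 j l), ?_⟩
  refine HasCompactSupport.of_support_subset_isCompact (isCompact_closedBall (0 : E5) 1) ?_
  intro x hx
  by_contra hn
  apply hx
  have h1 : 1 ≤ ‖x‖ := by
    by_contra h2
    exact hn (by rw [Metric.mem_closedBall, dist_zero_right]; linarith)
  show a j l x - a0 j l x = 0
  rw [h.out j l x h1, sub_self]

end GgBdE

theorem pgBdE : S_gBdE := by
  intro a m ε h n
  have h1 : ∀ (j : Fin 2) (l : Fin 3) (i : Fin (n + 1)), ∃ M : ℝ, 0 ≤ M ∧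
      ∀ x, sq i (fun y => a j l y - a0 j l y) x ≤ M := fun j l i =>
    GgBdE.sq_bd i _ (GgBdE.tst h j l)
  choose M h0 hM using h1
  have hS : 0 ≤ ∑ j, ∑ l, ∑ i, M j l i :=
    Finset.sum_nonneg fun j _ => Finset.sum_nonneg fun l _ => Finset.sum_nonneg fun i _ => h0 j l i
  refine ⟨1 + ∑ j, ∑ l, ∑ i, M j l i, by linarith, ?_⟩
  intro j l i hi x
  have h2 : M j l ⟨i, Nat.lt_succ_of_le hi⟩ ≤ ∑ j, ∑ l, ∑ i, M j l i := by
    refine le_trans ?_ (Finset.single_le_sum (f := fun j => ∑ l, ∑ i, M j l i)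
      (fun j _ => Finset.sum_nonneg fun l _ => Finset.sum_nonneg fun i _ => h0 j l i)
      (Finset.mem_univ j))
    refine le_trans ?_ (Finset.single_le_sum (f := fun l => ∑ i, M j l i)
      (fun l _ => Finset.sum_nonneg fun i _ => h0 j l i) (Finset.mem_univ l))
    exact Finset.single_le_sum (f := fun i => M j l i) (fun i _ => h0 j l i) (Finset.mem_univ _)
  refine (hM j l ⟨i, Nat.lt_succ_of_le hi⟩ x).trans (h2.trans ?_)
  nlinarith

end Pool.Agent.CR5
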