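import Pool.Agent.Lib.CR5.SpecG

/-!
# CR5, block G: gBox, the operators of two structures agreeing on an open set (helper6)
-/

open MeasureTheory Set Filter Topology
open scoped ENNReal ComplexConjugate

noncomputable section

namespace Pool.Agent.CR5

theorem pgBox : S_gBox := by
  intro a b U hU hab w x hx
  have hg : ∀ z ∈ U, ∀ j l, a j l =ᶠ[𝓝 z] b j l := fun z hz j l =>
    Filter.eventuallyEq_of_mem (hU.mem_nhds hz) fun y hy => hab j l y hy
  have h0 : ∀ z ∈ U, D0s a w z = D0s b w z := fun z hz => by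
    show Ls a 0 (w 0) z + Ls a 1 (w 1) z = Ls b 0 (w 0) z + Ls b 1 (w 1) z
    rw [Ls_congr 0 (EventuallyEq.refl _ (w 0)) (hg z hz 0),
      Ls_congr 1 (EventuallyEq.refl _ (w 1)) (hg z hz 1)]
  have h1 : ∀ z ∈ U, D1 a w z = D1 b w z := fun z hz => by
    show L a 0 (w 1) z - L a 1 (w 0) z = L b 0 (w 1) z - L b 1 (w 0) z
    rw [L_congr_str 0 (fun l => hab 0 l z hz), L_congr_str 1 (fun l => hab 1 l z hz)]
  have e0 : D0s a w =ᶠ[𝓝 x] D0s b w := Filter.eventuallyEq_of_mem (hU.mem_nhds hx) h0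
  have e1 : D1 a w =ᶠ[𝓝 x] D1 b w := Filter.eventuallyEq_of_mem (hU.mem_nhds hx) h1
  have h2 : ∀ j, D1s a (D1 a w) j x = D1s b (D1 b w) j x := fun j => by
    show (if j = 0 then -Ls a 1 (D1 a w) x else Ls a 0 (D1 a w) x)
      = (if j = 0 then -Ls b 1 (D1 b w) x else Ls b 0 (D1 b w) x)
    rw [Ls_congr 1 e1 (hg x hx 1), Ls_congr 0 e1 (hg x hx 0)]
  refine ⟨h0 x hx, h1 x hx, h2, fun e j => ?_⟩
  show (L a j (D0s a w) x + D1s a (D1 a w) j x) + (e : ℂ) * (w j x - pd 4 (pd 4 (w j)) x)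
    = (L b j (D0s b w) x + D1s b (D1 b w) j x) + (e : ℂ) * (w j x - pd 4 (pd 4 (w j)) x)
  rw [L_congr j e0, L_congr_str j (fun l => hab j l x hx), h2 j]

end Pool.Agent.CR5
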