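import Pool.Agent.Lib.CR5.SpecG

/-!
# CR5, block G: gChi, the cutoff function (helper6, after the docstring of helper55)
-/

open MeasureTheory Set Filter Topology
open scoped ENNReal ComplexConjugate

noncomputable section

namespace Pool.Agent.CR5

theorem pgChi : S_gChi := by
  intro hCUT hGEO
  obtain ⟨ε1, hε1, C1, _, hG⟩ := hGEO
  obtain ⟨C, hC, hc⟩ := hCUT 3
  refine ⟨ε1, hε1, 16 ^ 3 * C, by nlinarith, fun F hF ρ s hρ hs hs1 => ?_⟩
  obtain ⟨_, _, _, hInn, _, _⟩ := hG F hF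
  obtain ⟨χ, hχ, hr, h1, h2, h3⟩ := hc (Dm F (ρ - s / 2)) (s / 16) (by positivity) (by linarith)
  have hsup : ∀ x, χ x ≠ 0 → x ∈ Dm F (ρ - s / 8) := by
    intro x hx
    obtain ⟨y, hy, hd⟩ := h2 x hx
    have h4 := hInn (ρ - s / 8) (ρ - s / 2) (by linarith) (by linarith) y hy
    apply h4
    rw [Metric.mem_ball]
    linarith
  refine ⟨χ, ⟨hχ, ?_⟩, ?_, h1, ?_, ?_⟩
  · refine HasCompactSupport.intro (isCompact_closedBall (0 : E5) 1) fun x hx => ?_
    by_contra h
    exact hx (Metric.ball_subset_closedBall (Dm_sub F _ (hsup x h)))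
  · intro x
    obtain ⟨r, hr0, hr1, he⟩ := hr x
    rw [he, Complex.norm_real, Real.norm_eq_abs, abs_of_nonneg hr0]
    exact hr1
  · intro x hx
    refine Filter.eventuallyEq_of_mem (Metric.ball_mem_nhds x (by positivity : 0 < s / 32))
      fun y hy => ?_
    by_contra h
    have h4 := hInn ρ (ρ - s / 8) (by linarith) hρ y (hsup y h)
    apply hx
    apply h4
    rw [Metric.mem_ball] at hy ⊢
    rw [dist_comm]
    linarith
  · intro i hi x
    refine (h3 i hi x).trans ?_
    have e1 : C / (s / 16) ^ i = 16 ^ i * C / s ^ i := by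
      rw [div_pow]
      field_simp
    rw [e1]
    have h5 : (16 : ℝ) ^ i ≤ 16 ^ 3 := pow_le_pow_right₀ (by norm_num) hi
    have h6 : 16 ^ i * C / s ^ i ≤ 16 ^ 3 * C / s ^ i := by gcongr
    exact pow_le_pow_left₀ (by positivity) h6 2

end Pool.Agent.CR5
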