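import Pool.Agent.Lib.CR5.SpecG

/-!
# CR5, block G: gD1, the identity for `D1 Φ` (helper77, after helper55's docstring)
-/

open MeasureTheory Set Filter Topology
open scoped ENNReal ComplexConjugate

noncomputable section

namespace Pool.Agent.CR5

theorem pgD1 : S_gD1 := by
  intro a F χ E' μ D x _ hF hχ hE h
  have hex : Sm (ex (μ + D) F) := ex_sm hF (μ + D)
  have h0 : L a 0 (E' 1) x - L a 1 (E' 0) x = 0 := h
  have key : ∀ j k : Fin 2, L a j (fun y => χ y * (ex (μ + D) F y * E' k y)) x =
      χ x * (ex (μ + D) F x * L a j (E' k) x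
        + Complex.I * ((μ + D : ℝ) : ℂ) * ex (μ + D) F x * L a j (gam F) x * E' k x)
      + L a j χ x * (ex (μ + D) F x * E' k x) := by
    intro j k
    rw [L_mul hχ (hex.mul (hE k)), L_mul hex (hE k), L_ex hF]
  show L a 0 (fun y => χ y * (ex (μ + D) F y * E' 1 y)) x -
    L a 1 (fun y => χ y * (ex (μ + D) F y * E' 0 y)) x = _
  rw [key, key]
  simp only [Ps, ex_add]
  linear_combination (χ x * (ex D F x * ex μ F x)) * h0

end Pool.Agent.CR5
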