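import Pool.Agent.Lib.CR5.SpecG

/-!
# CR5, G/gEx: derivatives of `ex D F`
-/

open MeasureTheory Set Filter Topology
open scoped ENNReal ComplexConjugate

noncomputable section

namespace Pool.Agent.CR5

theorem pgEx : S_gEx := by
  intro hE hG
  obtain ⟨ε1, hε1, C0, hC0, hG⟩ := hG
  obtain ⟨C2, hC2, hE⟩ := hE 2
  have h1C : 1 ≤ (1 + C0) ^ 2 := one_le_pow₀ (by linarith)
  refine ⟨ε1, hε1, C2 * (1 + C0) ^ 2, one_le_mul_of_one_le_of_one_le hC2 h1C, ?_⟩
  intro F hF lam D hlam hD0 hD i hi x hx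
  obtain ⟨-, -, -, -, -, g6⟩ := hG F hF
  have hB1 : 1 ≤ 1 + D * C0 := by
    have : 0 ≤ D * C0 := mul_nonneg hD0 (by linarith)
    linarith
  have hφs : Sm (fun y => Complex.I * (D : ℂ) * gam F y) := (Sm.const _).mul (gam_sm hF.sm)
  have hφ : ∀ n, 1 ≤ n → n ≤ 2 →
      sq n (fun y => Complex.I * (D : ℂ) * gam F y) x ≤ (1 + D * C0) ^ 2 := by
    intro n _ hn
    have e1 := sq_const_mul n (gam_sm hF.sm) (Complex.I * (D : ℂ)) x
    have e2 := g6 n (by omega) x hx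
    have e3 : ‖Complex.I * (D : ℂ)‖ = D := by
      rw [norm_mul, Complex.norm_I, Complex.norm_real, one_mul, Real.norm_eq_abs,
        abs_of_nonneg hD0]
    rw [e1, e3]
    calc D ^ 2 * sq n (gam F) x ≤ D ^ 2 * C0 ^ 2 :=
          mul_le_mul_of_nonneg_left e2 (by positivity)
      _ = (D * C0) ^ 2 := by ring
      _ ≤ (1 + D * C0) ^ 2 := pow_le_pow_left₀ (mul_nonneg hD0 (by linarith)) (by linarith) 2
  have e1 := hE (fun y => Complex.I * (D : ℂ) * gam F y) hφs x (1 + D * C0) hB1 hφ i hi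
  have e2 : ‖Complex.exp (Complex.I * (D : ℂ) * gam F x)‖
      = Real.exp (-(D * (gam F x).im)) := ex_norm D F x
  have e3 : sq i (ex D F) x
      = sq i (fun y => Complex.exp (Complex.I * (D : ℂ) * gam F y)) x := rfl
  rw [e3]
  refine e1.trans ?_
  rw [e2]
  refine pow_le_pow_left₀ (by positivity) ?_ 2
  refine mul_le_mul_of_nonneg_right ?_ (Real.exp_pos _).le
  have hB : 1 + D * C0 ≤ (1 + C0) * lam := by
    have h1 : D * C0 ≤ lam * C0 := mul_le_mul_of_nonneg_right hD (by linarith)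
    nlinarith
  calc C2 * (1 + D * C0) ^ i ≤ C2 * (1 + D * C0) ^ 2 :=
        mul_le_mul_of_nonneg_left (pow_le_pow_right₀ hB1 hi) (by linarith)
    _ ≤ C2 * ((1 + C0) * lam) ^ 2 :=
        mul_le_mul_of_nonneg_left (pow_le_pow_left₀ (by linarith) hB 2) (by linarith)
    _ = C2 * (1 + C0) ^ 2 * lam ^ 2 := by ring

end Pool.Agent.CR5
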