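import Pool.Agent.Lib.CR5.SpecG

/-!
# CR5, block G: gHs, products with functions with bounded derivatives (helper6)
-/

open MeasureTheory Set Filter Topology
open scoped ENNReal ComplexConjugate

noncomputable section

namespace Pool.Agent.CR5

namespace GgHs

theorem pt {Ω : Set E5} {g u : E5 → ℂ} {M : ℝ} (hg : Sm g) (hu : Sm u) (hb : Bo 2 Ω g M) {i : ℕ}
    (hi : i ≤ 2) {x : E5} (hx : x ∈ Ω) :
    sq i (fun y => g y * u y) x ≤ 16 * M ^ 2 * ∑ l ∈ Finset.range 3, sq l u x := by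
  have h1 := sq_mul_le i hg hu x
  have h2 : ∑ j ∈ Finset.range (i + 1), sq j g x * sq (i - j) u x
      ≤ ∑ j ∈ Finset.range (i + 1), M ^ 2 * sq (i - j) u x := by
    refine Finset.sum_le_sum fun j hj => ?_
    have hj' := Finset.mem_range.1 hj
    exact mul_le_mul_of_nonneg_right (hb j (by omega) x hx) (sq_nonneg' _ _ _)
  have h3 : ∑ j ∈ Finset.range (i + 1), M ^ 2 * sq (i - j) u x
      = M ^ 2 * ∑ l ∈ Finset.range (i + 1), sq l u x := by
    rw [← Finset.mul_sum, ← Finset.sum_range_reflect (fun l => sq l u x)]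
    congr 1
  have h4 : ∑ l ∈ Finset.range (i + 1), sq l u x ≤ ∑ l ∈ Finset.range 3, sq l u x :=
    Finset.sum_le_sum_of_subset_of_nonneg
      (fun l hl => Finset.mem_range.2 (by have := Finset.mem_range.1 hl; omega))
      (fun l _ _ => sq_nonneg' _ _ _)
  have h5 : (4 : ℝ) ^ i ≤ 16 := by
    calc (4 : ℝ) ^ i ≤ 4 ^ 2 := pow_le_pow_right₀ (by norm_num) hi
      _ = 16 := by norm_num
  have h6 : 0 ≤ ∑ l ∈ Finset.range (i + 1), sq l u x :=
    Finset.sum_nonneg fun l _ => sq_nonneg' _ _ _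
  calc sq i (fun y => g y * u y) x
      ≤ 4 ^ i * ∑ j ∈ Finset.range (i + 1), sq j g x * sq (i - j) u x := h1
    _ ≤ 4 ^ i * (M ^ 2 * ∑ l ∈ Finset.range (i + 1), sq l u x) := by
        rw [← h3]; exact mul_le_mul_of_nonneg_left h2 (by positivity)
    _ ≤ 16 * (M ^ 2 * ∑ l ∈ Finset.range (i + 1), sq l u x) :=
        mul_le_mul_of_nonneg_right h5 (mul_nonneg (sq_nonneg M) h6)
    _ ≤ 16 * (M ^ 2 * ∑ l ∈ Finset.range 3, sq l u x) :=
        mul_le_mul_of_nonneg_left (mul_le_mul_of_nonneg_left h4 (sq_nonneg M)) (by norm_num)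
    _ = _ := by ring

theorem one {h : ℕ → ℝ} {m : ℕ} (hA : Adm h m) {Ω : Set E5} (hO : IsOpen Ω)
    (hs : Ω ⊆ Metric.ball 0 1) {g u : E5 → ℂ} {M : ℝ} (hg : Sm g) (hu : Sm u)
    (hz : ∀ x, x ∉ Ω → g =ᶠ[𝓝 x] fun _ => 0) (hb : Bo 2 Ω g M) {i : ℕ} (hi : i ≤ 2) :
    ∫ x, sq i (fun y => g y * u y) x ≤ 48 * M ^ 2 * NN h m Ω u ^ 2 := by
  have hbd := bdd_of_ball hs
  have e1 : ∫ x in Ω, sq i (fun y => g y * u y) x = ∫ x, sq i (fun y => g y * u y) x := by
    refine setIntegral_eq_integral_of_forall_compl_eq_zero fun x hx => ?_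
    have : (fun y => g y * u y) =ᶠ[𝓝 x] fun _ => 0 := by
      filter_upwards [hz x hx] with y hy
      rw [hy, zero_mul]
    rw [sq_congr i this, sq_zero_fun]
  rw [← e1]
  have hint : IntegrableOn (fun x => 16 * M ^ 2 * ∑ l ∈ Finset.range 3, sq l u x) Ω volume :=
    (integrable_finsetSum _ fun l _ => intOn_sq l hu hbd).const_mul _
  have h1 : ∫ x in Ω, sq i (fun y => g y * u y) x
      ≤ ∫ x in Ω, 16 * M ^ 2 * ∑ l ∈ Finset.range 3, sq l u x :=
    setIntegral_mono_on (intOn_sq i (hg.mul hu) hbd) hint hO.measurableSet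
      fun x hx => pt hg hu hb hi hx
  have h2 : ∫ x in Ω, 16 * M ^ 2 * ∑ l ∈ Finset.range 3, sq l u x
      = 16 * M ^ 2 * ∑ l ∈ Finset.range 3, ∫ x in Ω, sq l u x := by
    rw [integral_const_mul, integral_finsetSum _ fun l _ => intOn_sq l hu hbd]
  have hN := NN_nonneg hA.pos m Ω u
  have h3 : ∀ l ∈ Finset.range 3, ∫ x in Ω, sq l u x ≤ NN h m Ω u ^ 2 := by
    intro l hl
    have hl' := Finset.mem_range.1 hl
    have hbig := hA.big
    unfold MM at hbig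
    have h4 := NN_term hA.pos (m := m) (i := l) (by omega) Ω u
    rw [hA.one l (by unfold MM; omega), one_mul] at h4
    rw [← Real.sq_sqrt (setInt_sq_nonneg l u Ω)]
    exact pow_le_pow_left₀ (Real.sqrt_nonneg _) h4 2
  have h5 : ∑ l ∈ Finset.range 3, ∫ x in Ω, sq l u x ≤ 3 * NN h m Ω u ^ 2 := by
    refine (Finset.sum_le_sum h3).trans (le_of_eq ?_)
    rw [Finset.sum_const, Finset.card_range, nsmul_eq_mul]; norm_num
  calc ∫ x in Ω, sq i (fun y => g y * u y) x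
      ≤ 16 * M ^ 2 * ∑ l ∈ Finset.range 3, ∫ x in Ω, sq l u x := h1.trans (le_of_eq h2)
    _ ≤ 16 * M ^ 2 * (3 * NN h m Ω u ^ 2) := mul_le_mul_of_nonneg_left h5 (by positivity)
    _ = _ := by ring

end GgHs

open GgHs in
theorem pgHs : S_gHs := by
  intro h m hA Ω hO hs g f M hg hf hM hz hb
  have h0 : ∀ i ≤ 2, ∫ x, sq i (fun y => g y * f 0 y) x ≤ 48 * M ^ 2 * NN h m Ω (f 0) ^ 2 :=
    fun i hi => one hA hO hs hg (hf 0) hz hb hi
  have h1 : ∀ i ≤ 2, ∫ x, sq i (fun y => g y * f 1 y) x ≤ 48 * M ^ 2 * NN h m Ω (f 1) ^ 2 :=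
    fun i hi => one hA hO hs hg (hf 1) hz hb hi
  have n0 := NN_nonneg hA.pos m Ω (f 0)
  have n1 := NN_nonneg hA.pos m Ω (f 1)
  have h2 : Hs 2 (fun j x => g x * f j x)
      ≤ ∑ _i ∈ Finset.range 3, (48 * M ^ 2 * NN h m Ω (f 0) ^ 2
        + 48 * M ^ 2 * NN h m Ω (f 1) ^ 2) := by
    show ∑ i ∈ Finset.range (2 + 1), ((∫ x, sq i (fun y => g y * f 0 y) x)
      + ∫ x, sq i (fun y => g y * f 1 y) x) ≤ _
    refine Finset.sum_le_sum fun i hi => ?_
    have hi' := Finset.mem_range.1 hi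
    exact add_le_add (h0 i (by omega)) (h1 i (by omega))
  rw [Finset.sum_const, Finset.card_range, nsmul_eq_mul] at h2
  refine h2.trans ?_
  have e : NN2 h m Ω f = NN h m Ω (f 0) + NN h m Ω (f 1) := rfl
  rw [e]
  have h3 : 0 ≤ M ^ 2 * (NN h m Ω (f 0) * NN h m Ω (f 1)) := by positivity
  push_cast
  nlinarith [h3]

end Pool.Agent.CR5
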