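import Pool.Agent.Lib.CR5.SpecG

/-!
# CR5, block G: gIA, the bound for `D0* w` (helper6, after the docstring of helper55)
-/

open MeasureTheory Set Filter Topology
open scoped ENNReal ComplexConjugate

noncomputable section

namespace Pool.Agent.CR5

namespace GgIA

theorem fc_mono {ε1 ε2 : ℝ} {F : Mp} (h0 : 0 ≤ ε1) (h : ε1 ≤ ε2) (H : FC ε1 F) : FC ε2 F :=
  ⟨H.sm, H.out, fun k i hi x => (H.c5 k i hi x).trans (pow_le_pow_left₀ h0 h 2)⟩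

theorem hyp_mono {a : Str} {h : ℕ → ℝ} {m : ℕ} {ε1 ε2 lam R : ℝ} {F : Mp} (h0 : 0 ≤ ε1)
    (hle : ε1 ≤ ε2) (H : HypF a h m ε1 lam R F) : HypF a h m ε2 lam R F :=
  ⟨H.sm, H.out, fun k i hi x => (H.c5 k i hi x).trans (pow_le_pow_left₀ h0 hle 2), H.nn, H.er⟩

theorem Ls_zero (a : Str) (j : Fin 2) (x : E5) : Ls a j (fun _ => 0) x = 0 := by
  show -dz j.castSucc (fun _ => (0 : ℂ)) x - ∑ l, db l (fun y => conj (a j l y) * 0) x = 0
  simp only [mul_zero, dz_const, db_const]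
  simp

theorem D1s_zero (a : Str) (j : Fin 2) (x : E5) : D1s a (fun _ => 0) j x = 0 := by
  show (if j = 0 then -Ls a 1 (fun _ => 0) x else Ls a 0 (fun _ => 0) x) = 0
  rw [Ls_zero, Ls_zero]
  simp

theorem D0_zero (a : Str) (j : Fin 2) (x : E5) : D0 a (fun _ => 0) j x = 0 := L_const a 0 j x

theorem c16 {C lam s : ℝ} (p : ℕ) (hC : 1 ≤ C) (hl : 1 ≤ lam) (hs : 0 < s) :
    (C / (s / 16)) ^ p ≤ (16 * C * (lam / s)) ^ p := by
  refine pow_le_pow_left₀ (by positivity) ?_ p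
  have e4 : C / (s / 16) = 16 * C * (1 / s) := by field_simp
  rw [e4]
  have : 1 / s ≤ lam / s := by gcongr
  exact mul_le_mul_of_nonneg_left this (by positivity)

/-- Bound of the exponential factor of one component. -/
theorem comp {h : ℕ → ℝ} {m : ℕ} (hA : Adm h m) {C2 C3 : ℝ} {p2 p3 : ℕ} (hC2 : 1 ≤ C2)
    (hC3 : 1 ≤ C3) {lam R δ s μ D ρ : ℝ} (hp : Par lam R δ s μ D ρ) {F : Mp}
    (hF : ∀ k, Sm (F k))
    (hE : ∀ s' : ℝ, 0 < s' → s' ≤ 1 → ∀ G Ω' Ω : Set E5, IsOpen G → G ⊆ Ω' → IsOpen Ω' →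
      IsOpen Ω → Ω' ⊆ Ω → Inn Ω' Ω s' → Ω ⊆ Metric.ball 0 1 → ∀ (g f : E5 → ℂ) (Δ M : ℝ), Sm g →
      Sm f → 0 ≤ M → (∀ x ∈ G, ‖Complex.exp (Complex.I * (Δ : ℂ) * g x)‖ ≤ M) →
      NN h m G (fun x => Complex.exp (Complex.I * (Δ : ℂ) * g x) * f x)
        ≤ (C2 / s') ^ p2 * (1 + |Δ|) ^ m * (1 + NN h m Ω g) ^ m * M * NN h m Ω f)
    (hlow : ∀ x, ‖x‖ < 3 / 4 → -(1 / 32) ≤ (gam F x).im)
    (hI : Inn (Dm F (ρ - s / 2)) (Dm F (ρ - s / 4)) (s / 16))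
    (hgam : NN h m (Dm F (R - δ)) (gam F) ≤ (C3 * lam / δ) ^ p3)
    {Φ f : E5 → ℂ} (hf : Sm f) (hΦ : ∀ x ∈ Dm F (ρ - s / 2), Φ x = ex D F x * f x) :
    NN h m (Dm F (ρ - s / 2)) Φ ≤ (64 * C2 * C3 * (lam / s)) ^ (p2 + m + (p3 + 1) * m)
      * Real.exp (D * R) * NN h m (Dm F ρ) f := by
  have hl1 := hp.l1
  have hs0 := hp.s0
  have hsd := hp.s1
  have hd1 := hp.d1
  have hd0 := hp.d0
  have hr2 := hp.r2
  have hR2 := hp.R2
  have hR1 := hp.R1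
  have hb0 := hp.b0
  have hb1 := hp.b1
  have hX : 1 ≤ lam / s := by
    rw [le_div_iff₀ hs0]; linarith
  have hlX : lam ≤ lam / s := by
    rw [le_div_iff₀ hs0]; nlinarith
  have hg := gam_sm hF
  rw [NN_congr h m (Dm_open hF _) hΦ]
  have k1 := hE (s / 16) (by positivity) (by linarith) (Dm F (ρ - s / 2)) (Dm F (ρ - s / 2))
    (Dm F (ρ - s / 4)) (Dm_open hF _) (Subset.refl _) (Dm_open hF _) (Dm_open hF _)
    (Dm_mono F (by linarith)) hI (Dm_sub F _) (gam F) f D (Real.exp (D * R)) hg hf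
    (Real.exp_pos _).le (fun x hx => by
      have h1 := ex_norm D F x
      unfold ex at h1
      rw [h1]
      apply Real.exp_le_exp.2
      have h2 := hlow x hx.1
      nlinarith)
  have k2 : NN h m (Dm F (ρ - s / 4)) (gam F) ≤ (C3 * (lam / s)) ^ p3 := by
    have h1 : NN h m (Dm F (ρ - s / 4)) (gam F) ≤ NN h m (Dm F (R - δ)) (gam F) :=
      NN_mono hA.pos m (Dm_mono F (by linarith)) (Dm_bdd F _) hg
    refine h1.trans (hgam.trans ?_)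
    refine pow_le_pow_left₀ (by positivity) ?_ p3
    rw [mul_div_assoc]
    refine mul_le_mul_of_nonneg_left ?_ (by positivity)
    gcongr
  have k3 : NN h m (Dm F (ρ - s / 4)) f ≤ NN h m (Dm F ρ) f :=
    NN_mono hA.pos m (Dm_mono F (by linarith)) (Dm_bdd F _) hf
  have n0 := NN_nonneg hA.pos m (Dm F (ρ - s / 4)) (gam F)
  have n1 := NN_nonneg hA.pos m (Dm F (ρ - s / 4)) f
  have n2 := NN_nonneg hA.pos m (Dm F ρ) f
  have c1 : (C2 / (s / 16)) ^ p2 ≤ (16 * C2 * (lam / s)) ^ p2 := c16 p2 hC2 hl1 hs0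
  have c2 : (1 + |D|) ^ m ≤ (2 * (lam / s)) ^ m := by
    refine pow_le_pow_left₀ (by positivity) ?_ m
    rw [abs_of_pos hb0]; linarith
  have c3 : (1 + NN h m (Dm F (ρ - s / 4)) (gam F)) ^ m
      ≤ (2 * C3 * (lam / s)) ^ ((p3 + 1) * m) := by
    rw [pow_mul]
    refine pow_le_pow_left₀ (by positivity) ?_ m
    have q1 : 1 ≤ (C3 * (lam / s)) ^ p3 := pw_one hC3 hX p3
    have q2 : (C3 * (lam / s)) ^ p3 ≤ (2 * C3 * (lam / s)) ^ p3 := by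
      refine pow_le_pow_left₀ (by positivity) ?_ p3
      have : 0 ≤ C3 * (lam / s) := by positivity
      nlinarith
    have q3 : 2 ≤ 2 * C3 * (lam / s) := by
      have : 1 ≤ C3 * (lam / s) := by nlinarith
      nlinarith
    rw [pow_succ]
    have q4 : 0 ≤ (2 * C3 * (lam / s)) ^ p3 := by positivity
    nlinarith
  have c4 : (16 * C2 * (lam / s)) ^ p2 * (2 * (lam / s)) ^ m
      ≤ (16 * C2 * 2 * (lam / s)) ^ (p2 + m) := pw_mul (by linarith) (by norm_num) hX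
  have c5 : (16 * C2 * 2 * (lam / s)) ^ (p2 + m) * (2 * C3 * (lam / s)) ^ ((p3 + 1) * m)
      ≤ (16 * C2 * 2 * (2 * C3) * (lam / s)) ^ (p2 + m + (p3 + 1) * m) :=
    pw_mul (by linarith) (by linarith) hX
  have e1 : 16 * C2 * 2 * (2 * C3) = 64 * C2 * C3 := by ring
  rw [e1] at c5
  have hexp := Real.exp_pos (D * R)
  have c6 : (C2 / (s / 16)) ^ p2 * (1 + |D|) ^ m * (1 + NN h m (Dm F (ρ - s / 4)) (gam F)) ^ m
      ≤ (64 * C2 * C3 * (lam / s)) ^ (p2 + m + (p3 + 1) * m) := by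
    calc (C2 / (s / 16)) ^ p2 * (1 + |D|) ^ m * (1 + NN h m (Dm F (ρ - s / 4)) (gam F)) ^ m
        ≤ (16 * C2 * (lam / s)) ^ p2 * (2 * (lam / s)) ^ m
          * (2 * C3 * (lam / s)) ^ ((p3 + 1) * m) := by
          refine mul_le_mul (mul_le_mul c1 c2 (by positivity) (by positivity)) c3
            (by positivity) (by positivity)
      _ ≤ (16 * C2 * 2 * (lam / s)) ^ (p2 + m) * (2 * C3 * (lam / s)) ^ ((p3 + 1) * m) :=
          mul_le_mul_of_nonneg_right c4 (by positivity)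
      _ ≤ _ := c5
  refine k1.trans ?_
  refine mul_le_mul (mul_le_mul_of_nonneg_right c6 hexp.le) k3 n1 (by positivity)

end GgIA

open GgIA in
theorem pgIA : S_gIA := by
  intro hLOC hLGW hEXPO hGEO
  obtain ⟨ε, hε, hL⟩ := hLOC
  obtain ⟨ε2, hε2, hLG⟩ := hLGW
  obtain ⟨ε3, hε3, C0, _, hG⟩ := hGEO
  refine ⟨ε, hε, min ε2 ε3, lt_min hε2 hε3, fun m B => ?_⟩
  obtain ⟨C1, p1, hC1, hL1⟩ := hL m B
  obtain ⟨C2, p2, hC2, hE2⟩ := hEXPO m
  obtain ⟨C3, p3, hC3, hL3⟩ := hLG m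
  have h23 : 1 ≤ C2 * C3 := by nlinarith
  refine ⟨16 * C1 * (64 * C2 * C3), p1 + (p2 + m + (p3 + 1) * m), by nlinarith, ?_⟩
  intro a ha hBd h hA lam R δ s μ D ρ F hp hF E' Φ w e Y hE' hΦ hw he he1 hY hΦe hB hInt
  have hF2 : HypF a h m ε2 lam R F := hyp_mono (le_min hε2.le hε3.le) (min_le_left _ _) hF
  have hF3 : FC ε3 F := fc_mono (le_min hε2.le hε3.le) (min_le_right _ _) hF.fc
  obtain ⟨_, hlow, _, hInn, _, _⟩ := hG F hF3
  have hl1 := hp.l1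
  have hs0 := hp.s0
  have hsd := hp.s1
  have hd1 := hp.d1
  have hd0 := hp.d0
  have hr2 := hp.r2
  have hR2 := hp.R2
  have hb0 := hp.b0
  have hX : 1 ≤ lam / s := by
    rw [le_div_iff₀ hs0]; linarith
  have hI1 := hInn (ρ - s / 2) (ρ - 3 / 4 * s) (by linarith) (by linarith)
  have e16 : (ρ - s / 2 - (ρ - 3 / 4 * s)) / 4 = s / 16 := by ring
  rw [e16] at hI1
  have hI2 := hInn (ρ - s / 4) (ρ - s / 2) (by linarith) (by linarith)
  have e17 : (ρ - s / 4 - (ρ - s / 2)) / 4 = s / 16 := by ring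
  rw [e17] at hI2
  have hW : Wt h := ⟨hA.one 0 (by unfold MM; omega), hA.pos, hA.anti⟩
  have key := hL1 a ha hBd h hW (s / 16) (by positivity) (by linarith) (Dm F (ρ - 3 / 4 * s))
    (Dm F (ρ - s / 2)) (Dm_open hF.sm _) (Dm_open hF.sm _) (Dm_mono F (by linarith)) hI1
    (Dm_sub F _) e he.le he1 w Φ (fun _ => 0) (fun _ => 0) hw hΦ (Sm.const 0) (Sm.const 0)
    (fun j x hx => by rw [hB j x hx, D1s_zero, D0_zero]; ring)
  rw [NN_zero] at key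
  have hsm : ∀ j, Sm (Ps μ F E' j) := fun j => (ex_sm hF.sm μ).mul (hE' j)
  have hgam := (hL3 a h lam R δ F ha.smS hA hl1 hp.R1 hR2 hd0 hd1 hF2).1
  have hcomp : ∀ j, NN h m (Dm F (ρ - s / 2)) (Φ j)
      ≤ (64 * C2 * C3 * (lam / s)) ^ (p2 + m + (p3 + 1) * m)
      * Real.exp (D * R) * NN h m (Dm F ρ) (Ps μ F E' j) := fun j =>
    comp hA hC2 hC3 hp hF.sm (hE2 h hA) hlow hI2 hgam (hsm j) (fun x hx => by
      rw [hΦe j x hx, ex_add]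
      show ex D F x * ex μ F x * E' j x = ex D F x * (ex μ F x * E' j x)
      ring)
  have n1 := NN_nonneg hA.pos m (Dm F (ρ - 3 / 4 * s)) (w 0)
  have n2 := NN_nonneg hA.pos m (Dm F (ρ - 3 / 4 * s)) (w 1)
  have n3 := NN_nonneg hA.pos m (Dm F (ρ - 3 / 4 * s)) (D1 a w)
  have hsq : Real.sqrt (∫ x in Dm F (ρ - s / 2), (‖w 0 x‖ ^ 2 + ‖w 1 x‖ ^ 2)) ≤ Y := by
    rw [← Real.sqrt_sq hY]; exact Real.sqrt_le_sqrt hInt
  set K := (64 * C2 * C3 * (lam / s)) ^ (p2 + m + (p3 + 1) * m) with hK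
  have hK1 : 1 ≤ K := pw_one (by nlinarith) hX _
  set E := Real.exp (D * R) with hE
  have hE0 : 0 < E := Real.exp_pos _
  have hc0 := hcomp 0
  have hc1 := hcomp 1
  have m0 := NN_nonneg hA.pos m (Dm F ρ) (Ps μ F E' 0)
  have m1 := NN_nonneg hA.pos m (Dm F ρ) (Ps μ F E' 1)
  have e2 : NN2 h m (Dm F ρ) (Ps μ F E') = NN h m (Dm F ρ) (Ps μ F E' 0)
      + NN h m (Dm F ρ) (Ps μ F E' 1) := rfl
  have e3 : NN2 h m (Dm F (ρ - s / 2)) Φ = NN h m (Dm F (ρ - s / 2)) (Φ 0)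
      + NN h m (Dm F (ρ - s / 2)) (Φ 1) := rfl
  have e4 : NN2 h m (Dm F (ρ - 3 / 4 * s)) w = NN h m (Dm F (ρ - 3 / 4 * s)) (w 0)
      + NN h m (Dm F (ρ - 3 / 4 * s)) (w 1) := rfl
  have b1 : NN2 h m (Dm F (ρ - s / 2)) Φ + 0 + 0
      + Real.sqrt (∫ x in Dm F (ρ - s / 2), (‖w 0 x‖ ^ 2 + ‖w 1 x‖ ^ 2))
      ≤ K * (E * NN2 h m (Dm F ρ) (Ps μ F E') + Y) := by
    rw [e2, e3]
    have : Y ≤ K * Y := by nlinarith
    nlinarith
  have b2 : NN h m (Dm F (ρ - 3 / 4 * s)) (D0s a w)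
      ≤ (C1 / (s / 16)) ^ p1 * (K * (E * NN2 h m (Dm F ρ) (Ps μ F E') + Y)) := by
    have h1 : NN h m (Dm F (ρ - 3 / 4 * s)) (D0s a w)
        ≤ NN2 h m (Dm F (ρ - 3 / 4 * s)) w + NN h m (Dm F (ρ - 3 / 4 * s)) (D0s a w)
          + NN h m (Dm F (ρ - 3 / 4 * s)) (D1 a w) := by rw [e4]; linarith
    exact h1.trans (key.trans (mul_le_mul_of_nonneg_left b1 (by positivity)))
  have c1 : (C1 / (s / 16)) ^ p1 ≤ (16 * C1 * (lam / s)) ^ p1 := c16 p1 hC1 hl1 hs0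
  have c2 : (16 * C1 * (lam / s)) ^ p1 * K
      ≤ (16 * C1 * (64 * C2 * C3) * (lam / s)) ^ (p1 + (p2 + m + (p3 + 1) * m)) := by
    rw [hK]
    exact pw_mul (by linarith) (by nlinarith) hX
  have hZ : 0 ≤ E * NN2 h m (Dm F ρ) (Ps μ F E') + Y := by
    rw [e2]; positivity
  rw [mul_div_assoc]
  calc NN h m (Dm F (ρ - 3 / 4 * s)) (D0s a w)
      ≤ (C1 / (s / 16)) ^ p1 * (K * (E * NN2 h m (Dm F ρ) (Ps μ F E') + Y)) := b2
    _ ≤ (16 * C1 * (lam / s)) ^ p1 * (K * (E * NN2 h m (Dm F ρ) (Ps μ F E') + Y)) :=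
        mul_le_mul_of_nonneg_right c1 (by positivity)
    _ = ((16 * C1 * (lam / s)) ^ p1 * K) * (E * NN2 h m (Dm F ρ) (Ps μ F E') + Y) := by ring
    _ ≤ _ := mul_le_mul_of_nonneg_right c2 hZ

end Pool.Agent.CR5
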