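import Pool.Agent.Lib.CR5.SpecG

/-!
# CR5, block G: gIG, the product `(L γ) A` (helper6, after the docstring of helper55)
-/

open MeasureTheory Set Filter Topology
open scoped ENNReal ComplexConjugate

noncomputable section

namespace Pool.Agent.CR5

namespace GgIG

theorem fc_mono {ε1 ε2 : ℝ} {F : Mp} (h0 : 0 ≤ ε1) (h : ε1 ≤ ε2) (H : FC ε1 F) : FC ε2 F :=
  ⟨H.sm, H.out, fun k i hi x => (H.c5 k i hi x).trans (pow_le_pow_left₀ h0 h 2)⟩

theorem hyp_mono {a : Str} {h : ℕ → ℝ} {m : ℕ} {ε1 ε2 lam R : ℝ} {F : Mp} (h0 : 0 ≤ ε1)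
    (hle : ε1 ≤ ε2) (H : HypF a h m ε1 lam R F) : HypF a h m ε2 lam R F :=
  ⟨H.sm, H.out, fun k i hi x => (H.c5 k i hi x).trans (pow_le_pow_left₀ h0 hle 2), H.nn, H.er⟩

theorem ex_zero (F : Mp) (x : E5) : ex 0 F x = 1 := by
  unfold ex; simp

end GgIG

open GgIG in
theorem pgIG : S_gIG := by
  intro hLGW hPR hGEO
  obtain ⟨ε2, hε2, hL⟩ := hLGW
  obtain ⟨ε3, hε3, C3, _, hG⟩ := hGEO
  refine ⟨min ε2 ε3, lt_min hε2 hε3, fun m => ?_⟩
  obtain ⟨C1, p1, hC1, hP⟩ := hPR m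
  obtain ⟨C2, p2, hC2, hL2⟩ := hL m
  refine ⟨16 * C1 * C2, p1 + p2, by nlinarith, ?_⟩
  intro a h ha hA lam R δ s μ D ρ F hp hF A hAs j
  have hF2 : HypF a h m ε2 lam R F := hyp_mono (le_min hε2.le hε3.le) (min_le_left _ _) hF
  have hF3 : FC ε3 F := fc_mono (le_min hε2.le hε3.le) (min_le_right _ _) hF.fc
  obtain ⟨_, _, _, hInn, _, _⟩ := hG F hF3
  have hl1 := hp.l1
  have hs0 := hp.s0
  have hsd := hp.s1
  have hd1 := hp.d1
  have hd0 := hp.d0
  have hr2 := hp.r2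
  have hR2 := hp.R2
  have hX : 1 ≤ lam / s := by
    rw [le_div_iff₀ hs0]; linarith
  have hI := hInn (ρ - 3 / 4 * s) (ρ - s) (by linarith) (by linarith)
  have e16 : (ρ - 3 / 4 * s - (ρ - s)) / 4 = s / 16 := by ring
  rw [e16] at hI
  have hLs : Sm (L a j (gam F)) := Sm.L ha j (gam_sm hF.sm)
  have k1 := hP h hA (s / 16) (by positivity) (by linarith) (Dm F (ρ - s)) (Dm F (ρ - 3 / 4 * s))
    (Dm_open hF.sm _) (Dm_open hF.sm _) (Dm_mono F (by linarith)) hI (Dm_sub F _)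
    (L a j (gam F)) A hLs hAs
  have k2 := (hL2 a h lam R δ F ha hA hl1 hp.R1 hR2 hd0 hd1 hF2).2 0 le_rfl (by linarith) j
  have e2 : (fun x => ex 0 F x * L a j (gam F) x) = L a j (gam F) := by
    funext x; rw [ex_zero, one_mul]
  rw [e2] at k2
  have e3 : -(0 * (R - δ)) - lam * δ = -(lam * δ) := by ring
  rw [e3] at k2
  have k3 : NN h m (Dm F (ρ - 3 / 4 * s)) (L a j (gam F))
      ≤ NN h m (Dm F (R - 2 * δ)) (L a j (gam F)) :=
    NN_mono hA.pos m (Dm_mono F (by linarith)) (Dm_bdd F _) hLs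
  have c1 : (C1 / (s / 16)) ^ p1 ≤ (16 * C1 * (lam / s)) ^ p1 := by
    refine pow_le_pow_left₀ (by positivity) ?_ p1
    have e4 : C1 / (s / 16) = 16 * C1 * (1 / s) := by field_simp
    rw [e4]
    have : 1 / s ≤ lam / s := by gcongr
    exact mul_le_mul_of_nonneg_left this (by positivity)
  have c2 : (C2 * lam / δ) ^ p2 ≤ (C2 * (lam / s)) ^ p2 := by
    refine pow_le_pow_left₀ (by positivity) ?_ p2
    rw [mul_div_assoc]
    refine mul_le_mul_of_nonneg_left ?_ (by positivity)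
    gcongr
  have c3 : (16 * C1 * (lam / s)) ^ p1 * (C2 * (lam / s)) ^ p2
      ≤ (16 * C1 * C2 * (lam / s)) ^ (p1 + p2) := pw_mul (by linarith) hC2 hX
  have nA := NN_nonneg hA.pos m (Dm F (ρ - 3 / 4 * s)) A
  have nL := NN_nonneg hA.pos m (Dm F (ρ - 3 / 4 * s)) (L a j (gam F))
  have hE := Real.exp_pos (-(lam * δ))
  calc NN h m (Dm F (ρ - s)) (fun x => L a j (gam F) x * A x)
      ≤ (C1 / (s / 16)) ^ p1 * NN h m (Dm F (ρ - 3 / 4 * s)) (L a j (gam F))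
        * NN h m (Dm F (ρ - 3 / 4 * s)) A := k1
    _ ≤ (16 * C1 * (lam / s)) ^ p1 * ((C2 * (lam / s)) ^ p2 * Real.exp (-(lam * δ)))
        * NN h m (Dm F (ρ - 3 / 4 * s)) A := by
        refine mul_le_mul_of_nonneg_right ?_ nA
        refine mul_le_mul c1 ?_ nL (by positivity)
        exact k3.trans (k2.trans (mul_le_mul_of_nonneg_right c2 hE.le))
    _ = ((16 * C1 * (lam / s)) ^ p1 * (C2 * (lam / s)) ^ p2) * Real.exp (-(lam * δ))
        * NN h m (Dm F (ρ - 3 / 4 * s)) A := by ring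
    _ ≤ (16 * C1 * C2 * (lam / s)) ^ (p1 + p2) * Real.exp (-(lam * δ))
        * NN h m (Dm F (ρ - 3 / 4 * s)) A := by
        refine mul_le_mul_of_nonneg_right ?_ nA
        exact mul_le_mul_of_nonneg_right c3 hE.le
    _ = _ := by rw [mul_div_assoc]

end Pool.Agent.CR5
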