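import Pool.Agent.Lib.CR5.SpecG

/-!
# CR5, block G: interior estimate for `D1* D1 w` (helper9)
-/

open MeasureTheory Set Filter Topology
open scoped ENNReal ComplexConjugate

noncomputable section

namespace Pool.Agent.CR5

namespace GgIY

theorem hypMono {a : Str} {h : ℕ → ℝ} {m : ℕ} {ε1 ε1' lam R : ℝ} {F : Mp} (h0 : 0 ≤ ε1)
    (hle : ε1 ≤ ε1') (H : HypF a h m ε1 lam R F) : HypF a h m ε1' lam R F :=
  ⟨H.sm, H.out, fun k i hi x => (H.c5 k i hi x).trans (by gcongr), H.nn, H.er⟩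

theorem fcMono {ε1 ε1' : ℝ} {F : Mp} (h0 : 0 ≤ ε1) (hle : ε1 ≤ ε1') (H : FC ε1 F) : FC ε1' F :=
  ⟨H.sm, H.out, fun k i hi x => (H.c5 k i hi x).trans (by gcongr)⟩

theorem D1_congr {a : Str} {Φ Ψ : F2} {x : E5} (h : ∀ j, Φ j =ᶠ[𝓝 x] Ψ j) :
    D1 a Φ x = D1 a Ψ x := by
  show L a 0 (Φ 1) x - L a 1 (Φ 0) x = L a 0 (Ψ 1) x - L a 1 (Ψ 0) x
  rw [L_congr 0 (h 1), L_congr 1 (h 0)]

theorem wt_of_adm {h : ℕ → ℝ} {m : ℕ} (ha : Adm h m) : Wt h :=
  ⟨ha.one 0 (Nat.zero_le _), ha.pos, ha.anti⟩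

end GgIY

open GgIY in
theorem pgIY : S_gIY := by
  intro hLOC hLGW hPR hGEO hD1 hKs hYeq
  obtain ⟨ε, hε, hLOC⟩ := hLOC
  obtain ⟨ea, hea, hLGW⟩ := hLGW
  obtain ⟨eb, heb, Cg, hCg, hGEO⟩ := hGEO
  set ε1 : ℝ := min ea eb with hε1
  have hε0 : 0 < ε1 := lt_min hea heb
  refine ⟨ε, hε, ε1, hε0, fun m B => ?_⟩
  obtain ⟨C1, p1, hC1, hLOC⟩ := hLOC m B
  obtain ⟨C2, p2, hC2, hPR⟩ := hPR m
  obtain ⟨C3, p3, hC3, hLGW⟩ := hLGW m
  have hC10 : 0 < C1 := lt_of_lt_of_le one_pos hC1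
  have hC20 : 0 < C2 := lt_of_lt_of_le one_pos hC2
  have hC30 : 0 < C3 := lt_of_lt_of_le one_pos hC3
  have a1 : 1 ≤ 16 * C1 := by linarith
  have a2 : 1 ≤ 16 * C2 := by linarith
  have a12 : 1 ≤ 16 * C1 * (16 * C2) := one_le_mul_of_one_le_of_one_le a1 a2
  have a123 : 1 ≤ 16 * C1 * (16 * C2) * C3 := one_le_mul_of_one_le_of_one_le a12 hC3
  refine ⟨16 * C1 * (16 * C2) * C3 * 3, p1 + p2 + p3 + 1, by linarith, ?_⟩
  intro a hN hB hkap h hAdm lam R δ s μ D ρ F hP hH E' Φ w e Y V hE hΦ hw he0 he1 hY hV hE0 hΦe hBox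
    hint hNV
  have haS := hN.smS
  have hl := hP.l1
  have hs0 := hP.s0
  have hδ0 := hP.d0
  have hs1 : s ≤ 1 := hP.s1.trans (hP.d1.trans (by norm_num))
  have hX : 1 ≤ lam / s := by rw [le_div_iff₀ hs0]; linarith
  have hX0 : 0 < lam / s := lt_of_lt_of_le one_pos hX
  have hFs := hH.sm
  obtain ⟨-, -, -, geo4, -, -⟩ := hGEO F (fcMono hε0.le (min_le_right _ _) hH.fc)
  obtain ⟨-, hLGW⟩ := hLGW a h lam R δ F haS hAdm hl hP.R1 hP.R2 hδ0 hP.d1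
    (hypMono hε0.le (min_le_left _ _) hH)
  have hρ16 : ρ ≤ 1 / 16 := by have := hP.r2; have := hP.R2; linarith
  set Ω0 := Dm F (ρ - s) with hΩ0
  set Ω1 := Dm F (ρ - 3 / 4 * s) with hΩ1
  set Ω2 := Dm F (ρ - s / 2) with hΩ2
  have o0 : IsOpen Ω0 := Dm_open hFs _
  have o1 : IsOpen Ω1 := Dm_open hFs _
  have o2 : IsOpen Ω2 := Dm_open hFs _
  have s01 : Ω0 ⊆ Ω1 := Dm_mono F (by linarith)
  have s12 : Ω1 ⊆ Ω2 := Dm_mono F (by linarith)
  have i01 : Inn Ω0 Ω1 (s / 16) := by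
    have := geo4 (ρ - 3 / 4 * s) (ρ - s) (by linarith) (by linarith)
    convert this using 1
    ring
  have i12 : Inn Ω1 Ω2 (s / 16) := by
    have := geo4 (ρ - s / 2) (ρ - 3 / 4 * s) (by linarith) (by linarith)
    convert this using 1
    ring
  have b1 : Ω1 ⊆ Metric.ball 0 1 := Dm_sub F _
  have b2 : Ω2 ⊆ Metric.ball 0 1 := Dm_sub F _
  have bd1 := bdd_of_ball b1
  have bd2 := bdd_of_ball b2
  set y : F2 := D1s a (D1 a w) with hy
  set g : F2 := fun j x => w j x - pd 4 (pd 4 (w j)) x with hg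
  set β : E5 → ℂ := fun z => D1 a Φ z - (e : ℂ) * D1 a g z with hβ
  have sg : ∀ j, Sm (g j) := fun j => (hw j).sub (((hw j).pd 4).pd 4)
  have sD1w : Sm (D1 a w) := Sm.D1 haS hw
  have sy : ∀ j, Sm (y j) := fun j => Sm.D1s haS sD1w j
  have sD1Φ : Sm (D1 a Φ) := Sm.D1 haS hΦ
  have sD1g : Sm (D1 a g) := Sm.D1 haS sg
  have sβ : Sm β := sD1Φ.sub ((Sm.const _).mul sD1g)
  have hyeq := hYeq hKs a Ω2 haS o2 (fun l x hx => hkap l x hx.1) w Φ e hw hΦ hBox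
  have hloc := hLOC a hN hB h (wt_of_adm hAdm) (s / 16) (by positivity) (by linarith) Ω0 Ω1 o0 o1 s01
    i01 b1 0 le_rfl zero_le_one y (fun _ _ => 0) β (fun _ => 0) sy (fun _ => Sm.const 0) sβ
    (Sm.const 0) (fun j x hx => hyeq j x (s12 hx))
  have hNNz : NN2 h m Ω1 (fun _ _ => 0) = 0 := by
    show NN h m Ω1 (fun _ => 0) + NN h m Ω1 (fun _ => 0) = 0
    rw [NN_zero, add_zero]
  rw [hNNz, NN_zero, zero_add, add_zero] at hloc
  have n1 := NN_nonneg hAdm.pos m Ω0 (D0s a y)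
  have n2 := NN_nonneg hAdm.pos m Ω0 (D1 a y)
  -- the integral of `y`
  have hYle : Real.sqrt (∫ x in Ω1, (‖y 0 x‖ ^ 2 + ‖y 1 x‖ ^ 2)) ≤ Y := by
    rw [Real.sqrt_le_left hY]
    refine le_trans ?_ hint
    have cy : Continuous fun x => ‖y 0 x‖ ^ 2 + ‖y 1 x‖ ^ 2 :=
      ((sy 0).cont.norm.pow 2).add ((sy 1).cont.norm.pow 2)
    exact setIntegral_mono_set (intOn_cont cy bd2)
      (Eventually.of_forall fun x => by positivity) (LE.le.eventuallyLE s12)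
  -- the function `D1 Φ`
  set W := NN2 h m (Dm F ρ) (Ps μ F E') with hW
  set EE := Real.exp (-(D * (R - δ)) - lam * δ) with hEE
  have sE : ∀ μ, Sm (ex μ F) := fun μ => ex_sm hFs μ
  have sPs : ∀ j, Sm (Ps μ F E' j) := fun j => (sE μ).mul (hE j)
  have sγ : Sm (gam F) := gam_sm hFs
  set q : F2 := fun j x => ex D F x * L a j (gam F) x with hq
  have sq' : ∀ j, Sm (q j) := fun j => (sE D).mul (sγ.L haS j)
  have hΦid : ∀ x ∈ Ω1, D1 a Φ x = (Complex.I * ((μ + D : ℝ) : ℂ))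
      * (q 0 x * Ps μ F E' 1 x - q 1 x * Ps μ F E' 0 x) := by
    intro x hx
    have hx2 := s12 hx
    have e1 : D1 a Φ x = D1 a (fun j y => (fun _ => (1 : ℂ)) y * (ex (μ + D) F y * E' j y)) x := by
      refine D1_congr fun j => ?_
      filter_upwards [o2.mem_nhds hx2] with z hz
      show Φ j z = 1 * (ex (μ + D) F z * E' j z)
      rw [hΦe j z hz, one_mul]
    have hxρ : x ∈ Dm F ρ := Dm_mono F (by linarith) hx2
    rw [e1, hD1 a F (fun _ => 1) E' μ D x haS hFs (Sm.const 1) hE (hE0 x hxρ)]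
    simp only [L_const, hq]
    ring
  have hprod : ∀ j k, NN h m Ω1 (fun x => q j x * Ps μ F E' k x)
      ≤ (16 * C2 * (lam / s)) ^ p2 * ((C3 * (lam / s)) ^ p3 * EE) * NN h m (Dm F ρ) (Ps μ F E' k) := by
    intro j k
    refine (hPR h hAdm (s / 16) (by positivity) (by linarith) Ω1 Ω2 o1 o2 s12 i12 b2 (q j)
      (Ps μ F E' k) (sq' j) (sPs k)).trans ?_
    have c1 : (C2 / (s / 16)) ^ p2 ≤ (16 * C2 * (lam / s)) ^ p2 := by
      have : C2 / (s / 16) ≤ 16 * C2 * (lam / s) := by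
        have e1 : C2 / (s / 16) = 16 * C2 * (1 / s) := by field_simp
        rw [e1]
        gcongr
      gcongr
    have c2 : NN h m Ω2 (q j) ≤ (C3 * (lam / s)) ^ p3 * EE := by
      have h1 : NN h m Ω2 (q j) ≤ NN h m (Dm F (R - 2 * δ)) (q j) :=
        NN_mono hAdm.pos m (Dm_mono F (by have := hP.r2; linarith)) (Dm_bdd F _) (sq' j)
      refine h1.trans ((hLGW D hP.b0.le hP.b1 j).trans ?_)
      have h2 : C3 * lam / δ ≤ C3 * (lam / s) := by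
        rw [mul_div_assoc]
        have : lam / δ ≤ lam / s := by
          have := hP.s1
          gcongr
        gcongr
      gcongr
    have c3 : NN h m Ω2 (Ps μ F E' k) ≤ NN h m (Dm F ρ) (Ps μ F E' k) :=
      NN_mono hAdm.pos m (Dm_mono F (by linarith)) (Dm_bdd F _) (sPs k)
    have d1 := NN_nonneg hAdm.pos m Ω2 (q j)
    have d2 := NN_nonneg hAdm.pos m Ω2 (Ps μ F E' k)
    gcongr
  have hμD : 0 ≤ μ + D := by have := hP.m1; have := hP.b0; linarith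
  have hμD3 : μ + D ≤ 3 * (lam / s) := by
    have h1 : lam ≤ lam / s := by
      rw [le_div_iff₀ hs0]
      nlinarith
    have := hP.m2
    have := hP.b1
    linarith
  have hD1Φ : NN h m Ω1 (D1 a Φ) ≤ 3 * (lam / s) * ((16 * C2 * (lam / s)) ^ p2
      * ((C3 * (lam / s)) ^ p3 * EE) * W) := by
    rw [NN_congr h m o1 hΦid]
    have sp : ∀ j k, Sm fun x => q j x * Ps μ F E' k x := fun j k => (sq' j).mul (sPs k)
    rw [NN_const_mul h m Ω1 ((sp 0 1).sub (sp 1 0))]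
    have e1 : ‖Complex.I * ((μ + D : ℝ) : ℂ)‖ = μ + D := by
      rw [norm_mul, Complex.norm_I, one_mul, Complex.norm_real, Real.norm_of_nonneg hμD]
    rw [e1]
    have e2 := NN_sub_le hAdm.pos m bd1 (sp 0 1) (sp 1 0)
    have e3 := hprod 0 1
    have e4 := hprod 1 0
    have e5 : NN h m Ω1 (fun x => q 0 x * Ps μ F E' 1 x - q 1 x * Ps μ F E' 0 x)
        ≤ (16 * C2 * (lam / s)) ^ p2 * ((C3 * (lam / s)) ^ p3 * EE) * W := by
      rw [hW]
      unfold NN2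
      rw [mul_add]
      linarith
    have e6 := NN_nonneg hAdm.pos m Ω1 (fun x => q 0 x * Ps μ F E' 1 x - q 1 x * Ps μ F E' 0 x)
    exact mul_le_mul hμD3 e5 e6 (by positivity)
  have hβle : NN h m Ω1 β ≤ 3 * (lam / s) * ((16 * C2 * (lam / s)) ^ p2
      * ((C3 * (lam / s)) ^ p3 * EE) * W) + e * V := by
    have e1 := NN_sub_le hAdm.pos m bd1 sD1Φ ((Sm.const (e : ℂ)).mul sD1g)
    have e2 := NN_const_mul h m Ω1 sD1g (e : ℂ)
    rw [Complex.norm_real, Real.norm_of_nonneg he0.le] at e2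
    have e3 : e * NN h m Ω1 (D1 a g) ≤ e * V := mul_le_mul_of_nonneg_left hNV he0.le
    have e4 : NN h m Ω1 β = NN h m Ω1 (fun x => D1 a Φ x - (e : ℂ) * D1 a g x) := rfl
    rw [e4]
    linarith
  have hC1s : (C1 / (s / 16)) ^ p1 ≤ (16 * C1 * (lam / s)) ^ p1 := by
    have : C1 / (s / 16) ≤ 16 * C1 * (lam / s) := by
      have e1 : C1 / (s / 16) = 16 * C1 * (1 / s) := by field_simp
      rw [e1]
      gcongr
    gcongr
  have hW0 : 0 ≤ W := add_nonneg (NN_nonneg hAdm.pos _ _ _) (NN_nonneg hAdm.pos _ _ _)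
  have hEE0 : 0 < EE := Real.exp_pos _
  have heV : 0 ≤ e * V := mul_nonneg he0.le hV
  -- the constants
  set P1 := (16 * C1 * (lam / s)) ^ p1 with hP1
  set P2 := (16 * C2 * (lam / s)) ^ p2 with hP2
  set P3 := (C3 * (lam / s)) ^ p3 with hP3
  have q1 : 1 ≤ P1 := pw_one a1 hX p1
  have q2 : 1 ≤ P2 := pw_one a2 hX p2
  have q3 : 1 ≤ P3 := pw_one hC3 hX p3
  have q23 : 1 ≤ 3 * (lam / s) * (P2 * P3) := by
    have h1 : 1 ≤ P2 * P3 := one_le_mul_of_one_le_of_one_le q2 q3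
    exact one_le_mul_of_one_le_of_one_le (by linarith) h1
  have hconst : P1 * (3 * (lam / s) * (P2 * P3))
      ≤ (16 * C1 * (16 * C2) * C3 * 3 * lam / s) ^ (p1 + p2 + p3 + 1) := by
    rw [mul_div_assoc]
    have r1 : P1 * P2 ≤ (16 * C1 * (16 * C2) * (lam / s)) ^ (p1 + p2) := pw_mul a1 a2 hX
    have r2 : (16 * C1 * (16 * C2) * (lam / s)) ^ (p1 + p2) * P3
        ≤ (16 * C1 * (16 * C2) * C3 * (lam / s)) ^ (p1 + p2 + p3) := pw_mul a12 hC3 hX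
    have r3 : (16 * C1 * (16 * C2) * C3 * (lam / s)) ^ (p1 + p2 + p3) * (3 * (lam / s)) ^ 1
        ≤ (16 * C1 * (16 * C2) * C3 * 3 * (lam / s)) ^ (p1 + p2 + p3 + 1) :=
      pw_mul a123 (by norm_num) hX
    rw [pow_one] at r3
    have hP30 : 0 ≤ P3 := by linarith
    have h3X : 0 ≤ 3 * (lam / s) := by linarith
    calc P1 * (3 * (lam / s) * (P2 * P3)) = (P1 * P2) * P3 * (3 * (lam / s)) := by ring
      _ ≤ (16 * C1 * (16 * C2) * (lam / s)) ^ (p1 + p2) * P3 * (3 * (lam / s)) := by gcongr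
      _ ≤ (16 * C1 * (16 * C2) * C3 * (lam / s)) ^ (p1 + p2 + p3) * (3 * (lam / s)) := by gcongr
      _ ≤ _ := r3
  have hT0 : 0 ≤ EE * W + e * V + Y := by positivity
  have hsum : NN h m Ω1 β + Real.sqrt (∫ x in Ω1, (‖y 0 x‖ ^ 2 + ‖y 1 x‖ ^ 2))
      ≤ 3 * (lam / s) * (P2 * P3) * (EE * W + e * V + Y) := by
    have h1 : 3 * (lam / s) * (P2 * (P3 * EE) * W) = 3 * (lam / s) * (P2 * P3) * (EE * W) := by ring
    have h2 : e * V + Y ≤ 3 * (lam / s) * (P2 * P3) * (e * V + Y) := by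
      have h3 : 0 ≤ e * V + Y := add_nonneg heV hY
      nlinarith
    have h4 : 3 * (lam / s) * (P2 * P3) * (EE * W + e * V + Y)
        = 3 * (lam / s) * (P2 * P3) * (EE * W) + 3 * (lam / s) * (P2 * P3) * (e * V + Y) := by ring
    rw [h4, ← h1]
    linarith
  have hsum0 : 0 ≤ NN h m Ω1 β + Real.sqrt (∫ x in Ω1, (‖y 0 x‖ ^ 2 + ‖y 1 x‖ ^ 2)) :=
    add_nonneg (NN_nonneg hAdm.pos _ _ _) (Real.sqrt_nonneg _)
  calc NN2 h m Ω0 y
      ≤ (C1 / (s / 16)) ^ p1 * (NN h m Ω1 β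
        + Real.sqrt (∫ x in Ω1, (‖y 0 x‖ ^ 2 + ‖y 1 x‖ ^ 2))) := by linarith
    _ ≤ P1 * (3 * (lam / s) * (P2 * P3) * (EE * W + e * V + Y)) :=
        mul_le_mul hC1s hsum hsum0 (by linarith)
    _ = P1 * (3 * (lam / s) * (P2 * P3)) * (EE * W + e * V + Y) := by ring
    _ ≤ _ := mul_le_mul_of_nonneg_right hconst hT0

end Pool.Agent.CR5
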