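import Pool.Agent.Lib.CR5.SpecG

/-!
# CR5, block G: elementary inequalities (`S_gNum`)
-/

open MeasureTheory Set Filter Topology
open scoped ENNReal ComplexConjugate

noncomputable section

namespace Pool.Agent.CR5

theorem pgNum : S_gNum := by
  intro lam R δ s μ D ρ h
  obtain ⟨l1, R1, R2, d0, d1, s0, s1, m1, m2, b0, b1, bR, r1, r2⟩ := h
  have hl : 0 < lam := by linarith
  have hld : 0 < lam * δ := mul_pos hl d0
  have hDd : 0 < D * δ := mul_pos b0 d0
  have hR : 0 < R := by linarith
  have hDR : 0 < D * R := mul_pos b0 hR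
  have hs1 : s ≤ 1 := by linarith
  have hls : lam ≤ lam / s := by
    rw [le_div_iff₀ s0]
    nlinarith
  refine ⟨?_, ?_, ?_, by linarith, ?_, by linarith, ?_⟩
  · rw [← Real.exp_add]
    refine Real.exp_le_exp.2 ?_
    have : D * (R - 5 * δ) = D * R - 5 * (D * δ) := by ring
    rw [this]
    linarith
  · refine Real.exp_le_exp.2 ?_
    have e1 : D * (R - 5 * δ) = D * R - 5 * (D * δ) := by ring
    have e2 : D * (R - δ) = D * R - D * δ := by ring
    rw [e1, e2]
    linarith
  · refine Real.exp_le_one_iff.2 ?_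
    linarith
  · exact div_le_div_of_nonneg_left hl.le s0 s1
  · exact Real.one_le_exp hDR.le

end Pool.Agent.CR5
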