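import Pool.Agent.Lib.CR5.SpecG

/-!
# CR5, block G: the form `Φ` (helper9)
-/

open MeasureTheory Set Filter Topology
open scoped ENNReal ComplexConjugate

noncomputable section

namespace Pool.Agent.CR5

namespace GgPhi

theorem hypMono {a : Str} {h : ℕ → ℝ} {m : ℕ} {ε1 ε1' lam R : ℝ} {F : Mp} (h0 : 0 ≤ ε1)
    (hle : ε1 ≤ ε1') (H : HypF a h m ε1 lam R F) : HypF a h m ε1' lam R F :=
  ⟨H.sm, H.out, fun k i hi x => (H.c5 k i hi x).trans (by gcongr), H.nn, H.er⟩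

theorem fcMono {ε1 ε1' : ℝ} {F : Mp} (h0 : 0 ≤ ε1) (hle : ε1 ≤ ε1') (H : FC ε1 F) : FC ε1' F :=
  ⟨H.sm, H.out, fun k i hi x => (H.c5 k i hi x).trans (by gcongr)⟩

theorem D1_zero {a : Str} {Φ : F2} {x : E5} (h : ∀ j, Φ j =ᶠ[𝓝 x] fun _ => 0) : D1 a Φ x = 0 := by
  show L a 0 (Φ 1) x - L a 1 (Φ 0) x = 0
  rw [L_congr 0 (h 1), L_congr 1 (h 0), L_const, L_const, sub_zero]

/-- integral of the square of the absolute value on a domain -/
theorem int_le_NN {h : ℕ → ℝ} {m : ℕ} (ha : Adm h m) (Ω : Set E5) (f : E5 → ℂ) :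
    ∫ x in Ω, ‖f x‖ ^ 2 ≤ NN h m Ω f ^ 2 := by
  have h1 := NN_term ha.pos (Nat.zero_le m) Ω f
  rw [ha.one 0 (Nat.zero_le _), one_mul] at h1
  have h2 : 0 ≤ ∫ x in Ω, sq 0 f x := setInt_sq_nonneg 0 f Ω
  have h3 := Real.sqrt_nonneg (∫ x in Ω, sq 0 f x)
  calc ∫ x in Ω, ‖f x‖ ^ 2 = Real.sqrt (∫ x in Ω, sq 0 f x) ^ 2 := (Real.sq_sqrt h2).symm
    _ ≤ NN h m Ω f ^ 2 := by gcongr

end GgPhi

open GgPhi in
theorem pgPhi : S_gPhi := by
  intro hCUT hGEO hEpt hELP hChi hEx hHs hD1 hPt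
  obtain ⟨ea, hea, Ca, hCa, hChi⟩ := hChi hCUT hGEO
  obtain ⟨eb, heb, Cb, hCb, hEx⟩ := hEx hEpt hGEO
  obtain ⟨ec, hec, hPt⟩ := hPt hD1 hELP
  obtain ⟨ed, hed, Cd, hCd, hGEO⟩ := hGEO
  set CF : ℝ := max Ca Cd with hCF
  obtain ⟨Ce, pe, hCe, hPt⟩ := hPt CF (le_trans hCa (le_max_left _ _))
  set ε1 : ℝ := min (min ea eb) (min ec ed) with hε1
  have hε0 : 0 < ε1 := lt_min (lt_min hea heb) (lt_min hec hed)
  have le_a : ε1 ≤ ea := (min_le_left _ _).trans (min_le_left _ _)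
  have le_b : ε1 ≤ eb := (min_le_left _ _).trans (min_le_right _ _)
  have le_c : ε1 ≤ ec := (min_le_right _ _).trans (min_le_left _ _)
  have le_d : ε1 ≤ ed := (min_le_right _ _).trans (min_le_right _ _)
  have hCa0 : 0 < Ca := lt_of_lt_of_le one_pos hCa
  have hCb0 : 0 < Cb := lt_of_lt_of_le one_pos hCb
  have hCe0 : 0 < Ce := lt_of_lt_of_le one_pos hCe
  have hcm := cmG_one_le 2
  set C1 : ℝ := 12 * cmG 2 * Ca * Cb with hC1
  have hC1a : 1 ≤ C1 := by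
    have h1 : 1 ≤ 12 * cmG 2 := by linarith
    have h2 : 1 ≤ 12 * cmG 2 * Ca := one_le_mul_of_one_le_of_one_le h1 hCa
    exact one_le_mul_of_one_le_of_one_le h2 hCb
  refine ⟨ε1, hε0, 2 * Ce + C1, pe + 4, by linarith, ?_⟩
  intro a h m lam R δ s μ D ρ F hN hAdm hP hH E' hE hE0
  have hl := hP.l1
  have hs0 := hP.s0
  have hs1 : s ≤ 1 := hP.s1.trans (hP.d1.trans (by norm_num))
  have hX : 1 ≤ lam / s := by rw [le_div_iff₀ hs0]; linarith
  have hX0 : 0 < lam / s := lt_of_lt_of_le one_pos hX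
  have hFC := hH.fc
  obtain ⟨χ, hχT, hχ1, hχe, hχ0, hχd⟩ := hChi F (fcMono hε0.le le_a hFC) ρ s
    (by have := hP.r2; have := hP.R2; have := hP.d0; linarith) hs0 hs1
  obtain ⟨-, geo2, -, -, geo5, -⟩ := hGEO F (fcMono hε0.le le_d hFC)
  have hFs := hH.sm
  have hDo : IsOpen (Dm F ρ) := Dm_open hFs ρ
  have hDb := Dm_sub F ρ
  have sE : ∀ μ, Sm (ex μ F) := fun μ => ex_sm hFs μ
  have sPs : ∀ j, Sm (Ps μ F E' j) := fun j => (sE μ).mul (hE j)
  -- the form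
  set Φ : F2 := fun j x => χ x * (ex (μ + D) F x * E' j x) with hΦ
  have hΦT : ∀ j, Tst (Φ j) := fun j => Tst.mul_right hχT ((sE _).mul (hE j))
  have hΦ0 : ∀ x, x ∉ Dm F ρ → ∀ j, Φ j =ᶠ[𝓝 x] fun _ => 0 := by
    intro x hx j
    filter_upwards [hχ0 x hx] with y hy
    show χ y * (ex (μ + D) F y * E' j y) = 0
    rw [hy, zero_mul]
  refine ⟨Φ, hΦT, fun j x hx => ?_, fun j x hx => ?_, ?_, ?_⟩
  · refine (hΦ0 x (fun hmem => ?_) j).eq_of_nhds
    have := hDb hmem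
    rw [mem_ball_zero_iff] at this
    linarith
  · show χ x * (ex (μ + D) F x * E' j x) = _
    rw [hχe x hx, one_mul]
  · -- `Hs 2 Φ`
    have e : Φ = fun j x => (χ x * ex D F x) * Ps μ F E' j x := by
      funext j x
      show χ x * (ex (μ + D) F x * E' j x) = (χ x * ex D F x) * (ex μ F x * E' j x)
      rw [ex_add]; ring
    set M : ℝ := cmG 2 * (Ca / s ^ 2) * (Cb * lam ^ 2 * Real.exp (D * R)) with hM
    have hM0 : 0 ≤ M := by have := cmG_pos 2; positivity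
    have b1 : Bo 2 (Dm F ρ) χ (Ca / s ^ 2) := by
      intro i hi x _
      refine (hχd i (by omega) x).trans ?_
      have : Ca / s ^ i ≤ Ca / s ^ 2 := by
        refine div_le_div_of_nonneg_left hCa0.le (by positivity) ?_
        exact pow_le_pow_of_le_one hs0.le hs1 hi
      gcongr
    have b2 : Bo 2 (Dm F ρ) (ex D F) (Cb * lam ^ 2 * Real.exp (D * R)) := by
      intro i hi x hx
      refine (hEx F (fcMono hε0.le le_b hFC) lam D hl hP.b0.le hP.b1 i hi x (hDb hx)).trans ?_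
      have h1 := geo2 x hx.1
      have h2 : -(D * (gam F x).im) ≤ D * R := by
        have := hP.R1
        nlinarith [hP.b0]
      gcongr
    have b3 : Bo 2 (Dm F ρ) (fun x => χ x * ex D F x) M := Bo.mul hχT.sm (sE D) b1 b2
    rw [e]
    refine (hHs h m hAdm (Dm F ρ) hDo hDb (fun x => χ x * ex D F x) (Ps μ F E') M
      (hχT.sm.mul (sE D)) sPs hM0 (fun x hx => ?_) b3).trans ?_
    · filter_upwards [hχ0 x hx] with y hy
      rw [hy, zero_mul]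
    · have hK : 12 * M ≤ ((2 * Ce + C1) * lam / s) ^ (pe + 4) * Real.exp (D * R) := by
        have e1 : 12 * M = C1 * (lam ^ 2 * (1 / s) ^ 2) * Real.exp (D * R) := by
          rw [hM, hC1]
          field_simp
        have e2 : lam ^ 2 * (1 / s) ^ 2 ≤ (lam / s) ^ 4 := by
          have h1 : 1 / s ≤ lam / s := by gcongr
          have h2 : lam ≤ lam / s := by
            rw [le_div_iff₀ hs0]
            nlinarith
          have h3 : 0 < 1 / s := by positivity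
          calc lam ^ 2 * (1 / s) ^ 2 ≤ (lam / s) ^ 2 * (lam / s) ^ 2 := by gcongr
            _ = (lam / s) ^ 4 := by ring
        have e3 : C1 * (lam / s) ^ 4 ≤ (C1 * (lam / s)) ^ 4 := by
          rw [mul_pow]
          have : C1 ≤ C1 ^ 4 := le_self_pow₀ hC1a (by norm_num)
          gcongr
        have e4 : (C1 * (lam / s)) ^ 4 ≤ ((2 * Ce + C1) * (lam / s)) ^ (pe + 4) :=
          pw_le hC1a (by linarith) (by omega) hX
        rw [e1, mul_div_assoc]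
        have : C1 * (lam ^ 2 * (1 / s) ^ 2) ≤ ((2 * Ce + C1) * (lam / s)) ^ (pe + 4) :=
          (mul_le_mul_of_nonneg_left e2 (by linarith)).trans (e3.trans e4)
        gcongr
      have hNN : 0 ≤ NN2 h m (Dm F ρ) (Ps μ F E') :=
        add_nonneg (NN_nonneg hAdm.pos _ _ _) (NN_nonneg hAdm.pos _ _ _)
      calc 144 * M ^ 2 * NN2 h m (Dm F ρ) (Ps μ F E') ^ 2
          = (12 * M * NN2 h m (Dm F ρ) (Ps μ F E')) ^ 2 := by ring
        _ ≤ _ := by gcongr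
  · intro aS haS hag
    have hsub : Dm F ρ ⊆ Dm F (R - 2 * δ) := Dm_mono F (by have := hP.r2; have := hP.d0; linarith)
    set K : ℝ := (Ce * lam / s) ^ pe * Real.exp (-(D * (R - 5 * δ))) with hK
    have hK0 : 0 ≤ K := by positivity
    have hz : ∀ x, x ∉ Dm F ρ → ‖D1 aS Φ x‖ ^ 2 = 0 := fun x hx => by
      rw [D1_zero (hΦ0 x hx)]; simp
    have hb : ∀ x ∈ Dm F ρ, ‖D1 aS Φ x‖ ^ 2
        ≤ 2 * K ^ 2 * (‖Ps μ F E' 0 x‖ ^ 2 + ‖Ps μ F E' 1 x‖ ^ 2) := by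
      intro x hx
      have e1 : D1 aS Φ x = D1 a Φ x := by
        show L aS 0 (Φ 1) x - L aS 1 (Φ 0) x = L a 0 (Φ 1) x - L a 1 (Φ 0) x
        rw [L_congr_str 0 (fun l => hag 0 l x (hsub hx)), L_congr_str 1 (fun l => hag 1 l x (hsub hx))]
      have b := hPt a h m lam R δ s μ D ρ F hN hAdm hP (hypMono hε0.le le_c hH)
        (Bo.mono (geo5 2) (by norm_num) (Subset.refl _) (by linarith) (le_max_right _ _)) χ E' hχT.sm
        hχ1 (fun i hi x => (hχd i (by omega) x).trans (by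
          have : Ca / s ^ i ≤ CF / s ^ i := by
            gcongr
            exact le_max_left _ _
          gcongr)) hχe hE x hx (hE0 x hx)
      rw [e1]
      have b' : ‖D1 a Φ x‖ ≤ K * (‖Ps μ F E' 0 x‖ + ‖Ps μ F E' 1 x‖) := b
      have h1 : ‖D1 a Φ x‖ ^ 2 ≤ (K * (‖Ps μ F E' 0 x‖ + ‖Ps μ F E' 1 x‖)) ^ 2 := by gcongr
      refine h1.trans ?_
      rw [mul_pow]
      have h2 : (‖Ps μ F E' 0 x‖ + ‖Ps μ F E' 1 x‖) ^ 2
          ≤ 2 * (‖Ps μ F E' 0 x‖ ^ 2 + ‖Ps μ F E' 1 x‖ ^ 2) := by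
        nlinarith [sq_nonneg (‖Ps μ F E' 0 x‖ - ‖Ps μ F E' 1 x‖)]
      have h3 := mul_le_mul_of_nonneg_left h2 (sq_nonneg K)
      linarith
    have hbd := Dm_bdd F ρ
    have cD1 : Continuous fun x => ‖D1 aS Φ x‖ ^ 2 :=
      (Sm.D1 haS fun j => (hΦT j).sm).cont.norm.pow 2
    have cP : ∀ j, Continuous fun x => ‖Ps μ F E' j x‖ ^ 2 := fun j => (sPs j).cont.norm.pow 2
    have i0 : IntegrableOn (fun x => ‖Ps μ F E' 0 x‖ ^ 2) (Dm F ρ) := intOn_cont (cP 0) hbd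
    have i1 : IntegrableOn (fun x => ‖Ps μ F E' 1 x‖ ^ 2) (Dm F ρ) := intOn_cont (cP 1) hbd
    have n0 := int_le_NN hAdm (Dm F ρ) (Ps μ F E' 0)
    have n1 := int_le_NN hAdm (Dm F ρ) (Ps μ F E' 1)
    have p0 := NN_nonneg hAdm.pos m (Dm F ρ) (Ps μ F E' 0)
    have p1 := NN_nonneg hAdm.pos m (Dm F ρ) (Ps μ F E' 1)
    have hmain : ∫ x, ‖D1 aS Φ x‖ ^ 2 ≤ 2 * K ^ 2 * NN2 h m (Dm F ρ) (Ps μ F E') ^ 2 := by
      rw [← setIntegral_eq_integral_of_forall_compl_eq_zero hz]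
      calc ∫ x in Dm F ρ, ‖D1 aS Φ x‖ ^ 2
          ≤ ∫ x in Dm F ρ, 2 * K ^ 2 * (‖Ps μ F E' 0 x‖ ^ 2 + ‖Ps μ F E' 1 x‖ ^ 2) :=
            setIntegral_mono_on (intOn_cont cD1 hbd)
              (intOn_cont (continuous_const.mul ((cP 0).add (cP 1))) hbd) hDo.measurableSet hb
        _ = 2 * K ^ 2 * ((∫ x in Dm F ρ, ‖Ps μ F E' 0 x‖ ^ 2)
            + ∫ x in Dm F ρ, ‖Ps μ F E' 1 x‖ ^ 2) := by
            rw [integral_const_mul, integral_add i0 i1]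
        _ ≤ 2 * K ^ 2 * (NN h m (Dm F ρ) (Ps μ F E' 0) ^ 2 + NN h m (Dm F ρ) (Ps μ F E' 1) ^ 2) := by
            gcongr
        _ ≤ 2 * K ^ 2 * NN2 h m (Dm F ρ) (Ps μ F E') ^ 2 := by
            refine mul_le_mul_of_nonneg_left ?_ (by positivity)
            unfold NN2
            nlinarith [mul_nonneg p0 p1]
    refine hmain.trans ?_
    have hNN : 0 ≤ NN2 h m (Dm F ρ) (Ps μ F E') := add_nonneg p0 p1
    have hpw : 2 * (Ce * lam / s) ^ pe ≤ ((2 * Ce + C1) * lam / s) ^ (pe + 4) := by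
      rw [mul_div_assoc, mul_div_assoc]
      have h1 : (Ce * (lam / s)) ^ pe ≤ ((2 * Ce + C1) * (lam / s)) ^ (pe + 3) :=
        pw_le hCe (by linarith) (by omega) hX
      have h2 : 2 ≤ (2 * Ce + C1) * (lam / s) := by nlinarith
      have h3 : 0 ≤ (Ce * (lam / s)) ^ pe := by positivity
      calc 2 * (Ce * (lam / s)) ^ pe
          ≤ ((2 * Ce + C1) * (lam / s)) * ((2 * Ce + C1) * (lam / s)) ^ (pe + 3) :=
            mul_le_mul h2 h1 h3 (by linarith)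
        _ = _ := by rw [← pow_succ']
    have hK2 : 2 * K ≤ ((2 * Ce + C1) * lam / s) ^ (pe + 4) * Real.exp (-(D * (R - 5 * δ))) := by
      rw [hK, ← mul_assoc]
      gcongr
    calc 2 * K ^ 2 * NN2 h m (Dm F ρ) (Ps μ F E') ^ 2
        ≤ (2 * K * NN2 h m (Dm F ρ) (Ps μ F E')) ^ 2 := by
          have : 0 ≤ (K * NN2 h m (Dm F ρ) (Ps μ F E')) ^ 2 := sq_nonneg _
          nlinarith
      _ ≤ _ := by gcongr

end Pool.Agent.CR5
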