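import Pool.Agent.Lib.CR5.SpecG

/-!
# CR5, block G: gPt, pointwise bound of `D1 Φ`
-/

open MeasureTheory Set Filter Topology
open scoped ENNReal ComplexConjugate

noncomputable section

namespace Pool.Agent.CR5

namespace GgPt

theorem alg {e p0 p1 r0 r1 q0 q1 c : ℂ} {K1 K2 E M : ℝ} (hM : 0 ≤ M)
    (h0 : ‖e‖ * ‖p0‖ ≤ K1 * E) (h1 : ‖e‖ * ‖p1‖ ≤ K1 * E) (g0 : ‖e‖ * ‖r0‖ ≤ K2 * E)
    (g1 : ‖e‖ * ‖r1‖ ≤ K2 * E) (hc : ‖c‖ ≤ M) :
    ‖e * ((p0 * q1 - p1 * q0) + c * (r0 * q1 - r1 * q0))‖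
      ≤ (K1 + M * K2) * E * (‖q0‖ + ‖q1‖) := by
  have n0 := norm_nonneg q0
  have n1 := norm_nonneg q1
  calc ‖e * ((p0 * q1 - p1 * q0) + c * (r0 * q1 - r1 * q0))‖
      = ‖e‖ * ‖(p0 * q1 - p1 * q0) + c * (r0 * q1 - r1 * q0)‖ := norm_mul _ _
    _ ≤ ‖e‖ * ((‖p0‖ * ‖q1‖ + ‖p1‖ * ‖q0‖) + ‖c‖ * (‖r0‖ * ‖q1‖ + ‖r1‖ * ‖q0‖)) := by
        refine mul_le_mul_of_nonneg_left ((norm_add_le _ _).trans (add_le_add ?_ ?_))
          (norm_nonneg _)
        · refine (norm_sub_le _ _).trans ?_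
          rw [norm_mul, norm_mul]
        · rw [norm_mul]
          refine mul_le_mul_of_nonneg_left ((norm_sub_le _ _).trans ?_) (norm_nonneg _)
          rw [norm_mul, norm_mul]
    _ = ((‖e‖ * ‖p0‖) * ‖q1‖ + (‖e‖ * ‖p1‖) * ‖q0‖)
        + ‖c‖ * ((‖e‖ * ‖r0‖) * ‖q1‖ + (‖e‖ * ‖r1‖) * ‖q0‖) := by ring
    _ ≤ ((K1 * E) * ‖q1‖ + (K1 * E) * ‖q0‖) + M * ((K2 * E) * ‖q1‖ + (K2 * E) * ‖q0‖) := by
        have a1 := mul_le_mul_of_nonneg_right h0 n1
        have a2 := mul_le_mul_of_nonneg_right h1 n0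
        have a3 := mul_le_mul_of_nonneg_right g0 n1
        have a4 := mul_le_mul_of_nonneg_right g1 n0
        refine add_le_add (add_le_add a1 a2) (mul_le_mul hc (add_le_add a3 a4) ?_ hM)
        positivity
    _ = (K1 + M * K2) * E * (‖q0‖ + ‖q1‖) := by ring

end GgPt

open GgPt in
theorem pgPt : S_gPt := by
  intro hD1 hELP
  obtain ⟨ε1, hε1, CE, pE, hCE, hE⟩ := hELP
  refine ⟨ε1, hε1, fun CF hCF => ?_⟩
  have hc0 : 0 < cmG 0 := cmG_pos 0
  obtain ⟨A1, hA1⟩ : ∃ A1 : ℝ, A1 = 1 + 3 * cmG 0 * 3 := ⟨_, rfl⟩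
  have hA1' : 1 ≤ A1 := by rw [hA1]; linarith
  have hAC : 1 ≤ A1 * CF := one_le_mul_of_one_le_of_one_le hA1' hCF
  obtain ⟨C', hC'⟩ : ∃ C' : ℝ, C' = A1 * CF + 3 * (1 + CF) + CE := ⟨_, rfl⟩
  refine ⟨C', pE + 2, by rw [hC']; linarith, ?_⟩
  intro a h m lam R δ s μ D ρ F ha hh hP H hF2 χ E' hχ hχ1 hχb hχe hE' x hx hx0
  have hl1 := hP.l1
  have hd0 := hP.d0
  have hd1 := hP.d1
  have hs0 := hP.s0
  have hs1 := hP.s1
  have hm1 := hP.m1
  have hm2 := hP.m2
  have hb0 := hP.b0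
  have hb1 := hP.b1
  have hr1 := hP.r1
  have hr2 := hP.r2
  have hR1 := hP.R1
  have hR2 := hP.R2
  have hsle : s ≤ 1 := by linarith
  have hxb : x ∈ Metric.ball (0 : E5) 1 := Dm_sub F ρ hx
  have hxi : (gam F x).im < ρ := hx.2
  obtain ⟨Y, hY⟩ : ∃ Y : ℝ, Y = C' * lam / s := ⟨_, rfl⟩
  rw [← hY]
  obtain ⟨E, hEe⟩ : ∃ E : ℝ, E = Real.exp (-(D * (R - 5 * δ))) := ⟨_, rfl⟩
  rw [← hEe]
  have hE0 : 0 ≤ E := by rw [hEe]; exact (Real.exp_pos _).le
  have hex : ‖ex D F x‖ = Real.exp (-(D * (gam F x).im)) := ex_norm D F x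
  rw [hD1 a F χ E' μ D x ha.smS H.sm hχ hE' hx0]
  -- first terms
  have t1 : ∀ j, ‖ex D F x‖ * ‖L a j χ x‖ ≤ (A1 * (CF / s)) * E := by
    intro j
    have hpos : 0 ≤ A1 * (CF / s) := by positivity
    by_cases hxs : x ∈ Dm F (ρ - s / 2)
    · have h1 : χ =ᶠ[𝓝 x] fun _ => (1 : ℂ) := by
        filter_upwards [(Dm_open H.sm (ρ - s / 2)).mem_nhds hxs] with y hy
        exact hχe y hy
      have h2 : L a j χ x = 0 := by
        rw [L_congr j h1]
        exact L_const a 1 j x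
      rw [h2, norm_zero, mul_zero]
      exact mul_nonneg hpos hE0
    · have hxg : ρ - s / 2 ≤ (gam F x).im := by
        by_contra hcon
        exact hxs ⟨hx.1, not_le.1 hcon⟩
      have hB : Bo 1 (Metric.ball 0 1) χ (CF / s) := by
        intro i hi y _
        refine (hχb i hi y).trans ?_
        have h3 : CF / s ^ i ≤ CF / s := by
          interval_cases i
          · rw [pow_zero, div_one]
            exact le_div_self (by linarith) hs0 hsle
          · rw [pow_one]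
        exact pow_le_pow_left₀ (by positivity) h3 2
      have hBL := Bo.L (m := 0) ha.smS hχ (by norm_num : (0 : ℝ) ≤ 3) (by positivity) j
        (fun l => Bo.mono (Bo_near ha zero_le_one le_rfl j l) (Nat.zero_le 4) (Subset.refl _)
          (by norm_num) le_rfl) hB
      rw [← hA1] at hBL
      have h4 : ‖L a j χ x‖ ≤ A1 * (CF / s) := hBL.norm_le hpos hxb
      have h5 : ‖ex D F x‖ ≤ E := by
        rw [hex, hEe]
        refine Real.exp_le_exp.2 ?_
        have h6 : R - 5 * δ ≤ (gam F x).im := by linarith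
        have h7 := mul_le_mul_of_nonneg_left h6 hb0.le
        linarith
      calc ‖ex D F x‖ * ‖L a j χ x‖ ≤ E * (A1 * (CF / s)) :=
            mul_le_mul h5 h4 (norm_nonneg _) hE0
        _ = (A1 * (CF / s)) * E := mul_comm _ _
  -- second terms
  have hxR : x ∈ Dm F (R - δ) := ⟨hx.1, by linarith⟩
  have t2 : ∀ j, ‖ex D F x‖ * ‖L a j (gam F) x‖ ≤ ((1 + CF) * (CE * lam / δ) ^ pE) * E := by
    intro j
    rw [L_gam H.sm j x, norm_mul]
    have h1 : ‖1 + Complex.I / 2 * F 2 x‖ ≤ 1 + CF := by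
      have h2 : ‖F 2 x‖ ≤ CF := hF2.norm_le (by linarith) hxb
      refine (norm_add_le _ _).trans ?_
      rw [norm_one, norm_mul, norm_div, Complex.norm_I]
      have h3 : ‖(2 : ℂ)‖ = 2 := by norm_num
      rw [h3]
      have := norm_nonneg (F 2 x)
      linarith
    have h4 : ‖EF a F j 2 x‖ ≤ (CE * lam / δ) ^ pE * Real.exp (-(lam * (R - (gam F x).im))) := by
      have h5 := hE a h m lam R δ F ha.smS hh hl1 hR1 hR2 hd0 hd1 H j 2 0 (Nat.zero_le _) x hxR
      rw [sq_zero'] at h5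
      exact (sq_le_sq₀ (norm_nonneg _) (by positivity)).1 h5
    have h6 : Real.exp (-(D * (gam F x).im)) * Real.exp (-(lam * (R - (gam F x).im))) ≤ E := by
      rw [← Real.exp_add, hEe]
      refine Real.exp_le_exp.2 ?_
      have h7 : (lam - D) * (gam F x).im ≤ (lam - D) * (R - 3 * δ) :=
        mul_le_mul_of_nonneg_left (by linarith) (by linarith)
      have h8 : 0 ≤ lam * δ := by positivity
      have h9 : 0 ≤ D * δ := by positivity
      have h10 : -(D * (gam F x).im) + -(lam * (R - (gam F x).im)) =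
          (lam - D) * (gam F x).im - lam * R := by ring
      have h11 : (lam - D) * (R - 3 * δ) - lam * R =
          -(D * (R - 5 * δ)) - 3 * (lam * δ) - 2 * (D * δ) := by ring
      linarith
    have hpw : 0 ≤ (CE * lam / δ) ^ pE := by positivity
    rw [hex]
    calc Real.exp (-(D * (gam F x).im)) * (‖1 + Complex.I / 2 * F 2 x‖ * ‖EF a F j 2 x‖)
        ≤ Real.exp (-(D * (gam F x).im)) *
          ((1 + CF) * ((CE * lam / δ) ^ pE * Real.exp (-(lam * (R - (gam F x).im))))) := by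
          refine mul_le_mul_of_nonneg_left ?_ (Real.exp_pos _).le
          exact mul_le_mul h1 h4 (norm_nonneg _) (by linarith)
      _ = ((1 + CF) * (CE * lam / δ) ^ pE) *
          (Real.exp (-(D * (gam F x).im)) * Real.exp (-(lam * (R - (gam F x).im)))) := by ring
      _ ≤ ((1 + CF) * (CE * lam / δ) ^ pE) * E :=
          mul_le_mul_of_nonneg_left h6 (mul_nonneg (by linarith) hpw)
  have hc : ‖Complex.I * ((μ + D : ℝ) : ℂ) * χ x‖ ≤ μ + D := by
    rw [norm_mul, norm_mul, Complex.norm_I, one_mul, Complex.norm_real, Real.norm_eq_abs,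
      abs_of_nonneg (by linarith)]
    exact mul_le_of_le_one_right (by linarith) (hχ1 x)
  refine (alg (by linarith) (t1 0) (t1 1) (t2 0) (t2 1) hc).trans ?_
  have hq : 0 ≤ ‖Ps μ F E' 0 x‖ + ‖Ps μ F E' 1 x‖ := by positivity
  refine mul_le_mul_of_nonneg_right (mul_le_mul_of_nonneg_right ?_ hE0) hq
  -- the constants
  have hX1 : 1 ≤ lam / s := by
    rw [le_div_iff₀ hs0]
    linarith
  have hYX : Y = C' * (lam / s) := by rw [hY, mul_div_assoc]
  have hX0 : 0 ≤ lam / s := by linarith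
  have k1 : A1 * (CF / s) ≤ Y := by
    have h1 : CF / s ≤ CF * (lam / s) := by
      rw [← mul_div_assoc]
      exact div_le_div_of_nonneg_right (le_mul_of_one_le_right (by linarith) hl1) hs0.le
    have h2 : A1 * (CF / s) ≤ (A1 * CF) * (lam / s) := by
      rw [mul_assoc]
      exact mul_le_mul_of_nonneg_left h1 (by linarith)
    refine h2.trans ?_
    rw [hYX]
    exact mul_le_mul_of_nonneg_right (by rw [hC']; linarith) hX0
  have k2 : (CE * lam / δ) ^ pE ≤ Y ^ pE := by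
    refine pow_le_pow_left₀ (by positivity) ?_ _
    rw [hY]
    refine div_le_div₀ (by rw [hC']; positivity) ?_ hs0 hs1
    exact mul_le_mul_of_nonneg_right (by rw [hC']; linarith) (by linarith)
  have k3 : (μ + D) * (1 + CF) ≤ Y := by
    have h1 : μ + D ≤ 3 * (lam / s) := by
      have h2 : lam ≤ lam / s := le_div_self (by linarith) hs0 hsle
      linarith
    have h3 : (μ + D) * (1 + CF) ≤ 3 * (lam / s) * (1 + CF) :=
      mul_le_mul_of_nonneg_right h1 (by linarith)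
    refine h3.trans ?_
    rw [hYX]
    have h4 : 3 * (lam / s) * (1 + CF) = (3 * (1 + CF)) * (lam / s) := by ring
    rw [h4]
    exact mul_le_mul_of_nonneg_right (by rw [hC']; linarith) hX0
  have hY2 : 2 ≤ Y := by
    rw [hYX]
    have h2 : 2 ≤ C' := by rw [hC']; linarith
    calc (2 : ℝ) = 2 * 1 := by norm_num
      _ ≤ C' * (lam / s) := mul_le_mul h2 hX1 zero_le_one (by linarith)
  have hY1 : 1 ≤ Y := by linarith
  have hYp : 0 ≤ Y ^ pE := pow_nonneg (by linarith) _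
  have k4 : (μ + D) * ((1 + CF) * (CE * lam / δ) ^ pE) ≤ Y * Y ^ pE := by
    rw [← mul_assoc]
    exact mul_le_mul k3 k2 (by positivity) (by linarith)
  have k5 : Y ≤ Y * Y ^ pE := le_mul_of_one_le_right (by linarith) (one_le_pow₀ hY1)
  have e1 : Y ^ (pE + 2) = Y * (Y * Y ^ pE) := by ring
  rw [e1]
  have h9 : 0 ≤ Y * Y ^ pE := mul_nonneg (by linarith) hYp
  have h10 : 2 * (Y * Y ^ pE) ≤ Y * (Y * Y ^ pE) := mul_le_mul_of_nonneg_right hY2 h9
  linarith

end Pool.Agent.CR5
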