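import Pool.Agent.Lib.CR5.SpecG

/-!
# CR5, G/gQuB: qualitative bounds for `w - w_tt`
-/

open MeasureTheory Set Filter Topology
open scoped ENNReal ComplexConjugate

noncomputable section

namespace Pool.Agent.CR5

namespace GgQuBAux

/-- The weights `1`. -/
abbrev o1 : ℕ → ℝ := fun _ => 1

theorem o1_pos : ∀ i, 0 < o1 i := fun _ => one_pos

theorem NN_h_le {h : ℕ → ℝ} (h1 : ∀ i, h i ≤ 1) (n : ℕ) (Ω : Set E5) (f : E5 → ℂ) :
    NN h n Ω f ≤ NN o1 n Ω f := by
  refine Finset.sum_le_sum fun i _ => ?_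
  exact mul_le_mul_of_nonneg_right (h1 i) (Real.sqrt_nonneg _)

theorem NN_order {n n' : ℕ} (hn : n ≤ n') (Ω : Set E5) (f : E5 → ℂ) :
    NN o1 n Ω f ≤ NN o1 n' Ω f := by
  refine Finset.sum_le_sum_of_subset_of_nonneg (Finset.range_subset_range.2 (by omega)) ?_
  intro i _ _
  exact mul_nonneg (o1_pos i).le (Real.sqrt_nonneg _)

theorem NN_pd (n : ℕ) {Ω : Set E5} (hb : Bornology.IsBounded Ω) {f : E5 → ℂ} (hf : Sm f)
    (k : Fin 5) : NN o1 n Ω (pd k f) ≤ NN o1 (n + 1) Ω f := by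
  unfold NN
  rw [Finset.sum_range_succ' _ (n + 1)]
  have h0 : 0 ≤ o1 0 * Real.sqrt (∫ x in Ω, sq 0 f x) :=
    mul_nonneg (o1_pos 0).le (Real.sqrt_nonneg _)
  have h1 : ∑ i ∈ Finset.range (n + 1), o1 i * Real.sqrt (∫ x in Ω, sq i (pd k f) x)
      ≤ ∑ i ∈ Finset.range (n + 1), o1 (i + 1) * Real.sqrt (∫ x in Ω, sq (i + 1) f x) := by
    refine Finset.sum_le_sum fun i _ => ?_
    refine mul_le_mul_of_nonneg_left (Real.sqrt_le_sqrt ?_) zero_le_one
    exact integral_mono (intOn_sq i (hf.pd k) hb) (intOn_sq (i + 1) hf hb)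
      fun x => sq_pd_le i f k x
  linarith

theorem NN_half (n : ℕ) {Ω : Set E5} (hb : Bornology.IsBounded Ω) {f : E5 → ℂ} (hf : Sm f)
    (c : ℂ) (hc : ‖c‖ = 1) (i k : Fin 5) :
    NN o1 n Ω (fun x => (pd i f x + c * pd k f x) / 2) ≤ NN o1 (n + 1) Ω f := by
  have e : (fun x => (pd i f x + c * pd k f x) / 2)
      = fun x => (1 / 2 : ℂ) * (pd i f x + c * pd k f x) := by
    funext x
    ring
  rw [e, NN_const_mul o1 n Ω ((hf.pd i).add ((Sm.const c).mul (hf.pd k)))]
  have h1 := NN_add_le o1_pos n hb (hf.pd i) ((Sm.const c).mul (hf.pd k))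
  have h2 := NN_const_mul o1 n Ω (hf.pd k) c
  rw [hc, one_mul] at h2
  have h3 := NN_pd n hb hf i
  have h4 := NN_pd n hb hf k
  have h5 : ‖(1 / 2 : ℂ)‖ = 1 / 2 := by simp
  rw [h5]
  linarith

theorem NN_db (n : ℕ) {Ω : Set E5} (hb : Bornology.IsBounded Ω) {f : E5 → ℂ} (hf : Sm f)
    (l : Fin 3) : NN o1 n Ω (db l f) ≤ NN o1 (n + 1) Ω f := by
  rcases fin3_cases l with rfl | rfl | rfl
  · have e : db 0 f = fun x => (pd 0 f x + Complex.I * pd 1 f x) / 2 := by
      funext x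
      rw [db_zero]
    rw [e]
    exact NN_half n hb hf _ Complex.norm_I 0 1
  · have e : db 1 f = fun x => (pd 2 f x + Complex.I * pd 3 f x) / 2 := by
      funext x
      rw [db_one]
    rw [e]
    exact NN_half n hb hf _ Complex.norm_I 2 3
  · have e : db 2 f = pd 4 f := by
      funext x
      rw [db_two]
    rw [e]
    exact NN_pd n hb hf 4

theorem NN_dz (n : ℕ) {Ω : Set E5} (hb : Bornology.IsBounded Ω) {f : E5 → ℂ} (hf : Sm f)
    (l : Fin 3) : NN o1 n Ω (dz l f) ≤ NN o1 (n + 1) Ω f := by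
  have hI : ‖-Complex.I‖ = 1 := by rw [norm_neg, Complex.norm_I]
  rcases fin3_cases l with rfl | rfl | rfl
  · have e : dz 0 f = fun x => (pd 0 f x + -Complex.I * pd 1 f x) / 2 := by
      funext x
      rw [dz_zero]
      ring
    rw [e]
    exact NN_half n hb hf _ hI 0 1
  · have e : dz 1 f = fun x => (pd 2 f x + -Complex.I * pd 3 f x) / 2 := by
      funext x
      rw [dz_one]
      ring
    rw [e]
    exact NN_half n hb hf _ hI 2 3
  · have e : dz 2 f = pd 4 f := by
      funext x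
      rw [dz_two]
    rw [e]
    exact NN_pd n hb hf 4

theorem sqrt_sum (S : Finset ℕ) (f : ℕ → ℝ) (h : ∀ i, 0 ≤ f i) :
    Real.sqrt (∑ i ∈ S, f i) ≤ ∑ i ∈ S, Real.sqrt (f i) := by
  classical
  induction S using Finset.induction_on with
  | empty => simp
  | insert i S hi ih =>
    rw [Finset.sum_insert hi, Finset.sum_insert hi]
    have h1 := h i
    have h2 : 0 ≤ ∑ i ∈ S, f i := Finset.sum_nonneg fun k _ => h k
    have h3 : Real.sqrt (f i + ∑ i ∈ S, f i) ≤ Real.sqrt (f i) + Real.sqrt (∑ i ∈ S, f i) := by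
      rw [Real.sqrt_le_iff]
      have a1 := Real.sqrt_nonneg (f i)
      have a2 := Real.sqrt_nonneg (∑ i ∈ S, f i)
      have a3 := Real.sq_sqrt h1
      have a4 := Real.sq_sqrt h2
      refine ⟨by linarith, ?_⟩
      have a5 := mul_nonneg a1 a2
      nlinarith
    linarith

/-- Products with a function with bounded derivatives. -/
theorem NN_prod (n : ℕ) {Ω : Set E5} (ho : IsOpen Ω) (hΩ : Ω ⊆ Metric.ball 0 1)
    {c f : E5 → ℂ} (hc : Sm c) (hf : Sm f) {A : ℝ} (hA : 0 ≤ A)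
    (hb : Bo n (Metric.ball 0 1) c A) :
    NN o1 n Ω (fun x => c x * f x) ≤ ((n : ℝ) + 1) * (2 ^ n * A * NN o1 n Ω f) := by
  have hbd := bdd_of_ball hΩ
  have key : ∀ i ∈ Finset.range (n + 1), o1 i * Real.sqrt (∫ x in Ω,
      sq i (fun x => c x * f x) x) ≤ 2 ^ n * A * NN o1 n Ω f := by
    intro i hi
    have hi' : i ≤ n := by
      have := Finset.mem_range.1 hi
      omega
    have h1 : ∫ x in Ω, sq i (fun x => c x * f x) x
        ≤ ∫ x in Ω, (2 ^ n * A) ^ 2 * ∑ q ∈ Finset.range (n + 1), sq q f x := by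
      refine setIntegral_mono_on (intOn_sq i (hc.mul hf) hbd) ?_ ho.measurableSet ?_
      · refine intOn_cont (continuous_const.mul ?_) hbd
        exact continuous_finsetSum _ fun q _ => sq_continuous q hf
      · intro x hx
        have e1 := sq_mul_le i hc hf x
        have e2 : ∑ q ∈ Finset.range (i + 1), sq q c x * sq (i - q) f x
            ≤ ∑ q ∈ Finset.range (i + 1), A ^ 2 * sq (i - q) f x := by
          refine Finset.sum_le_sum fun q hq => ?_
          have hq' := Finset.mem_range.1 hq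
          exact mul_le_mul_of_nonneg_right (hb q (by omega) x (hΩ hx)) (sq_nonneg' _ _ _)
        have e3 : ∑ q ∈ Finset.range (i + 1), A ^ 2 * sq (i - q) f x
            = A ^ 2 * ∑ q ∈ Finset.range (i + 1), sq q f x := by
          rw [← Finset.mul_sum]
          congr 1
          have := Finset.sum_range_reflect (fun q => sq q f x) (i + 1)
          rw [← this]
          refine Finset.sum_congr rfl fun q hq => ?_
          have hq' := Finset.mem_range.1 hq
          have e5 : i + 1 - 1 - q = i - q := by omega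
          rw [e5]
        have e4 : ∑ q ∈ Finset.range (i + 1), sq q f x
            ≤ ∑ q ∈ Finset.range (n + 1), sq q f x :=
          Finset.sum_le_sum_of_subset_of_nonneg (Finset.range_subset_range.2 (by omega))
            fun q _ _ => sq_nonneg' _ _ _
        have e5 : (4 : ℝ) ^ i ≤ 4 ^ n := pow_le_pow_right₀ (by norm_num) hi'
        have e6 : 0 ≤ ∑ q ∈ Finset.range (n + 1), sq q f x :=
          Finset.sum_nonneg fun q _ => sq_nonneg' _ _ _
        have e7 : ((2 : ℝ) ^ n * A) ^ 2 = 4 ^ n * A ^ 2 := by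
          rw [mul_pow, ← pow_mul, mul_comm n 2, pow_mul]
          norm_num
        rw [e3] at e2
        calc sq i (fun x => c x * f x) x
            ≤ 4 ^ i * ∑ q ∈ Finset.range (i + 1), sq q c x * sq (i - q) f x := e1
          _ ≤ 4 ^ i * (A ^ 2 * ∑ q ∈ Finset.range (i + 1), sq q f x) :=
              mul_le_mul_of_nonneg_left e2 (by positivity)
          _ ≤ 4 ^ i * (A ^ 2 * ∑ q ∈ Finset.range (n + 1), sq q f x) :=
              mul_le_mul_of_nonneg_left (mul_le_mul_of_nonneg_left e4 (by positivity))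
                (by positivity)
          _ ≤ 4 ^ n * (A ^ 2 * ∑ q ∈ Finset.range (n + 1), sq q f x) :=
              mul_le_mul_of_nonneg_right e5 (by positivity)
          _ = (2 ^ n * A) ^ 2 * ∑ q ∈ Finset.range (n + 1), sq q f x := by
              rw [e7]
              ring
    have h2 : ∫ x in Ω, (2 ^ n * A) ^ 2 * ∑ q ∈ Finset.range (n + 1), sq q f x
        = (2 ^ n * A) ^ 2 * ∑ q ∈ Finset.range (n + 1), ∫ x in Ω, sq q f x := by
      rw [integral_const_mul, integral_finsetSum _ fun q _ => intOn_sq q hf hbd]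
    rw [h2] at h1
    have h3 := sqrt_sum (Finset.range (n + 1)) (fun q => ∫ x in Ω, sq q f x)
      (fun q => setInt_sq_nonneg q f Ω)
    have h4 : ∑ q ∈ Finset.range (n + 1), Real.sqrt (∫ x in Ω, sq q f x) = NN o1 n Ω f := by
      unfold NN
      refine Finset.sum_congr rfl fun q _ => ?_
      rw [one_mul]
    rw [h4] at h3
    rw [one_mul]
    refine (Real.sqrt_le_sqrt h1).trans ?_
    rw [Real.sqrt_mul (by positivity), Real.sqrt_sq (by positivity)]
    exact mul_le_mul_of_nonneg_left h3 (by positivity)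
  have h5 := Finset.sum_le_sum key
  rw [Finset.sum_const, Finset.card_range, nsmul_eq_mul] at h5
  push_cast at h5
  exact h5

end GgQuBAux

open GgQuBAux in
theorem pgQuB : S_gQuB := by
  intro hB a m ε ha h n hpos h1 Ω ho hΩ
  obtain ⟨B, hB0, hBd⟩ := hB a m ε ha n
  have hbd := bdd_of_ball hΩ
  obtain ⟨K, hK⟩ : ∃ K : ℝ, K = ((n : ℝ) + 1) * (2 ^ n * (2 + B)) := ⟨_, rfl⟩
  have hK0 : 0 ≤ K := by
    rw [hK]
    positivity
  refine ⟨2 * (1 + 3 * K), by positivity, ?_⟩
  intro w hw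
  have hg : ∀ j, Sm (fun x => w j x - pd 4 (pd 4 (w j)) x) := fun j =>
    (hw j).sub (((hw j).pd 4).pd 4)
  obtain ⟨g, hgd⟩ : ∃ g : F2, g = fun j x => w j x - pd 4 (pd 4 (w j)) x := ⟨_, rfl⟩
  have hgs : ∀ j, Sm (g j) := by
    intro j
    rw [hgd]
    exact hg j
  rw [← hgd]
  -- the functions g j
  have g1 : ∀ j (n' : ℕ), NN o1 n' Ω (g j) ≤ 2 * NN o1 (n' + 2) Ω (w j) := by
    intro j n'
    have e1 := NN_sub_le o1_pos n' hbd (hw j) (((hw j).pd 4).pd 4)
    have e2 := NN_pd n' hbd ((hw j).pd 4) 4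
    have e3 := NN_pd (n' + 1) hbd (hw j) 4
    have e4 := NN_order (show n' ≤ n' + 2 by omega) Ω (w j)
    have e5 : g j = fun x => w j x - pd 4 (pd 4 (w j)) x := by rw [hgd]
    rw [e5]
    linarith
  have hW : NN2 o1 (n + 3) Ω w = NN o1 (n + 3) Ω (w 0) + NN o1 (n + 3) Ω (w 1) := rfl
  have hW0 := NN_nonneg o1_pos (n + 3) Ω (w 0)
  have hW1 := NN_nonneg o1_pos (n + 3) Ω (w 1)
  have hLg : ∀ i j, NN o1 n Ω (L a i (g j)) ≤ (1 + 3 * K) * NN o1 (n + 1) Ω (g j) := by
    intro i j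
    have e1 := NN_add_le o1_pos n hbd ((hgs j).db i.castSucc)
      (Sm.sum Finset.univ fun l _ => (ha.sm i l).mul ((hgs j).dz l))
    have e2 := NN_sum_le o1_pos n hbd Finset.univ (f := fun l x => a i l x * dz l (g j) x)
      (fun l _ => (ha.sm i l).mul ((hgs j).dz l))
    have e3 := NN_db n hbd (hgs j) i.castSucc
    have e4 : ∑ l : Fin 3, NN o1 n Ω (fun x => a i l x * dz l (g j) x)
        ≤ ∑ _l : Fin 3, K * NN o1 (n + 1) Ω (g j) := by
      refine Finset.sum_le_sum fun l _ => ?_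
      have f1 := NN_prod n ho hΩ (ha.sm i l) ((hgs j).dz l) (by positivity : 0 ≤ 2 + B)
        (Bo_a ha.smS hB0 hBd i l)
      have f2 := NN_dz n hbd (hgs j) l
      have f3 := mul_le_mul_of_nonneg_left f2 hK0
      have f4 : ((n : ℝ) + 1) * (2 ^ n * (2 + B) * NN o1 n Ω (dz l (g j)))
          = K * NN o1 n Ω (dz l (g j)) := by
        rw [hK]
        ring
      rw [f4] at f1
      linarith
    rw [Finset.sum_const, Finset.card_univ, Fintype.card_fin, nsmul_eq_mul] at e4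
    push_cast at e4
    have e5 : L a i (g j) = fun x => db i.castSucc (g j) x + ∑ l, a i l x * dz l (g j) x := rfl
    rw [e5]
    linarith
  have hK3 : 0 ≤ 1 + 3 * K := by positivity
  constructor
  · have e1 := NN_h_le h1 n Ω (D1 a g)
    have e2 : NN o1 n Ω (D1 a g) ≤ NN o1 n Ω (L a 0 (g 1)) + NN o1 n Ω (L a 1 (g 0)) :=
      NN_sub_le o1_pos n hbd ((hgs 1).L ha.smS 0) ((hgs 0).L ha.smS 1)
    have e3 := hLg 0 1
    have e4 := hLg 1 0
    have e5 := mul_le_mul_of_nonneg_left (g1 1 (n + 1)) hK3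
    have e6 := mul_le_mul_of_nonneg_left (g1 0 (n + 1)) hK3
    have e7 : 2 * (1 + 3 * K) * NN2 (fun _ => 1) (n + 3) Ω w
        = (1 + 3 * K) * (2 * NN o1 (n + 1 + 2) Ω (w 0))
          + (1 + 3 * K) * (2 * NN o1 (n + 1 + 2) Ω (w 1)) := by
      unfold NN2
      ring
    rw [e7]
    linarith
  · have e1 := NN_h_le h1 n Ω (g 0)
    have e2 := NN_h_le h1 n Ω (g 1)
    have e3 := g1 0 n
    have e4 := g1 1 n
    have e5 := NN_order (show n + 2 ≤ n + 3 by omega) Ω (w 0)
    have e6 := NN_order (show n + 2 ≤ n + 3 by omega) Ω (w 1)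
    have e7 : NN2 h n Ω g = NN h n Ω (g 0) + NN h n Ω (g 1) := rfl
    have e8 : 2 * (1 + 3 * K) * NN2 (fun _ => 1) (n + 3) Ω w
        = 2 * (NN o1 (n + 3) Ω (w 0) + NN o1 (n + 3) Ω (w 1))
          + 6 * K * (NN o1 (n + 3) Ω (w 0) + NN o1 (n + 3) Ω (w 1)) := by
      unfold NN2
      ring
    have e9 : 0 ≤ 6 * K * (NN o1 (n + 3) Ω (w 0) + NN o1 (n + 3) Ω (w 1)) := by positivity
    rw [e7, e8]
    linarith

end Pool.Agent.CR5
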