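import Pool.Agent.Lib.CR5.SpecG

/-!
# CR5, block G: gQua, qualitative bounds (helper6, after the docstring of helper55)
-/

open MeasureTheory Set Filter Topology
open scoped ENNReal ComplexConjugate

noncomputable section

namespace Pool.Agent.CR5

namespace GgQua

theorem Ls_zero (a : Str) (j : Fin 2) (x : E5) : Ls a j (fun _ => 0) x = 0 := by
  show -dz j.castSucc (fun _ => (0 : ℂ)) x - ∑ l, db l (fun y => conj (a j l y) * 0) x = 0
  simp only [mul_zero, dz_const, db_const]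
  simp

theorem D1s_zero (a : Str) (j : Fin 2) (x : E5) : D1s a (fun _ => 0) j x = 0 := by
  show (if j = 0 then -Ls a 1 (fun _ => 0) x else Ls a 0 (fun _ => 0) x) = 0
  rw [Ls_zero, Ls_zero]
  simp

theorem D0_zero (a : Str) (j : Fin 2) (x : E5) : D0 a (fun _ => 0) j x = 0 := L_const a 0 j x

end GgQua

open GgQua in
theorem pgQua : S_gQua := by
  intro hLOC hBdE
  obtain ⟨ε, hε, hL⟩ := hLOC
  refine ⟨ε, hε, fun a ha n s hs hs1 Ω' Ω hO' hO hsub hInn hball Φ hΦ Y => ?_⟩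
  obtain ⟨B, _, hBd⟩ := hBdE a 4 ε ha (n + 4)
  obtain ⟨C, p, hC, hLC⟩ := hL n B
  refine ⟨(C / s) ^ p * (NN2 (fun _ => 1) n Ω Φ + NN (fun _ => 1) n Ω (fun _ => 0)
    + NN (fun _ => 1) n Ω (fun _ => 0) + Real.sqrt Y), fun e he he1 w hw hB hY => ?_⟩
  have hWt : Wt (fun _ : ℕ => (1 : ℝ)) := ⟨rfl, fun _ => one_pos, fun _ => le_rfl⟩
  have hpos : ∀ i : ℕ, 0 < (fun _ : ℕ => (1 : ℝ)) i := fun _ => one_pos
  have key := hLC a ha hBd (fun _ => 1) hWt s hs hs1 Ω' Ω hO' hO hsub hInn hball e he.le he1 w Φ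
    (fun _ => 0) (fun _ => 0) hw hΦ (Sm.const 0) (Sm.const 0) (fun j x hx => by
      rw [hB j x hx, D1s_zero, D0_zero]; ring)
  have n1 := NN_nonneg hpos n Ω' (D0s a w)
  have n2 := NN_nonneg hpos n Ω' (D1 a w)
  have h1 : NN2 (fun _ => 1) n Ω' w
      ≤ NN2 (fun _ => 1) n Ω' w + NN (fun _ => 1) n Ω' (D0s a w)
        + NN (fun _ => 1) n Ω' (D1 a w) := by linarith
  refine h1.trans (key.trans ?_)
  have hc : 0 ≤ (C / s) ^ p := by positivity
  refine mul_le_mul_of_nonneg_left ?_ hc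
  have := Real.sqrt_le_sqrt hY
  linarith

end Pool.Agent.CR5
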