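import Pool.Agent.Lib.CR5.SpecG

/-!
# CR5, block G: the solution of the regularised equation
-/

open MeasureTheory Set Filter Topology
open scoped ENNReal ComplexConjugate

noncomputable section

namespace Pool.Agent.CR5

namespace GgSol

theorem term_nonneg (i : ℕ) (Φ : F2) : 0 ≤ (∫ x, sq i (Φ 0) x) + ∫ x, sq i (Φ 1) x :=
  add_nonneg (integral_nonneg fun _ => sq_nonneg' _ _ _) (integral_nonneg fun _ => sq_nonneg' _ _ _)

theorem Hs_mono (Φ : F2) {m n : ℕ} (h : m ≤ n) : Hs m Φ ≤ Hs n Φ := by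
  unfold Hs
  refine Finset.sum_le_sum_of_subset_of_nonneg ?_ fun i _ _ => term_nonneg i Φ
  intro i hi
  rw [Finset.mem_range] at hi ⊢
  omega

theorem Hs_nonneg (Φ : F2) (m : ℕ) : 0 ≤ Hs m Φ :=
  Finset.sum_nonneg fun i _ => term_nonneg i Φ

end GgSol

open GgSol

theorem pgSol : S_gSol := by
  rintro ⟨ε1, hε1, hEX⟩ ⟨ε2, hε2, C, hC, hLIN⟩
  refine ⟨min ε1 ε2, lt_min hε1 hε2, max C 1, le_max_right _ _, ?_⟩
  intro a ha Φ hΦ hΦ0 κ hκ hκ' e he he1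
  have h0 : 0 ≤ min ε1 ε2 := (lt_min hε1 hε2).le
  obtain ⟨w, hw, hE⟩ := hEX a (ha.monoG (by norm_num) h0 (min_le_left _ _)) Φ hΦ e he he1
  obtain ⟨h1, h2⟩ := hLIN a (ha.monoG le_rfl h0 (min_le_right _ _)) Φ hΦ hΦ0 e he he1 w hw hE κ
    hκ hκ'
  refine ⟨w, fun j => (hw j []).sm, hE, h1.trans ?_, h2.trans ?_⟩
  · exact mul_le_mul (le_max_left _ _) (Hs_mono Φ (by norm_num)) (Hs_nonneg _ _)
      (le_trans hC.le (le_max_left _ _))
  · have h3 : κ ^ 2 * Hs 1 Φ ≤ κ ^ 2 * Hs 2 Φ :=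
      mul_le_mul_of_nonneg_left (Hs_mono Φ (by norm_num)) (by positivity)
    have h4 : 0 ≤ ∫ x, ‖D1 a Φ x‖ ^ 2 := integral_nonneg fun _ => by positivity
    refine mul_le_mul (le_max_left _ _) (by linarith) ?_ (le_trans hC.le (le_max_left _ _))
    have h5 := Hs_nonneg Φ 1
    have h6 := Hs_nonneg Φ 2
    positivity

end Pool.Agent.CR5
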