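import Pool.Agent.Lib.CR5.SpecG

/-!
# CR5, block G, gSub: assembly of the substep
-/

set_option autoImplicit false

open MeasureTheory Set Filter Topology
open scoped ENNReal ComplexConjugate

noncomputable section

namespace Pool.Agent.CR5

namespace GgSub

theorem hyp_mono {a : Str} {h : ℕ → ℝ} {m : ℕ} {ε ε' lam R : ℝ} {F : Mp}
    (H : HypF a h m ε lam R F) (h0 : 0 ≤ ε) (hε : ε ≤ ε') : HypF a h m ε' lam R F :=
  ⟨H.sm, H.out, fun k i hi x => (H.c5 k i hi x).trans (pow_le_pow_left₀ h0 hε 2), H.nn, H.er⟩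

theorem powA {Z : ℝ} (hZ : 1 ≤ Z) {q P : ℕ} (h : q ≤ P) : Z ^ q ≤ Z ^ P :=
  pow_le_pow_right₀ hZ h

theorem big {Z : ℝ} (hZ : 1 ≤ Z) (P : ℕ) : 16 * Z ^ (P + 1) ≤ (16 * Z) ^ (P + 1) := by
  rw [mul_pow]
  refine mul_le_mul_of_nonneg_right ?_ (by positivity)
  calc (16 : ℝ) = 16 ^ 1 := by norm_num
    _ ≤ 16 ^ (P + 1) := pow_le_pow_right₀ (by norm_num) (by omega)

theorem numA {C₀ C₁ Z X : ℝ} {p₀ p₁ : ℕ} (h0 : 0 ≤ C₀ * X) (h1 : 0 ≤ C₁ * X)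
    (hZ : 1 ≤ Z) (k0 : C₀ * X ≤ Z) (k1 : C₁ * X ≤ Z) :
    (C₁ * X) ^ p₁ * (1 + (C₀ * X) ^ p₀) ≤ 2 * Z ^ (p₀ + p₁) := by
  have a0 : (C₀ * X) ^ p₀ ≤ Z ^ p₀ := pow_le_pow_left₀ h0 k0 _
  have a1 : (C₁ * X) ^ p₁ ≤ Z ^ p₁ := pow_le_pow_left₀ h1 k1 _
  have b0 : 1 ≤ Z ^ p₀ := one_le_pow₀ hZ
  calc (C₁ * X) ^ p₁ * (1 + (C₀ * X) ^ p₀) ≤ Z ^ p₁ * (2 * Z ^ p₀) :=
        mul_le_mul a1 (by linarith) (by positivity) (by positivity)
    _ = 2 * Z ^ (p₀ + p₁) := by rw [pow_add]; ring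

theorem numB {C₀ C₁ C₂ C₃ Z X : ℝ} {p₀ p₁ p₂ p₃ : ℕ} (hX : 1 ≤ X) (h0 : 0 ≤ C₀ * X)
    (h1 : 0 ≤ C₁ * X) (h2 : 0 ≤ C₂ * X) (h3 : 0 ≤ C₃ * X) (hZ : 1 ≤ Z) (kX : X ≤ Z)
    (k0 : C₀ * X ≤ Z) (k1 : C₁ * X ≤ Z) (k2 : C₂ * X ≤ Z) (k3 : C₃ * X ≤ Z) :
    (C₂ * X) ^ p₂ * (2 + (C₀ * X) ^ p₀) + 1 +
      6 * X * ((C₃ * X) ^ p₃ * ((C₁ * X) ^ p₁ * (1 + (C₀ * X) ^ p₀)))
      ≤ (16 * Z) ^ (p₀ + p₁ + p₂ + p₃ + 1) := by
  have hP : 0 < Z := by linarith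
  have hX0 : 0 ≤ X := by linarith
  have a0 : (C₀ * X) ^ p₀ ≤ Z ^ p₀ := pow_le_pow_left₀ h0 k0 _
  have a2 : (C₂ * X) ^ p₂ ≤ Z ^ p₂ := pow_le_pow_left₀ h2 k2 _
  have a3 : (C₃ * X) ^ p₃ ≤ Z ^ p₃ := pow_le_pow_left₀ h3 k3 _
  have b0 : 1 ≤ Z ^ p₀ := one_le_pow₀ hZ
  have t1 : (C₂ * X) ^ p₂ * (2 + (C₀ * X) ^ p₀) ≤ 3 * Z ^ (p₀ + p₂) := by
    calc (C₂ * X) ^ p₂ * (2 + (C₀ * X) ^ p₀) ≤ Z ^ p₂ * (3 * Z ^ p₀) :=
          mul_le_mul a2 (by linarith) (by positivity) (by positivity)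
      _ = 3 * Z ^ (p₀ + p₂) := by rw [pow_add]; ring
  have t2 : 6 * X * ((C₃ * X) ^ p₃ * ((C₁ * X) ^ p₁ * (1 + (C₀ * X) ^ p₀)))
      ≤ 12 * Z ^ (1 + p₃ + (p₀ + p₁)) := by
    have q1 := numA (p₀ := p₀) (p₁ := p₁) h0 h1 hZ k0 k1
    have q2 : (C₃ * X) ^ p₃ * ((C₁ * X) ^ p₁ * (1 + (C₀ * X) ^ p₀))
        ≤ Z ^ p₃ * (2 * Z ^ (p₀ + p₁)) := mul_le_mul a3 q1 (by positivity) (by positivity)
    calc 6 * X * ((C₃ * X) ^ p₃ * ((C₁ * X) ^ p₁ * (1 + (C₀ * X) ^ p₀)))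
        ≤ 6 * Z * (Z ^ p₃ * (2 * Z ^ (p₀ + p₁))) :=
          mul_le_mul (by linarith) q2 (by positivity) (by positivity)
      _ = 12 * Z ^ (1 + p₃ + (p₀ + p₁)) := by
        rw [pow_add Z (1 + p₃) (p₀ + p₁), pow_add Z 1 p₃, pow_one]; ring
  have u1 : Z ^ (p₀ + p₂) ≤ Z ^ (p₀ + p₁ + p₂ + p₃ + 1) := powA hZ (by omega)
  have u2 : Z ^ (1 + p₃ + (p₀ + p₁)) ≤ Z ^ (p₀ + p₁ + p₂ + p₃ + 1) := powA hZ (by omega)
  have u3 : 1 ≤ Z ^ (p₀ + p₁ + p₂ + p₃ + 1) := one_le_pow₀ hZ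
  have u4 := big hZ (p₀ + p₁ + p₂ + p₃)
  linarith

theorem numA' {C₀ C₁ Z X : ℝ} {p₀ p₁ p₂ p₃ : ℕ} (h0 : 0 ≤ C₀ * X) (h1 : 0 ≤ C₁ * X)
    (hZ : 1 ≤ Z) (k0 : C₀ * X ≤ Z) (k1 : C₁ * X ≤ Z) :
    (C₁ * X) ^ p₁ * (1 + (C₀ * X) ^ p₀) ≤ (16 * Z) ^ (p₀ + p₁ + p₂ + p₃ + 1) := by
  have q1 := numA (p₀ := p₀) (p₁ := p₁) h0 h1 hZ k0 k1
  have u1 : Z ^ (p₀ + p₁) ≤ Z ^ (p₀ + p₁ + p₂ + p₃ + 1) := powA hZ (by omega)
  have u4 := big hZ (p₀ + p₁ + p₂ + p₃)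
  have u5 : 0 ≤ Z ^ (p₀ + p₁ + p₂ + p₃ + 1) := by positivity
  linarith

/-- the product of the four constants dominates each of them -/
theorem prodC {C₀ C₁ C₂ C₃ X : ℝ} (h0 : 1 ≤ C₀) (h1 : 1 ≤ C₁) (h2 : 1 ≤ C₂) (h3 : 1 ≤ C₃)
    (hX : 1 ≤ X) : 1 ≤ C₀ * C₁ * C₂ * C₃ ∧ X ≤ C₀ * C₁ * C₂ * C₃ * X ∧
    C₀ * X ≤ C₀ * C₁ * C₂ * C₃ * X ∧ C₁ * X ≤ C₀ * C₁ * C₂ * C₃ * X ∧
    C₂ * X ≤ C₀ * C₁ * C₂ * C₃ * X ∧ C₃ * X ≤ C₀ * C₁ * C₂ * C₃ * X := by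
  have p0 : 0 ≤ C₀ := by linarith
  have p1 : 0 ≤ C₁ := by linarith
  have p2 : 0 ≤ C₂ := by linarith
  have p3 : 0 ≤ C₃ := by linarith
  have hX0 : 0 ≤ X := by linarith
  have q01 : 1 ≤ C₀ * C₁ := one_le_mul_of_one_le_of_one_le h0 h1
  have q012 : 1 ≤ C₀ * C₁ * C₂ := one_le_mul_of_one_le_of_one_le q01 h2
  have q : 1 ≤ C₀ * C₁ * C₂ * C₃ := one_le_mul_of_one_le_of_one_le q012 h3
  have r0 : C₀ ≤ C₀ * C₁ * C₂ * C₃ := by
    calc C₀ ≤ C₀ * C₁ := le_mul_of_one_le_right p0 h1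
      _ ≤ C₀ * C₁ * C₂ := le_mul_of_one_le_right (by positivity) h2
      _ ≤ C₀ * C₁ * C₂ * C₃ := le_mul_of_one_le_right (by positivity) h3
  have r1 : C₁ ≤ C₀ * C₁ * C₂ * C₃ := by
    calc C₁ ≤ C₀ * C₁ := le_mul_of_one_le_left p1 h0
      _ ≤ C₀ * C₁ * C₂ := le_mul_of_one_le_right (by positivity) h2
      _ ≤ C₀ * C₁ * C₂ * C₃ := le_mul_of_one_le_right (by positivity) h3
  have r2 : C₂ ≤ C₀ * C₁ * C₂ * C₃ := by
    calc C₂ ≤ C₀ * C₁ * C₂ := le_mul_of_one_le_left p2 q01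
      _ ≤ C₀ * C₁ * C₂ * C₃ := le_mul_of_one_le_right (by positivity) h3
  have r3 : C₃ ≤ C₀ * C₁ * C₂ * C₃ := le_mul_of_one_le_left p3 q012
  refine ⟨q, le_mul_of_one_le_left hX0 q, mul_le_mul_of_nonneg_right r0 hX0,
    mul_le_mul_of_nonneg_right r1 hX0, mul_le_mul_of_nonneg_right r2 hX0,
    mul_le_mul_of_nonneg_right r3 hX0⟩

/-- the final estimate of the new error -/
theorem fin1 {y G0 G1 V0 V1 e Q E T W L₀ κ A K c0 c2 c3 X : ℝ}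
    (hW : 0 ≤ W) (hE : 0 ≤ E) (hc2 : 0 ≤ c2) (hc3 : 0 ≤ c3)
    (hκ : 0 ≤ κ) (hκX : κ ≤ 3 * X) (he : 0 ≤ e) (hL : 0 ≤ L₀)
    (hV : V0 + V1 ≤ Q) (heQ : e * Q ≤ E * W)
    (hy : y ≤ c2 * (L₀ * W + e * Q + c0 * (E * W))) (hLE : L₀ ≤ E)
    (hA : A ≤ K * (T * W)) (hK : 0 ≤ K) {t : ℝ} (ht : 0 ≤ t) (htT : t * T ≤ E)
    (hG0 : G0 ≤ c3 * t * A) (hG1 : G1 ≤ c3 * t * A) :
    y + e * (V0 + V1) + κ * (G0 + G1) ≤ (c2 * (2 + c0) + 1 + 6 * X * (c3 * K)) * (E * W) := by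
  have hEW : 0 ≤ E * W := mul_nonneg hE hW
  have s1 : c2 * (L₀ * W + e * Q + c0 * (E * W)) ≤ c2 * ((2 + c0) * (E * W)) := by
    refine mul_le_mul_of_nonneg_left ?_ hc2
    have : L₀ * W ≤ E * W := mul_le_mul_of_nonneg_right hLE hW
    linarith
  have s2 : e * (V0 + V1) ≤ E * W := (mul_le_mul_of_nonneg_left hV he).trans heQ
  have s3 : c3 * t * A ≤ c3 * K * (E * W) := by
    have h1 : c3 * t * A ≤ c3 * t * (K * (T * W)) := mul_le_mul_of_nonneg_left hA (by positivity)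
    have h2 : c3 * t * (K * (T * W)) = c3 * K * (t * T * W) := by ring
    have h3 : t * T * W ≤ E * W := mul_le_mul_of_nonneg_right htT hW
    rw [h2] at h1
    exact h1.trans (mul_le_mul_of_nonneg_left h3 (by positivity))
  have s4 : κ * (G0 + G1) ≤ 3 * X * (2 * (c3 * K * (E * W))) := by
    have h1 : κ * (G0 + G1) ≤ κ * (2 * (c3 * K * (E * W))) :=
      mul_le_mul_of_nonneg_left (by linarith) hκ
    exact h1.trans (mul_le_mul_of_nonneg_right hκX (by positivity))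
  calc y + e * (V0 + V1) + κ * (G0 + G1)
      ≤ c2 * ((2 + c0) * (E * W)) + E * W + 3 * X * (2 * (c3 * K * (E * W))) := by linarith
    _ = (c2 * (2 + c0) + 1 + 6 * X * (c3 * K)) * (E * W) := by ring

end GgSub

open GgSub in
theorem pgSub : S_gSub := by
  intro hMix hIA hIY hIG hUeq hW0 hNum hLOC hLGW hEXPO hGEO hPR hgD1 hcKs hYeq
  obtain ⟨ε₁, hε₁, η₁, hη₁, C₀, p₀, hC₀, HM⟩ := hMix
  obtain ⟨ε₂, hε₂, η₂, hη₂, HA⟩ := hIA hLOC hLGW hEXPO hGEO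
  obtain ⟨ε₃, hε₃, η₃, hη₃, HY⟩ := hIY hLOC hLGW hPR hGEO hgD1 hcKs hYeq
  obtain ⟨η₄, hη₄, HG⟩ := hIG hLGW hPR hGEO
  have hε0 : 0 < min ε₁ (min ε₂ ε₃) := lt_min hε₁ (lt_min hε₂ hε₃)
  have hη0 : 0 < min (min η₁ η₂) (min η₃ η₄) := lt_min (lt_min hη₁ hη₂) (lt_min hη₃ hη₄)
  refine ⟨min ε₁ (min ε₂ ε₃), hε0, min (min η₁ η₂) (min η₃ η₄), hη0, fun m B => ?_⟩
  obtain ⟨C₁, p₁, hC₁, HA⟩ := HA m B
  obtain ⟨C₂, p₂, hC₂, HY⟩ := HY m B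
  obtain ⟨C₃, p₃, hC₃, HG⟩ := HG m
  have hprod1 : 1 ≤ C₀ * C₁ * C₂ * C₃ := (prodC hC₀ hC₁ hC₂ hC₃ le_rfl).1
  refine ⟨16 * (C₀ * C₁ * C₂ * C₃), p₀ + p₁ + p₂ + p₃ + 1, by linarith, ?_⟩
  intro a ha hB hkap h hA lam R δ hl hR1 hR2 hδ0 hδ1 F HF s hs0 hs1 hlog μ D ρ hm1 hm2 hD0 hD1 hDR
    hr1 hr2 E' hE' hD1E
  have P : Par lam R δ s μ D ρ :=
    ⟨hl, hR1, hR2, hδ0, hδ1, hs0, hs1, hm1, hm2, hD0, hD1, hDR, hr1, hr2⟩
  obtain ⟨n1, n2, n3, n4, n5, n6, n7⟩ := hNum lam R δ s μ D ρ P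
  have hsm : SmS a := ha.smS
  -- notation
  have eC : ∀ C : ℝ, C * lam / s = C * (lam / s) := fun C => mul_div_assoc C lam s
  simp only [eC] at hlog ⊢
  set X := lam / s with hX
  obtain ⟨-, kX, k0, k1, k2, k3⟩ := prodC hC₀ hC₁ hC₂ hC₃ n4
  set Z := C₀ * C₁ * C₂ * C₃ * X with hZdef
  have hX0 : 0 ≤ X := by linarith
  have hZ : 1 ≤ Z := n4.trans kX
  have g0 : 0 ≤ C₀ * X := by positivity
  have g1 : 0 ≤ C₁ * X := by positivity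
  have g2 : 0 ≤ C₂ * X := by positivity
  have g3 : 0 ≤ C₃ * X := by positivity
  have eZ : 16 * (C₀ * C₁ * C₂ * C₃) * X = 16 * Z := by rw [hZdef]; ring
  rw [eZ] at hlog ⊢
  have hρ : Dm F (ρ - s) ⊆ Dm F ρ := Dm_mono F (by linarith)
  have hΩ01 : Dm F (ρ - s) ⊆ Dm F (ρ - 3 / 4 * s) := Dm_mono F (by linarith)
  have hΩ02 : Dm F (ρ - s) ⊆ Dm F (ρ - s / 2) := Dm_mono F (by linarith)
  have ho := Dm_open HF.sm (ρ - s)
  have hnn : ∀ (Ω : Set E5) (f : E5 → ℂ), 0 ≤ NN h m Ω f := fun Ω f => NN_nonneg hA.pos m Ω f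
  have hWnn : 0 ≤ NN2 h m (Dm F ρ) (Ps μ F E') := add_nonneg (hnn _ _) (hnn _ _)
  show ∃ u : E5 → ℂ, Sm u ∧
    NN2 h m (Dm F (ρ - s)) (fun j x => ex (μ + D) F x * (E' j x - D0 a u j x))
      ≤ (16 * Z) ^ (p₀ + p₁ + p₂ + p₃ + 1) * Real.exp (-(D * (R - 5 * δ)))
        * NN2 h m (Dm F ρ) (Ps μ F E') ∧
    NN h m (Dm F (ρ - s)) (fun x => ex (μ + D) F x * u x)
      ≤ (16 * Z) ^ (p₀ + p₁ + p₂ + p₃ + 1) * Real.exp (D * R) * NN2 h m (Dm F ρ) (Ps μ F E')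
  by_cases hWz : NN2 h m (Dm F ρ) (Ps μ F E') = 0
  · -- the trivial case
    have hz : ∀ j, ∀ x ∈ Dm F ρ, E' j x = 0 := by
      intro j x hx
      have h0 : NN h m (Dm F ρ) (Ps μ F E' j) = 0 := by
        have h1 : NN h m (Dm F ρ) (Ps μ F E' 0) + NN h m (Dm F ρ) (Ps μ F E' 1) = 0 := hWz
        have h2 := hnn (Dm F ρ) (Ps μ F E' 0)
        have h3 := hnn (Dm F ρ) (Ps μ F E' 1)
        have h4 : j = 0 ∨ j = 1 := by
          revert j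
          decide
        rcases h4 with h4 | h4
        · rw [h4]
          linarith
        · rw [h4]
          linarith
      have h5 := hW0 h m (Dm F ρ) (Ps μ F E' j) hA.pos (Dm_open HF.sm ρ) (Dm_sub F ρ)
        ((ex_sm HF.sm μ).mul (hE' j)) h0 x hx
      have h6 : ex μ F x * E' j x = 0 := h5
      exact (mul_eq_zero.1 h6).resolve_left (ex_ne μ F x)
    refine ⟨fun _ => 0, Sm.const 0, ?_, ?_⟩
    · have e1 : ∀ j, NN h m (Dm F (ρ - s))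
          (fun x => ex (μ + D) F x * (E' j x - D0 a (fun _ => 0) j x)) = 0 := by
        intro j
        rw [NN_congr h m ho (g := fun _ => 0), NN_zero]
        intro x hx
        have h1 : D0 a (fun _ => 0) j x = 0 := L_const a 0 j x
        rw [h1, hz j x (hρ hx)]
        ring
      have e2 : NN2 h m (Dm F (ρ - s))
          (fun j x => ex (μ + D) F x * (E' j x - D0 a (fun _ => 0) j x)) = 0 := by
        show NN h m (Dm F (ρ - s)) (fun x => ex (μ + D) F x * (E' 0 x - D0 a (fun _ => 0) 0 x))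
          + NN h m (Dm F (ρ - s)) (fun x => ex (μ + D) F x * (E' 1 x - D0 a (fun _ => 0) 1 x)) = 0
        rw [e1 0, e1 1, add_zero]
      rw [e2, hWz, mul_zero]
    · have e1 : (fun x => ex (μ + D) F x * (fun _ => (0 : ℂ)) x) = fun _ => 0 := by
        funext x
        show ex (μ + D) F x * 0 = 0
        rw [mul_zero]
      rw [e1, NN_zero, hWz, mul_zero]
  · -- the main case
    have hWpos : 0 < NN2 h m (Dm F ρ) (Ps μ F E') := lt_of_le_of_ne hWnn (Ne.symm hWz)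
    have ha1 : Near a MM ε₁ := ha.monoG le_rfl hε0.le (min_le_left _ _)
    have h4M : 4 ≤ MM := by unfold MM; norm_num
    have ha2 : Near a 4 ε₂ := ha.monoG h4M hε0.le ((min_le_right _ _).trans (min_le_left _ _))
    have ha3 : Near a 4 ε₃ := ha.monoG h4M hε0.le ((min_le_right _ _).trans (min_le_right _ _))
    have hB4 : BdA a (m + 4) B := fun j l i hi x => hB j l i (by omega) x
    have HF1 := hyp_mono HF hη0.le ((min_le_left _ _).trans (min_le_left _ _))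
    have HF2 := hyp_mono HF hη0.le ((min_le_left _ _).trans (min_le_right _ _))
    have HF3 := hyp_mono HF hη0.le ((min_le_right _ _).trans (min_le_left _ _))
    have HF4 := hyp_mono HF hη0.le ((min_le_right _ _).trans (min_le_right _ _))
    have hlog0 : (p₀ : ℝ) * Real.log (C₀ * lam / s) ≤ lam * δ / 4 := by
      rw [eC]
      refine le_trans ?_ hlog
      have c1 : 1 ≤ C₀ * X := one_le_mul_of_one_le_of_one_le hC₀ n4
      have l0 : 0 ≤ Real.log (C₀ * X) := Real.log_nonneg c1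
      have l1 : Real.log (C₀ * X) ≤ Real.log (16 * Z) :=
        Real.log_le_log (by linarith) (by linarith)
      have l2 : (p₀ : ℝ) ≤ ((p₀ + p₁ + p₂ + p₃ + 1 : ℕ) : ℝ) := by
        exact_mod_cast (by omega : p₀ ≤ p₀ + p₁ + p₂ + p₃ + 1)
      exact mul_le_mul l2 l1 l0 (Nat.cast_nonneg _)
    obtain ⟨Φ, w, e, Q, hΦ, hw, he0, he1, hQ0, hΦeq, hBox, hI1, hI2, hV1, hV2, heQ⟩ :=
      HM a ha1 hkap h m hA lam R δ s μ D ρ F P HF1 hlog0 E' hE' hD1E hWpos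
    set W := NN2 h m (Dm F ρ) (Ps μ F E') with hWdef
    set T := Real.exp (D * R) with hT
    set E := Real.exp (-(D * (R - 5 * δ))) with hE
    have hT0 : 0 < T := Real.exp_pos _
    have hE0 : 0 < E := Real.exp_pos _
    have hY1 : 0 ≤ (C₀ * lam / s) ^ p₀ * (T * W) := by
      rw [eC]
      positivity
    have hY2 : 0 ≤ (C₀ * lam / s) ^ p₀ * (E * W) := by
      rw [eC]
      positivity
    have rA := HA a ha2 hB4 h hA lam R δ s μ D ρ F P HF2 E' Φ w e _ hE' hΦ hw he0 he1 hY1 hΦeq hBox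
      hI1
    have rY := HY a ha3 hB4 hkap h hA lam R δ s μ D ρ F P HF3 E' Φ w e _ Q hE' hΦ hw he0 he1 hY2 hQ0
      hD1E hΦeq hBox hI2 hV1
    have rG := HG a h hsm hA lam R δ s μ D ρ F P HF4 (D0s a w) (Sm.D0s hsm hw)
    rw [eC, eC] at rA rY
    simp only [eC] at rG
    have hK : 0 ≤ (C₁ * X) ^ p₁ * (1 + (C₀ * X) ^ p₀) := by positivity
    have rA' : NN h m (Dm F (ρ - 3 / 4 * s)) (D0s a w)
        ≤ (C₁ * X) ^ p₁ * (1 + (C₀ * X) ^ p₀) * (T * W) := by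
      refine rA.trans (le_of_eq ?_)
      ring
    have hsmA : Sm (D0s a w) := Sm.D0s hsm hw
    refine ⟨fun z => ex (-(μ + D)) F z * D0s a w z, (ex_sm HF.sm _).mul hsmA, ?_, ?_⟩
    · -- the new error
      have hκ : 0 ≤ μ + D := by linarith
      have hsm1 : ∀ j, Sm (D1s a (D1 a w) j) := fun j => Sm.D1s hsm (Sm.D1 hsm hw) j
      have hsm2 : ∀ j, Sm (fun x => w j x - pd 4 (pd 4 (w j)) x) := fun j =>
        (hw j).sub (((hw j).pd 4).pd 4)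
      have hsm3 : ∀ j, Sm (fun x => L a j (gam F) x * D0s a w x) := fun j =>
        (Sm.L hsm j (gam_sm HF.sm)).mul hsmA
      have hb := Dm_bdd F (ρ - s)
      have one : ∀ j, NN h m (Dm F (ρ - s)) (fun x => ex (μ + D) F x *
            (E' j x - D0 a (fun z => ex (-(μ + D)) F z * D0s a w z) j x))
          ≤ NN h m (Dm F (ρ - s)) (D1s a (D1 a w) j)
            + e * NN h m (Dm F (ρ - s)) (fun x => w j x - pd 4 (pd 4 (w j)) x)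
            + (μ + D) * NN h m (Dm F (ρ - s)) (fun x => L a j (gam F) x * D0s a w x) := by
        intro j
        rw [NN_congr h m ho (g := fun x => D1s a (D1 a w) j x
          + (e : ℂ) * (w j x - pd 4 (pd 4 (w j)) x)
          + Complex.I * ((μ + D : ℝ) : ℂ) * (L a j (gam F) x * D0s a w x))
          (fun x hx => (hUeq a F w Φ E' e μ D x hsm HF.sm hw (fun j => hΦeq j x (hΩ02 hx))
            (fun j => hBox j x (hΩ02 hx))).1 j)]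
        have m1 := NN_add_le hA.pos m hb ((hsm1 j).add ((Sm.const (e : ℂ)).mul (hsm2 j)))
          ((Sm.const (Complex.I * ((μ + D : ℝ) : ℂ))).mul (hsm3 j))
        have m2 := NN_add_le hA.pos m hb (hsm1 j) ((Sm.const (e : ℂ)).mul (hsm2 j))
        rw [NN_const_mul h m (Dm F (ρ - s)) (hsm3 j)] at m1
        rw [NN_const_mul h m (Dm F (ρ - s)) (hsm2 j)] at m2
        have c1 : ‖(e : ℂ)‖ = e := by
          rw [Complex.norm_real, Real.norm_eq_abs, abs_of_pos he0]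
        have c2 : ‖Complex.I * ((μ + D : ℝ) : ℂ)‖ = μ + D := by
          rw [norm_mul, Complex.norm_I, one_mul, Complex.norm_real, Real.norm_eq_abs,
            abs_of_nonneg hκ]
        rw [c2] at m1
        rw [c1] at m2
        exact m1.trans (add_le_add m2 le_rfl)
      have v0 : NN h m (Dm F (ρ - s)) (fun x => w 0 x - pd 4 (pd 4 (w 0)) x)
          + NN h m (Dm F (ρ - s)) (fun x => w 1 x - pd 4 (pd 4 (w 1)) x) ≤ Q := by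
        refine le_trans (add_le_add ?_ ?_) hV2
        · exact NN_mono hA.pos m hΩ01 (Dm_bdd F _) (hsm2 0)
        · exact NN_mono hA.pos m hΩ01 (Dm_bdd F _) (hsm2 1)
      have rY' : NN h m (Dm F (ρ - s)) (D1s a (D1 a w) 0)
          + NN h m (Dm F (ρ - s)) (D1s a (D1 a w) 1)
          ≤ (C₂ * X) ^ p₂ * (Real.exp (-(D * (R - δ)) - lam * δ) * W + e * Q
            + (C₀ * X) ^ p₀ * (E * W)) := rY
      have fin := fin1 (X := X) hWnn hE0.le (pow_nonneg g2 p₂) (pow_nonneg g3 p₃) hκ n6 he0.le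
        (Real.exp_pos _).le v0 heQ rY' n2 rA' hK (Real.exp_pos _).le n1 (rG 0) (rG 1)
      have hco := numB (p₀ := p₀) (p₁ := p₁) (p₂ := p₂) (p₃ := p₃) n4 g0 g1 g2 g3 hZ kX k0 k1 k2 k3
      have hEW : 0 ≤ E * W := mul_nonneg hE0.le hWnn
      have fin2 := mul_le_mul_of_nonneg_right hco hEW
      show NN h m (Dm F (ρ - s)) (fun x => ex (μ + D) F x *
            (E' 0 x - D0 a (fun z => ex (-(μ + D)) F z * D0s a w z) 0 x))
          + NN h m (Dm F (ρ - s)) (fun x => ex (μ + D) F x *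
            (E' 1 x - D0 a (fun z => ex (-(μ + D)) F z * D0s a w z) 1 x)) ≤ _
      have o0 := one 0
      have o1 := one 1
      have e3 : (16 * Z) ^ (p₀ + p₁ + p₂ + p₃ + 1) * E * W =
        (16 * Z) ^ (p₀ + p₁ + p₂ + p₃ + 1) * (E * W) := by ring
      rw [e3]
      refine le_trans ?_ fin2
      refine le_trans ?_ fin
      linarith
    · -- the bound of u
      have e1 : NN h m (Dm F (ρ - s)) (fun x => ex (μ + D) F x * (ex (-(μ + D)) F x * D0s a w x))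
          = NN h m (Dm F (ρ - s)) (D0s a w) :=
        NN_congr h m ho fun x hx => (hUeq a F w Φ E' e μ D x hsm HF.sm hw
          (fun j => hΦeq j x (hΩ02 hx)) (fun j => hBox j x (hΩ02 hx))).2
      show NN h m (Dm F (ρ - s)) (fun x => ex (μ + D) F x * (ex (-(μ + D)) F x * D0s a w x)) ≤ _
      rw [e1]
      have e2 := NN_mono hA.pos m hΩ01 (Dm_bdd F (ρ - 3 / 4 * s)) hsmA
      have hco := numA' (p₀ := p₀) (p₁ := p₁) (p₂ := p₂) (p₃ := p₃) g0 g1 hZ k0 k1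
      have hTW : 0 ≤ T * W := mul_nonneg hT0.le hWnn
      have fin2 := mul_le_mul_of_nonneg_right hco hTW
      have e3 : (16 * Z) ^ (p₀ + p₁ + p₂ + p₃ + 1) * T * W =
        (16 * Z) ^ (p₀ + p₁ + p₂ + p₃ + 1) * (T * W) := by ring
      rw [e3]
      exact e2.trans (rA'.trans fin2)

end Pool.Agent.CR5
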