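import Pool.Agent.Lib.CR5.SpecG

/-!
# CR5, block G: gUeq, the new error (helper6, after the docstring of helper55)
-/

open MeasureTheory Set Filter Topology
open scoped ENNReal ComplexConjugate

noncomputable section

namespace Pool.Agent.CR5

theorem pgUeq : S_gUeq := by
  intro a F w Φ E' e μ D x ha hF hw h1 h2
  have hA : Sm (D0s a w) := Sm.D0s ha hw
  have hn := ex_neg_mul (μ + D) F x
  have hL : ∀ j, D0 a (fun z => ex (-(μ + D)) F z * D0s a w z) j x
      = ex (-(μ + D)) F x * L a j (D0s a w) x
        + (Complex.I * ((-(μ + D) : ℝ) : ℂ) * ex (-(μ + D)) F x * L a j (gam F) x)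
          * D0s a w x := by
    intro j
    show L a j (fun z => ex (-(μ + D)) F z * D0s a w z) x = _
    rw [L_mul (ex_sm hF _) hA, L_ex hF]
  constructor
  · intro j
    have e1 : BoxE a e w j x = L a j (D0s a w) x + D1s a (D1 a w) j x
        + (e : ℂ) * (w j x - pd 4 (pd 4 (w j)) x) := rfl
    have h3 := h2 j
    rw [e1, h1 j] at h3
    rw [mul_sub, ← h3, hL j]
    push_cast
    linear_combination (-(L a j (D0s a w) x)
      + Complex.I * ((μ : ℂ) + (D : ℂ)) * L a j (gam F) x * D0s a w x) * hn
  · rw [← mul_assoc, mul_comm (ex (μ + D) F x), hn, one_mul]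

end Pool.Agent.CR5
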