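import Pool.Agent.Lib.CR5.SpecG

/-!
# CR5, block G: gW0, a vanishing weighted sum (helper77, after helper55's docstring)
-/

open MeasureTheory Set Filter Topology
open scoped ENNReal ComplexConjugate

noncomputable section

namespace Pool.Agent.CR5

theorem pgW0 : S_gW0 := by
  intro h m Ω f hpos hΩ hsub hf h0 x hx
  have hterm : h 0 * Real.sqrt (∫ x in Ω, sq 0 f x) = 0 := by
    unfold NN at h0
    have h1 := (Finset.sum_eq_zero_iff_of_nonneg (s := Finset.range (m + 1))
      (f := fun i => h i * Real.sqrt (∫ x in Ω, sq i f x))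
      (fun i _ => mul_nonneg (hpos i).le (Real.sqrt_nonneg _))).mp h0
    exact h1 0 (Finset.mem_range.mpr (by omega))
  have hsq : Real.sqrt (∫ x in Ω, sq 0 f x) = 0 := by
    rcases mul_eq_zero.mp hterm with h1 | h1
    · exact absurd h1 (hpos 0).ne'
    · exact h1
  have hcont : Continuous fun x => ‖f x‖ ^ 2 := (hf.cont.norm).pow 2
  have hnn : ∀ x, 0 ≤ ‖f x‖ ^ 2 := fun x => by positivity
  have hint0 : ∫ x in Ω, ‖f x‖ ^ 2 = 0 := by
    have h1 : ∫ x in Ω, ‖f x‖ ^ 2 ≤ 0 := Real.sqrt_eq_zero'.mp hsq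
    exact le_antisymm h1 (integral_nonneg hnn)
  have hion : IntegrableOn (fun x => ‖f x‖ ^ 2) Ω volume :=
    ((hcont.continuousOn).integrableOn_compact (isCompact_closedBall (0 : E5) 1)).mono_set
      (hsub.trans Metric.ball_subset_closedBall)
  have hae : (fun x => ‖f x‖ ^ 2) =ᵐ[volume.restrict Ω] fun _ => (0 : ℝ) :=
    (setIntegral_eq_zero_iff_of_nonneg_ae (ae_of_all _ hnn) hion).mp hint0
  have heq := Measure.eqOn_open_of_ae_eq hae hΩ hcont.continuousOn continuousOn_const
  have h2 : ‖f x‖ ^ 2 = 0 := heq hx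
  exact norm_eq_zero.mp (pow_eq_zero_iff (two_ne_zero) |>.mp h2)

end Pool.Agent.CR5
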