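import Pool.Agent.Lib.CR5.SpecG

/-!
# CR5, block G: gYeq, the equation for `D1* D1 w` (helper6, after the docstring of helper55)
-/

open MeasureTheory Set Filter Topology
open scoped ENNReal ComplexConjugate

noncomputable section

namespace Pool.Agent.CR5

namespace GgYeq

theorem db_congr {f g : E5 → ℂ} {x : E5} (l : Fin 3) (h : f =ᶠ[𝓝 x] g) : db l f x = db l g x := by
  have hp : ∀ i, pd i f x = pd i g x := fun i => (pd_congr h i).eq_of_nhds
  simp only [db, hp]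

end GgYeq

open GgYeq in
theorem pgYeq : S_gYeq := by
  intro hKs a U ha hU hk w Φ e hw hΦ hB j x hx
  have hA : Sm (D0s a w) := Sm.D0s ha hw
  have hv : Sm (D1 a w) := Sm.D1 ha hw
  have hg : ∀ j, Sm (fun z => w j z - pd 4 (pd 4 (w j)) z) := fun j =>
    (hw j).sub (((hw j).pd 4).pd 4)
  have z0 : ∀ z ∈ U, D0s a (D1s a (D1 a w)) z = 0 := by
    intro z hz
    rw [hKs a ha _ hv]
    show -∑ l, db l (fun y => conj (kap a l y) * D1 a w y) z = 0
    rw [neg_eq_zero]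
    refine Finset.sum_eq_zero fun l _ => ?_
    have hc : (fun y => conj (kap a l y) * D1 a w y) =ᶠ[𝓝 z] fun _ => 0 :=
      Filter.eventuallyEq_of_mem (hU.mem_nhds hz) fun y hy => by
        show conj (kap a l y) * D1 a w y = 0
        rw [hk l y hy, map_zero, zero_mul]
    rw [db_congr l hc, db_const]
  have e0 : D0s a (D1s a (D1 a w)) =ᶠ[𝓝 x] fun _ => 0 :=
    Filter.eventuallyEq_of_mem (hU.mem_nhds hx) z0
  have hyU : ∀ k, ∀ z ∈ U, D1s a (D1 a w) k z
      = Φ k z - L a k (D0s a w) z - (e : ℂ) * (w k z - pd 4 (pd 4 (w k)) z) := by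
    intro k z hz
    have h1 := hB k z hz
    have e1 : BoxE a e w k z = L a k (D0s a w) z + D1s a (D1 a w) k z
        + (e : ℂ) * (w k z - pd 4 (pd 4 (w k)) z) := rfl
    rw [e1] at h1
    linear_combination h1
  have hLy : ∀ i k, ∀ z ∈ U, L a i (D1s a (D1 a w) k) z
      = L a i (Φ k) z - L a i (L a k (D0s a w)) z
        - (e : ℂ) * L a i (fun z => w k z - pd 4 (pd 4 (w k)) z) z := by
    intro i k z hz
    have h1 : D1s a (D1 a w) k =ᶠ[𝓝 z] fun z => Φ k z - L a k (D0s a w) z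
        - (e : ℂ) * (w k z - pd 4 (pd 4 (w k)) z) :=
      Filter.eventuallyEq_of_mem (hU.mem_nhds hz) (hyU k)
    rw [L_congr i h1, L_sub ((hΦ k).sub (Sm.L ha k hA)) ((Sm.const _).mul (hg k)),
      L_sub (hΦ k) (Sm.L ha k hA), L_const_mul (hg k)]
  have hD1 : ∀ z ∈ U, D1 a (D1s a (D1 a w)) z
      = D1 a Φ z - (e : ℂ) * D1 a (fun j z => w j z - pd 4 (pd 4 (w j)) z) z := by
    intro z hz
    have k0 := D1_D0 ha hA z
    have k1 : Kap a (D0s a w) z = 0 := by
      show ∑ l, kap a l z * dz l (D0s a w) z = 0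
      exact Finset.sum_eq_zero fun l _ => by rw [hk l z hz, zero_mul]
    rw [k1] at k0
    have k2 : L a 0 (L a 1 (D0s a w)) z - L a 1 (L a 0 (D0s a w)) z = 0 := k0
    show L a 0 (D1s a (D1 a w) 1) z - L a 1 (D1s a (D1 a w) 0) z
      = (L a 0 (Φ 1) z - L a 1 (Φ 0) z)
        - (e : ℂ) * (L a 0 (fun z => w 1 z - pd 4 (pd 4 (w 1)) z) z
          - L a 1 (fun z => w 0 z - pd 4 (pd 4 (w 0)) z) z)
    rw [hLy 0 1 z hz, hLy 1 0 z hz]
    linear_combination -k2
  have e1 : D1 a (D1s a (D1 a w)) =ᶠ[𝓝 x]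
      fun z => D1 a Φ z - (e : ℂ) * D1 a (fun j z => w j z - pd 4 (pd 4 (w j)) z) z :=
    Filter.eventuallyEq_of_mem (hU.mem_nhds hx) hD1
  have e2 : D1s a (D1 a (D1s a (D1 a w))) j x
      = D1s a (fun z => D1 a Φ z
          - (e : ℂ) * D1 a (fun j z => w j z - pd 4 (pd 4 (w j)) z) z) j x := by
    show (if j = 0 then -Ls a 1 (D1 a (D1s a (D1 a w))) x else Ls a 0 (D1 a (D1s a (D1 a w))) x)
      = (if j = 0 then -Ls a 1 (fun z => D1 a Φ z
          - (e : ℂ) * D1 a (fun j z => w j z - pd 4 (pd 4 (w j)) z) z) x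
        else Ls a 0 (fun z => D1 a Φ z
          - (e : ℂ) * D1 a (fun j z => w j z - pd 4 (pd 4 (w j)) z) z) x)
    rw [Ls_congr (a := a) (b := a) 1 e1 (fun l => EventuallyEq.refl _ _),
      Ls_congr (a := a) (b := a) 0 e1 (fun l => EventuallyEq.refl _ _)]
  have e3 : D0 a (fun _ => 0) j x = 0 := L_const a 0 j x
  have e4 : BoxE a 0 (D1s a (D1 a w)) j x = L a j (D0s a (D1s a (D1 a w))) x
      + D1s a (D1 a (D1s a (D1 a w))) j x
      + ((0 : ℝ) : ℂ) * (D1s a (D1 a w) j x - pd 4 (pd 4 (D1s a (D1 a w) j)) x) := rfl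
  rw [e4, L_congr j e0, L_const, e2, e3]
  push_cast
  ring

end Pool.Agent.CR5
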