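import Pool.Agent.Lib.CR5.BasicG
import Pool.Agent.Lib.CR5.SpecF

/-!
# CR5, block G: the glued structure, part A: the Jacobian matrix and its inverse (helper73)
-/

open MeasureTheory Set Filter Topology
open scoped ENNReal ComplexConjugate

noncomputable section

namespace Pool.Agent.CR5

namespace Stsx

/-- entries of the Jacobian matrix -/
def nf (F : Mp) (k l : Fin 3) : E5 → ℂ := dz l (F k)

/-- cofactors -/
def cof (F : Mp) (l k : Fin 3) : E5 → ℂ := fun x =>
  nf F (k + 1) (l + 1) x * nf F (k + 2) (l + 2) x - nf F (k + 1) (l + 2) x * nf F (k + 2) (l + 1) x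

/-- the determinant -/
def dt (F : Mp) : E5 → ℂ := fun x => ∑ l, nf F 0 l x * cof F l 0 x

/-- the inverse matrix -/
def gi (F : Mp) (l k : Fin 3) : E5 → ℂ := fun x => cof F l k x * (1 / dt F x)

theorem mul_cof (F : Mp) (k k' : Fin 3) (x : E5) :
    ∑ l, nf F k' l x * cof F l k x = if k' = k then dt F x else 0 := by
  fin_cases k <;> fin_cases k' <;> simp [Fin.sum_univ_three, dt, cof] <;> ring

theorem cof_mul (F : Mp) (l l' : Fin 3) (x : E5) :
    ∑ k, cof F l k x * nf F k l' x = if l = l' then dt F x else 0 := by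
  fin_cases l <;> fin_cases l' <;> simp [Fin.sum_univ_three, dt, cof] <;> ring

theorem mul_gi {F : Mp} {x : E5} (h : dt F x ≠ 0) (k k' : Fin 3) :
    ∑ l, nf F k' l x * gi F l k x = if k' = k then 1 else 0 := by
  have h1 := mul_cof F k k' x
  have h2 : ∑ l, nf F k' l x * gi F l k x = (∑ l, nf F k' l x * cof F l k x) * (1 / dt F x) := by
    rw [Finset.sum_mul]
    refine Finset.sum_congr rfl fun l _ => ?_
    unfold gi
    ring
  rw [h2, h1]
  split_ifs
  · field_simp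
  · ring

theorem gi_mul {F : Mp} {x : E5} (h : dt F x ≠ 0) (l l' : Fin 3) :
    ∑ k, gi F l k x * nf F k l' x = if l = l' then 1 else 0 := by
  have h1 := cof_mul F l l' x
  have h2 : ∑ k, gi F l k x * nf F k l' x = (∑ k, cof F l k x * nf F k l' x) * (1 / dt F x) := by
    rw [Finset.sum_mul]
    refine Finset.sum_congr rfl fun k _ => ?_
    unfold gi
    ring
  rw [h2, h1]
  split_ifs
  · field_simp
  · ring

/-- from a linear system -/
theorem solve {F : Mp} {x : E5} (h : dt F x ≠ 0) (c : Fin 3 → ℂ) (l : Fin 3) :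
    ∑ k, gi F l k x * ∑ l', c l' * nf F k l' x = c l := by
  have h1 : ∀ k, gi F l k x * ∑ l', c l' * nf F k l' x
      = ∑ l', c l' * (gi F l k x * nf F k l' x) := by
    intro k
    rw [Finset.mul_sum]
    refine Finset.sum_congr rfl fun l' _ => ?_
    ring
  rw [Finset.sum_congr rfl fun k _ => h1 k, Finset.sum_comm]
  simp only [← Finset.mul_sum, gi_mul h]
  simp

theorem sm_nf {F : Mp} (hF : ∀ k, Sm (F k)) (k l : Fin 3) : Sm (nf F k l) := (hF k).dz l

theorem sm_cof {F : Mp} (hF : ∀ k, Sm (F k)) (l k : Fin 3) : Sm (cof F l k) :=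
  ((sm_nf hF _ _).mul (sm_nf hF _ _)).sub ((sm_nf hF _ _).mul (sm_nf hF _ _))

theorem sm_dt {F : Mp} (hF : ∀ k, Sm (F k)) : Sm (dt F) :=
  Sm.sum _ fun l _ => (sm_nf hF 0 l).mul (sm_cof hF l 0)

theorem sm_inv' {g : E5 → ℂ} (hg : Sm g) (h0 : ∀ y, g y ≠ 0) : Sm fun y => 1 / g y := by
  have h : Sm fun y => (g y)⁻¹ := ContDiff.inv hg h0
  simpa only [one_div] using h

theorem sm_gi {F : Mp} (hF : ∀ k, Sm (F k)) (h0 : ∀ y, dt F y ≠ 0) (l k : Fin 3) :
    Sm (gi F l k) := (sm_cof hF l k).mul (sm_inv' (sm_dt hF) h0)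

/-! ### the standard map -/

theorem pd_zc0 (k : Fin 5) (x : E5) :
    pd k (zc 0) x = if k = 0 then 1 else if k = 1 then Complex.I else 0 := by
  have e : zc 0 = fun y => ((y 0 : ℝ) : ℂ) + Complex.I * ((y 1 : ℝ) : ℂ) := by
    funext y; simp [zc]
  rw [e, pd_add (Sm.coord 0) ((Sm.const _).mul (Sm.coord 1)), pd_const_mul (Sm.coord 1),
    pd_coordC, pd_coordC]
  fin_cases k <;> simp

theorem pd_zc1 (k : Fin 5) (x : E5) :
    pd k (zc 1) x = if k = 2 then 1 else if k = 3 then Complex.I else 0 := by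
  have e : zc 1 = fun y => ((y 2 : ℝ) : ℂ) + Complex.I * ((y 3 : ℝ) : ℂ) := by
    funext y; simp [zc]
  rw [e, pd_add (Sm.coord 2) ((Sm.const _).mul (Sm.coord 3)), pd_const_mul (Sm.coord 3),
    pd_coordC, pd_coordC]
  fin_cases k <;> simp

theorem F0_0 : F0 0 = zc 0 := by funext x; simp [F0]

theorem F0_1 : F0 1 = zc 1 := by funext x; simp [F0]

theorem F0_2 : F0 2 = fun x => ((x 4 : ℝ) : ℂ) + Complex.I *
    ((((x 0 : ℝ) : ℂ) * ((x 0 : ℝ) : ℂ) + ((x 1 : ℝ) : ℂ) * ((x 1 : ℝ) : ℂ))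
      + (((x 2 : ℝ) : ℂ) * ((x 2 : ℝ) : ℂ) + ((x 3 : ℝ) : ℂ) * ((x 3 : ℝ) : ℂ))) := by
  funext x
  simp [F0, zz]
  ring

theorem pd_F02 (k : Fin 5) (x : E5) :
    pd k (F0 2) x = if k = 4 then 1 else Complex.I * (2 * ((x k : ℝ) : ℂ)) := by
  have s : ∀ i : Fin 5, Sm (fun x : E5 => ((x i : ℝ) : ℂ) * ((x i : ℝ) : ℂ)) := fun i =>
    (Sm.coord i).mul (Sm.coord i)
  rw [F0_2, pd_add (Sm.coord 4) ((Sm.const _).mul (((s 0).add (s 1)).add ((s 2).add (s 3)))),
    pd_const_mul (((s 0).add (s 1)).add ((s 2).add (s 3))),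
    pd_add ((s 0).add (s 1)) ((s 2).add (s 3)), pd_add (s 0) (s 1), pd_add (s 2) (s 3),
    pd_mul (Sm.coord 0) (Sm.coord 0), pd_mul (Sm.coord 1) (Sm.coord 1),
    pd_mul (Sm.coord 2) (Sm.coord 2), pd_mul (Sm.coord 3) (Sm.coord 3)]
  simp only [pd_coordC]
  fin_cases k <;> simp <;> ring

theorem nf0 (k l : Fin 3) (x : E5) : nf F0 k l x = if k = 0 then (if l = 0 then 1 else 0)
    else if k = 1 then (if l = 1 then 1 else 0)
    else (if l = 0 then Complex.I * conj (zc 0 x) else if l = 1 then Complex.I * conj (zc 1 x)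
      else 1) := by
  unfold nf
  rcases fin3_cases k with rfl | rfl | rfl
  · rw [F0_0]
    rcases fin3_cases l with rfl | rfl | rfl
    · rw [dz_zero, pd_zc0, pd_zc0]; simp
    · rw [dz_one, pd_zc0, pd_zc0]; simp
    · rw [dz_two, pd_zc0]; simp
  · rw [F0_1]
    rcases fin3_cases l with rfl | rfl | rfl
    · rw [dz_zero, pd_zc1, pd_zc1]; simp
    · rw [dz_one, pd_zc1, pd_zc1]; simp
    · rw [dz_two, pd_zc1]; simp
  · rcases fin3_cases l with rfl | rfl | rfl
    · rw [dz_zero, pd_F02, pd_F02]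
      simp [zc]
      ring
    · rw [dz_one, pd_F02, pd_F02]
      simp [zc]
      ring
    · rw [dz_two, pd_F02]; simp

theorem dt0 (x : E5) : dt F0 x = 1 := by
  unfold dt cof
  simp only [nf0]
  simp [Fin.sum_univ_three]

theorem L0_F0 (j : Fin 2) (k : Fin 3) (x : E5) : L a0 j (F0 k) x = 0 := by
  unfold L a0
  rw [Fin.sum_univ_three]
  rcases fin3_cases k with rfl | rfl | rfl
  · rw [F0_0]
    fin_cases j
    · simp [db_zero, dz_two, pd_zc0]
    · simp [db_one, dz_two, pd_zc0]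
  · rw [F0_1]
    fin_cases j
    · simp [db_zero, dz_two, pd_zc1]
    · simp [db_one, dz_two, pd_zc1]
  · fin_cases j
    · simp [db_zero, dz_two, pd_F02, zc]
      ring
    · simp [db_one, dz_two, pd_F02, zc]
      ring

end Stsx

end Pool.Agent.CR5
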