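import Pool.Agent.Lib.CR5.SpecG1

/-!
# CR5, G/ELP: pointwise bounds of the error `E`
-/

open MeasureTheory Set Filter Topology
open scoped ENNReal ComplexConjugate

noncomputable section

namespace Pool.Agent.CR5

namespace GELPAux

/-- Constants. -/
theorem consts {c C0 C1 lam δ : ℝ} (p : ℕ) (hc : 1 ≤ c) (hC0 : 1 ≤ C0) (hC1 : 1 ≤ C1)
    (hlam : 1 ≤ lam) (hδ : 0 < δ) (hδ1 : δ ≤ 1) :
    c * (C0 * lam) ^ 4 * (4 * C1 / δ) ^ p ≤ (c * (C0 * (4 * C1)) * lam / δ) ^ (p + 5) := by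
  have h4 : 1 ≤ 4 * C1 := by linarith
  have hD : 1 ≤ C0 * (4 * C1) := one_le_mul_of_one_le_of_one_le hC0 h4
  obtain ⟨C, hC⟩ : ∃ C, C = c * (C0 * (4 * C1)) := ⟨_, rfl⟩
  have a1 : c ≤ C := by
    rw [hC]
    exact le_mul_of_one_le_right (by linarith) hD
  have a2 : C0 * (4 * C1) ≤ C := by
    rw [hC]
    exact le_mul_of_one_le_left (by linarith) hc
  have a3 : C0 ≤ C := le_trans (le_mul_of_one_le_right (by linarith) h4) a2
  have a4 : 4 * C1 ≤ C := le_trans (le_mul_of_one_le_left (by linarith) hC0) a2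
  have hC1' : 1 ≤ C := by linarith
  have hCl : C ≤ C * lam := le_mul_of_one_le_right (by linarith) hlam
  have hCld : C * lam ≤ C * lam / δ := by
    rw [le_div_iff₀ hδ]
    have : 0 ≤ C * lam := by linarith
    nlinarith
  have b1 : c ≤ C * lam / δ := by linarith
  have b2 : (C0 * lam) ^ 4 ≤ (C * lam / δ) ^ 4 := by
    refine pow_le_pow_left₀ (by positivity) ?_ 4
    have : C0 * lam ≤ C * lam := mul_le_mul_of_nonneg_right a3 (by linarith)
    linarith
  have b3 : (4 * C1 / δ) ^ p ≤ (C * lam / δ) ^ p := by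
    refine pow_le_pow_left₀ (by positivity) ?_ p
    refine div_le_div_of_nonneg_right ?_ hδ.le
    linarith
  rw [← hC]
  have hX : 0 ≤ C * lam / δ := by linarith
  calc c * (C0 * lam) ^ 4 * (4 * C1 / δ) ^ p
      ≤ (C * lam / δ) * (C * lam / δ) ^ 4 * (C * lam / δ) ^ p := by
        refine mul_le_mul (mul_le_mul b1 b2 (by positivity) hX) b3 (by positivity) (by positivity)
    _ = (C * lam / δ) ^ (p + 5) := by ring

end GELPAux

open GELPAux in
theorem pELP : R_ELP := by
  intro hG hS hE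
  obtain ⟨ε1, hε1, C0, hC0, hG⟩ := hG
  obtain ⟨C1, p1, hC1, hS⟩ := hS
  obtain ⟨C2, hC2, hE⟩ := hE 4
  have hcm := cmG_one_le 4
  have hc : 1 ≤ cmG 4 * 6 * C2 := by
    have h1 : 1 ≤ cmG 4 * 6 := by linarith
    exact one_le_mul_of_one_le_of_one_le h1 hC2
  have hD : 1 ≤ C0 * (4 * C1) := one_le_mul_of_one_le_of_one_le hC0 (by linarith)
  refine ⟨ε1, hε1, cmG 4 * 6 * C2 * (C0 * (4 * C1)), p1 + 5,
    one_le_mul_of_one_le_of_one_le hc hD, ?_⟩
  intro a h m lam R δ F ha hh hlam hR1 hR2 hδ hδ1 H j k i hi x hx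
  obtain ⟨-, -, -, g4, -, g6⟩ := hG F H.fc
  have hm : 10 ≤ m := hh.big
  have hgs : Sm (fun y => ex lam F y * EF a F j k y) :=
    (ex_sm H.sm lam).mul ((H.sm k).L ha j)
  have hinn : Metric.ball x (δ / 4) ⊆ Dm F R := by
    have h1 := g4 R (R - δ) (by linarith) hR2 x hx
    have h2 : (R - (R - δ)) / 4 = δ / 4 := by ring
    rw [h2] at h1
    exact h1
  have hxb : x ∈ Metric.ball (0 : E5) 1 := Dm_sub F _ hx
  have hint : ∀ n, n ≤ 9 → Real.sqrt (∫ y in Metric.ball x (δ / 4),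
      sq n (fun y => ex lam F y * EF a F j k y) y) ≤ Real.exp (-(lam * R)) := by
    intro n hn
    have h1 : ∫ y in Metric.ball x (δ / 4), sq n (fun y => ex lam F y * EF a F j k y) y
        ≤ ∫ y in Dm F R, sq n (fun y => ex lam F y * EF a F j k y) y :=
      setIntegral_mono_set (intOn_sq n hgs (Dm_bdd F R))
        (Eventually.of_forall fun y => sq_nonneg' n _ y) (LE.le.eventuallyLE hinn)
    have h2 := NN_term hh.pos (show n ≤ m by omega) (Dm F R)
      (fun y => ex lam F y * EF a F j k y)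
    rw [hh.one n (show n ≤ 10 by omega), one_mul] at h2
    exact (Real.sqrt_le_sqrt h1).trans (h2.trans (H.er j k))
  obtain ⟨A, hA⟩ : ∃ A, A = (4 * C1 / δ) ^ p1 * (6 * Real.exp (-(lam * R))) := ⟨_, rfl⟩
  have hA0 : 0 ≤ A := by
    rw [hA]
    positivity
  have hg : ∀ n ≤ 4, sq n (fun y => ex lam F y * EF a F j k y) x ≤ A ^ 2 := by
    intro n hn
    have h1 := hS (fun y => ex lam F y * EF a F j k y) n x (δ / 4) hgs (by linarith)
      (by linarith)
    have h2 : ∑ q ∈ Finset.range 6, Real.sqrt (∫ y in Metric.ball x (δ / 4),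
        sq (n + q) (fun y => ex lam F y * EF a F j k y) y) ≤ 6 * Real.exp (-(lam * R)) := by
      have h3 : ∑ q ∈ Finset.range 6, Real.sqrt (∫ y in Metric.ball x (δ / 4),
          sq (n + q) (fun y => ex lam F y * EF a F j k y) y)
          ≤ ∑ _q ∈ Finset.range 6, Real.exp (-(lam * R)) := by
        refine Finset.sum_le_sum fun q hq => ?_
        have := Finset.mem_range.1 hq
        exact hint (n + q) (by omega)
      rw [Finset.sum_const, Finset.card_range, nsmul_eq_mul] at h3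
      exact_mod_cast h3
    have h4 : C1 / (δ / 4) = 4 * C1 / δ := by
      field_simp
    rw [h4] at h1
    have h5 : Real.sqrt (sq n (fun y => ex lam F y * EF a F j k y) x) ≤ A := by
      rw [hA]
      exact h1.trans (mul_le_mul_of_nonneg_left h2 (by positivity))
    rwa [Real.sqrt_le_left hA0] at h5
  -- the exponential
  obtain ⟨r, hr⟩ : ∃ r, r = (gam F x).im := ⟨_, rfl⟩
  have hB1 : 1 ≤ C0 * lam := one_le_mul_of_one_le_of_one_le hC0 hlam
  have hφs : Sm (fun y => Complex.I * ((-lam : ℝ) : ℂ) * gam F y) :=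
    (Sm.const _).mul (gam_sm H.sm)
  have hφ : ∀ n, 1 ≤ n → n ≤ 4 →
      sq n (fun y => Complex.I * ((-lam : ℝ) : ℂ) * gam F y) x ≤ (C0 * lam) ^ 2 := by
    intro n _ hn
    have e1 := sq_const_mul n (gam_sm H.sm) (Complex.I * ((-lam : ℝ) : ℂ)) x
    have e2 := g6 n (by omega) x hxb
    have e3 : ‖Complex.I * ((-lam : ℝ) : ℂ)‖ = lam := by
      rw [norm_mul, Complex.norm_I, Complex.norm_real, one_mul, Real.norm_eq_abs, abs_neg,
        abs_of_pos (by linarith)]
    rw [e1, e3]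
    calc lam ^ 2 * sq n (gam F) x ≤ lam ^ 2 * C0 ^ 2 :=
          mul_le_mul_of_nonneg_left e2 (by positivity)
      _ = (C0 * lam) ^ 2 := by ring
  have hexp : ∀ n ≤ 4, sq n (ex (-lam) F) x
      ≤ (C2 * (C0 * lam) ^ 4 * Real.exp (lam * r)) ^ 2 := by
    intro n hn
    have e1 := hE (fun y => Complex.I * ((-lam : ℝ) : ℂ) * gam F y) hφs x (C0 * lam) hB1 hφ n hn
    have e2 : ‖Complex.exp (Complex.I * ((-lam : ℝ) : ℂ) * gam F x)‖ = Real.exp (lam * r) := by
      have := ex_norm (-lam) F x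
      unfold ex at this
      rw [this, hr]
      congr 1
      ring
    have e3 : sq n (ex (-lam) F) x
        = sq n (fun y => Complex.exp (Complex.I * ((-lam : ℝ) : ℂ) * gam F y)) x := rfl
    rw [e3]
    refine e1.trans ?_
    rw [e2]
    refine pow_le_pow_left₀ (by positivity) ?_ 2
    refine mul_le_mul_of_nonneg_right ?_ (Real.exp_pos _).le
    refine mul_le_mul_of_nonneg_left ?_ (by linarith)
    exact pow_le_pow_right₀ hB1 hn
  have hE2 : EF a F j k = fun y => ex (-lam) F y * (ex lam F y * EF a F j k y) := by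
    funext y
    rw [← mul_assoc, ex_neg_mul, one_mul]
  have hmain := sq_mul_le_cm 4 (ex_sm H.sm (-lam)) hgs x hexp hg i hi
  rw [hE2]
  refine hmain.trans ?_
  refine pow_le_pow_left₀ (by positivity) ?_ 2
  have hk := consts p1 hc hC0 hC1 hlam hδ (by linarith : δ ≤ 1)
  have he : Real.exp (lam * r) * Real.exp (-(lam * R)) = Real.exp (-(lam * (R - r))) := by
    rw [← Real.exp_add]
    congr 1
    ring
  rw [← hr]
  calc cmG 4 * (C2 * (C0 * lam) ^ 4 * Real.exp (lam * r)) * A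
      = cmG 4 * 6 * C2 * (C0 * lam) ^ 4 * (4 * C1 / δ) ^ p1
        * (Real.exp (lam * r) * Real.exp (-(lam * R))) := by
        rw [hA]
        ring
    _ = cmG 4 * 6 * C2 * (C0 * lam) ^ 4 * (4 * C1 / δ) ^ p1
        * Real.exp (-(lam * (R - r))) := by rw [he]
    _ ≤ (cmG 4 * 6 * C2 * (C0 * (4 * C1)) * lam / δ) ^ (p1 + 5)
        * Real.exp (-(lam * (R - r))) :=
        mul_le_mul_of_nonneg_right hk (Real.exp_pos _).le

end Pool.Agent.CR5
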