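import Pool.Agent.Lib.CR5.G.StsA

/-!
# CR5, block G: the glued structure, part B: bounds and algebra (helper73)
-/

open MeasureTheory Set Filter Topology
open scoped ENNReal ComplexConjugate

noncomputable section

namespace Pool.Agent.CR5

namespace Stsx

/-- difference of two triple products -/
theorem prod3 {K η : ℝ} (hK : 0 ≤ K) {a b c a' b' c' : ℂ} (hb : ‖b‖ ≤ K)
    (hc : ‖c‖ ≤ K) (ha' : ‖a'‖ ≤ K) (hb' : ‖b'‖ ≤ K) (h1 : ‖a - a'‖ ≤ η) (h2 : ‖b - b'‖ ≤ η)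
    (h3 : ‖c - c'‖ ≤ η) : ‖a * b * c - a' * b' * c'‖ ≤ 3 * K ^ 2 * η := by
  have hη : 0 ≤ η := (norm_nonneg _).trans h1
  have e : a * b * c - a' * b' * c' = (a - a') * b * c + a' * (b - b') * c
      + a' * b' * (c - c') := by ring
  rw [e]
  have t1 : ‖(a - a') * b * c‖ ≤ η * K * K := by
    rw [norm_mul, norm_mul]
    gcongr
  have t2 : ‖a' * (b - b') * c‖ ≤ K * η * K := by
    rw [norm_mul, norm_mul]
    gcongr
  have t3 : ‖a' * b' * (c - c')‖ ≤ K * K * η := by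
    rw [norm_mul, norm_mul]
    gcongr
  calc _ ≤ ‖(a - a') * b * c‖ + ‖a' * (b - b') * c‖ + ‖a' * b' * (c - c')‖ := norm_add₃_le
    _ ≤ η * K * K + K * η * K + K * K * η := add_le_add (add_le_add t1 t2) t3
    _ = 3 * K ^ 2 * η := by ring

theorem dt_eq (F : Mp) (x : E5) : dt F x
    = nf F 0 0 x * nf F 1 1 x * nf F 2 2 x - nf F 0 0 x * nf F 1 2 x * nf F 2 1 x
      + nf F 0 1 x * nf F 1 2 x * nf F 2 0 x - nf F 0 1 x * nf F 1 0 x * nf F 2 2 x
      + nf F 0 2 x * nf F 1 0 x * nf F 2 1 x - nf F 0 2 x * nf F 1 1 x * nf F 2 0 x := by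
  simp [dt, cof, Fin.sum_univ_three]
  ring

theorem dt_diff {F G : Mp} {x : E5} {K η : ℝ} (hK : 0 ≤ K) (h1 : ∀ k l, ‖nf F k l x‖ ≤ K)
    (h2 : ∀ k l, ‖nf G k l x‖ ≤ K) (h3 : ∀ k l, ‖nf F k l x - nf G k l x‖ ≤ η) :
    ‖dt F x - dt G x‖ ≤ 18 * K ^ 2 * η := by
  have p : ∀ i j k : Fin 3, ‖nf F 0 i x * nf F 1 j x * nf F 2 k x
      - nf G 0 i x * nf G 1 j x * nf G 2 k x‖ ≤ 3 * K ^ 2 * η := fun i j k =>
    prod3 hK (h1 _ _) (h1 _ _) (h2 _ _) (h2 _ _) (h3 _ _) (h3 _ _) (h3 _ _)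
  rw [dt_eq, dt_eq]
  have e : (nf F 0 0 x * nf F 1 1 x * nf F 2 2 x - nf F 0 0 x * nf F 1 2 x * nf F 2 1 x
      + nf F 0 1 x * nf F 1 2 x * nf F 2 0 x - nf F 0 1 x * nf F 1 0 x * nf F 2 2 x
      + nf F 0 2 x * nf F 1 0 x * nf F 2 1 x - nf F 0 2 x * nf F 1 1 x * nf F 2 0 x)
      - (nf G 0 0 x * nf G 1 1 x * nf G 2 2 x - nf G 0 0 x * nf G 1 2 x * nf G 2 1 x
      + nf G 0 1 x * nf G 1 2 x * nf G 2 0 x - nf G 0 1 x * nf G 1 0 x * nf G 2 2 x
      + nf G 0 2 x * nf G 1 0 x * nf G 2 1 x - nf G 0 2 x * nf G 1 1 x * nf G 2 0 x)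
      = ((nf F 0 0 x * nf F 1 1 x * nf F 2 2 x - nf G 0 0 x * nf G 1 1 x * nf G 2 2 x)
        - (nf F 0 0 x * nf F 1 2 x * nf F 2 1 x - nf G 0 0 x * nf G 1 2 x * nf G 2 1 x))
      + ((nf F 0 1 x * nf F 1 2 x * nf F 2 0 x - nf G 0 1 x * nf G 1 2 x * nf G 2 0 x)
        - (nf F 0 1 x * nf F 1 0 x * nf F 2 2 x - nf G 0 1 x * nf G 1 0 x * nf G 2 2 x))
      + ((nf F 0 2 x * nf F 1 0 x * nf F 2 1 x - nf G 0 2 x * nf G 1 0 x * nf G 2 1 x)
        - (nf F 0 2 x * nf F 1 1 x * nf F 2 0 x - nf G 0 2 x * nf G 1 1 x * nf G 2 0 x)) := by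
    ring
  rw [e]
  have q : ∀ u v : ℂ, ‖u‖ ≤ 3 * K ^ 2 * η → ‖v‖ ≤ 3 * K ^ 2 * η → ‖u - v‖ ≤ 6 * K ^ 2 * η := by
    intro u v hu hv
    have := norm_sub_le u v
    linarith
  have a1 := q _ _ (p 0 1 2) (p 0 2 1)
  have a2 := q _ _ (p 1 2 0) (p 1 0 2)
  have a3 := q _ _ (p 2 0 1) (p 2 1 0)
  refine norm_add₃_le.trans ?_
  linarith

/-- the difference of the map and the standard map -/
theorem Bo_FC {η : ℝ} {F : Mp} (hF : FC η F) (k : Fin 3) :
    Bo 5 univ (fun y => F k y - F0 k y) η := fun i hi x _ => hF.c5 k i hi x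

theorem FC_F0 (η : ℝ) : FC η F0 := ⟨sm_F0, fun _ _ _ => rfl, fun k i _ x => by
  have e : (fun y => F0 k y - F0 k y) = fun _ => (0 : ℂ) := by
    funext y; ring
  rw [e, sq_zero_fun]; positivity⟩

theorem nf_diff {η : ℝ} (h0 : 0 ≤ η) {F : Mp} (hF : FC η F) (k l : Fin 3) (x : E5) :
    ‖nf F k l x - nf F0 k l x‖ ≤ η := by
  have h1 : Bo 4 univ (dz l fun y => F k y - F0 k y) η :=
    Bo.dz ((hF.sm k).sub (sm_F0 k)) h0 (Bo_FC hF k) l
  have h2 := h1.norm_le h0 (mem_univ x)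
  rwa [dz_sub (hF.sm k) (sm_F0 k)] at h2

theorem Bo_nf {K : ℝ} (h0 : 0 ≤ K) {F : Mp} (hF : ∀ k, Sm (F k))
    (h : ∀ k, Bo 5 (Metric.ball 0 1) (F k) K) (k l : Fin 3) :
    Bo 4 (Metric.ball 0 1) (nf F k l) K := Bo.dz (hF k) h0 (h k) l

/-- outside the ball of radius 3/4 the map is standard -/
theorem nf_out {η : ℝ} {F : Mp} (hF : FC η F) (k l : Fin 3) {x : E5} (hx : 3 / 4 < ‖x‖) :
    nf F k l x = nf F0 k l x := by
  have h : F k =ᶠ[𝓝 x] F0 k := by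
    have ho : IsOpen {y : E5 | 3 / 4 < ‖y‖} := isOpen_lt continuous_const continuous_norm
    filter_upwards [ho.mem_nhds hx] with y hy
    exact hF.out k y hy.le
  have hp : ∀ i, pd i (F k) x = pd i (F0 k) x := fun i => (pd_congr h i).eq_of_nhds
  simp only [nf, dz, hp]

theorem dt_out {η : ℝ} {F : Mp} (hF : FC η F) {x : E5} (hx : 3 / 4 < ‖x‖) : dt F x = 1 := by
  rw [← dt0 x]
  simp only [dt, cof, nf_out hF _ _ hx]

/-- lower bound of the determinant -/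
theorem dt_low {K η : ℝ} (hK : 1 ≤ K) (h0 : 0 ≤ η) (hη : 36 * K ^ 2 * η ≤ 1) {F : Mp}
    (hF : FC η F) (h1 : ∀ k, Bo 5 (Metric.ball 0 1) (F k) K)
    (h2 : ∀ k, Bo 5 (Metric.ball 0 1) (F0 k) K) (x : E5) : 1 / 2 ≤ ‖dt F x‖ := by
  have hK0 : 0 ≤ K := by linarith
  rcases lt_or_ge ‖x‖ 1 with hx | hx
  · have hx' : x ∈ Metric.ball (0 : E5) 1 := by rwa [mem_ball_zero_iff]
    have a1 : ∀ k l, ‖nf F k l x‖ ≤ K := fun k l => (Bo_nf hK0 hF.sm h1 k l).norm_le hK0 hx'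
    have a2 : ∀ k l, ‖nf F0 k l x‖ ≤ K := fun k l => (Bo_nf hK0 sm_F0 h2 k l).norm_le hK0 hx'
    have a3 := dt_diff hK0 a1 a2 (fun k l => nf_diff h0 hF k l x)
    rw [dt0] at a3
    have a4 : ‖(1 : ℂ)‖ ≤ ‖dt F x‖ + ‖dt F x - 1‖ := by
      have : (1 : ℂ) = dt F x - (dt F x - 1) := by ring
      calc ‖(1 : ℂ)‖ = ‖dt F x - (dt F x - 1)‖ := by rw [← this]
        _ ≤ _ := norm_sub_le _ _
    rw [norm_one] at a4
    linarith
  · rw [dt_out hF (by linarith), norm_one]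
    norm_num

/-- bound of the inverse matrix -/
theorem gi_bd (hI : S_Inv) {K : ℝ} (hK : 1 ≤ K) : ∃ KG ≥ 1, ∀ F : Mp, (∀ k, Sm (F k)) →
    (∀ k, Bo 5 (Metric.ball 0 1) (F k) K) → (∀ y, 1 / 2 ≤ ‖dt F y‖) →
    ∀ l k, Bo 4 (Metric.ball 0 1) (gi F l k) KG := by
  obtain ⟨CI, hCI, hI⟩ := hI 4
  have hK0 : 0 ≤ K := by linarith
  have hc := cmG_pos 4
  have hc1 := cmG_one_le 4
  set KC : ℝ := cmG 4 * K * K + cmG 4 * K * K with hKC
  have hKC0 : 0 ≤ KC := by positivity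
  have hKC1 : 1 ≤ KC := by
    have : 1 ≤ cmG 4 * K * K := by
      have h1 : 1 ≤ cmG 4 * K := by nlinarith
      nlinarith
    linarith
  set KD : ℝ := 3 * (cmG 4 * K * KC) with hKD
  have hKD1 : 1 ≤ KD := by
    have h1 : 1 ≤ cmG 4 * K := by nlinarith
    have h2 : 1 ≤ cmG 4 * K * KC := by nlinarith
    linarith
  have hKD0 : 0 ≤ KD := by linarith
  set KI : ℝ := CI * (2 * KD) ^ 4 * 2 with hKI
  have hCI0 : 0 ≤ CI := by
    have : (1 : ℝ) ≤ CI := hCI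
    linarith
  have hKI0 : 0 ≤ KI := by positivity
  refine ⟨1 + cmG 4 * KC * KI, ?_, ?_⟩
  · have : 0 ≤ cmG 4 * KC * KI := by positivity
    show 1 ≤ _
    linarith
  intro F hF hb hd l k
  have hne : ∀ y, dt F y ≠ 0 := by
    intro y h
    have := hd y
    rw [h, norm_zero] at this
    linarith
  have n := Bo_nf hK0 hF hb
  have c : ∀ l k, Bo 4 (Metric.ball 0 1) (cof F l k) KC := fun l k =>
    Bo.sub ((sm_nf hF _ _).mul (sm_nf hF _ _)) ((sm_nf hF _ _).mul (sm_nf hF _ _))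
      (by positivity) (by positivity)
      (Bo.mul (sm_nf hF _ _) (sm_nf hF _ _) (n _ _) (n _ _))
      (Bo.mul (sm_nf hF _ _) (sm_nf hF _ _) (n _ _) (n _ _))
  have d : Bo 4 (Metric.ball 0 1) (dt F) KD := by
    have h1 := Bo.sum (Finset.univ : Finset (Fin 3)) (f := fun l x => nf F 0 l x * cof F l 0 x)
      (M := fun _ => cmG 4 * K * KC) (fun l _ => (sm_nf hF 0 l).mul (sm_cof hF l 0))
      (fun _ _ => by positivity) (fun l _ => Bo.mul (sm_nf hF _ _) (sm_cof hF _ _) (n _ _) (c _ _))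
    refine Bo.mono h1 le_rfl (Subset.refl _) (by simp; positivity) (le_of_eq ?_)
    simp only [Finset.sum_const, Finset.card_univ, Fintype.card_fin, nsmul_eq_mul]
    push_cast
    rw [hKD]
  have e : Bo 4 (Metric.ball 0 1) (fun y => 1 / dt F y) KI := by
    intro i hi x hx
    have h1 := hI (dt F) (sm_dt hF) hne x (2 * KD) (by linarith) (fun i hi => by
      refine (d i hi x hx).trans ?_
      apply pow_le_pow_left₀ hKD0
      have := hd x
      nlinarith) i hi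
    refine h1.trans ?_
    apply pow_le_pow_left₀ (by positivity)
    have h2 := hd x
    have h3 : (2 * KD) ^ i ≤ (2 * KD) ^ 4 := pow_le_pow_right₀ (by linarith) hi
    have h4 : 0 < ‖dt F x‖ := by linarith
    rw [div_le_iff₀ h4]
    have h5 : CI * (2 * KD) ^ i ≤ CI * (2 * KD) ^ 4 := mul_le_mul_of_nonneg_left h3 hCI0
    have h6 : 0 ≤ CI * (2 * KD) ^ 4 := by positivity
    rw [hKI]
    nlinarith
  have g := Bo.mul (sm_cof hF l k) (sm_inv' (sm_dt hF) hne) (c l k) e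
  exact Bo.mono g le_rfl (Subset.refl _) (by positivity) (by linarith)

/-- bound of the error in the unit ball -/
theorem E_bd {K : ℝ} (hK : 1 ≤ K) (h0 : ∀ k, Bo 5 (Metric.ball 0 1) (F0 k) K) :
    ∃ K1 ≥ 1, ∀ (a : Str) (F : Mp) (η : ℝ), 0 ≤ η → η ≤ 1 → Near a 4 η → FC η F →
    ∀ j k, Bo 4 (Metric.ball 0 1) (EF a F j k) (K1 * η) := by
  have hc := cmG_pos 4
  have hK0 : 0 ≤ K := by linarith
  refine ⟨(1 + 3 * cmG 4 * 3) + 3 * (cmG 4 * K), ?_, ?_⟩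
  · have : 0 ≤ 3 * (cmG 4 * K) := by positivity
    show 1 ≤ _
    nlinarith
  intro a F η hη hη1 ha hF j k
  have hs : SmS a := ha.sm
  have s1 : Sm (fun y => F k y - F0 k y) := (hF.sm k).sub (sm_F0 k)
  have b1 : Bo 4 (Metric.ball 0 1) (L a j fun y => F k y - F0 k y) ((1 + 3 * cmG 4 * 3) * η) :=
    Bo.L hs s1 (by norm_num) hη j (fun l => Bo_near ha hη hη1 j l)
      (Bo.mono (Bo_FC hF k) le_rfl (subset_univ _) hη le_rfl)
  have b2 := Bo.sum (Finset.univ : Finset (Fin 3)) (Ω := Metric.ball (0 : E5) 1)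
      (f := fun l x => (a j l x - a0 j l x) * dz l (F0 k) x) (m := 4)
      (M := fun _ => cmG 4 * η * K) (fun l _ => ((hs j l).sub (smS_a0 j l)).mul ((sm_F0 k).dz l))
      (fun _ _ => by positivity) (fun l _ => Bo.mul ((hs j l).sub (smS_a0 j l)) ((sm_F0 k).dz l)
        (fun i hi x _ => ha.bd j l i hi x) (Bo.dz (sm_F0 k) hK0 (h0 k) l))
  have b3 := Bo.add (s1.L hs j)
    (Sm.sum _ fun l _ => ((hs j l).sub (smS_a0 j l)).mul ((sm_F0 k).dz l))
    (by positivity) (by simp; positivity) b1 b2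
  have e : EF a F j k = fun x => L a j (fun y => F k y - F0 k y) x
      + ∑ l, (a j l x - a0 j l x) * dz l (F0 k) x := by
    funext x
    rw [L_sub (hF.sm k) (sm_F0 k)]
    have h1 := L0_F0 j k x
    have h2 : L a j (F0 k) x = L a0 j (F0 k) x + ∑ l, (a j l x - a0 j l x) * dz l (F0 k) x := by
      simp only [L, Fin.sum_univ_three]
      ring
    rw [h2, h1]
    unfold EF
    ring
  rw [e]
  refine Bo.mono b3 le_rfl (Subset.refl _) (by simp; positivity) (le_of_eq ?_)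
  simp only [Finset.sum_const, Finset.card_univ, Fintype.card_fin, nsmul_eq_mul]
  push_cast
  ring

/-- the correction -/
def TT (a : Str) (F : Mp) (j : Fin 2) (l : Fin 3) : E5 → ℂ := fun x =>
  ∑ k, gi F l k x * EF a F j k x

/-- the glued structure -/
def aG (a : Str) (F : Mp) (χ : E5 → ℂ) : Str := fun j l x =>
  a j l x - (1 - χ x) * TT a F j l x

theorem sm_EF {a : Str} (ha : SmS a) {F : Mp} (hF : ∀ k, Sm (F k)) (j : Fin 2) (k : Fin 3) :
    Sm (EF a F j k) := (hF k).L ha j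

theorem sm_TT {a : Str} (ha : SmS a) {F : Mp} (hF : ∀ k, Sm (F k)) (h0 : ∀ y, dt F y ≠ 0)
    (j : Fin 2) (l : Fin 3) : Sm (TT a F j l) :=
  Sm.sum _ fun k _ => (sm_gi hF h0 l k).mul (sm_EF ha hF j k)

theorem sm_aG {a : Str} (ha : SmS a) {F : Mp} (hF : ∀ k, Sm (F k)) (h0 : ∀ y, dt F y ≠ 0)
    {χ : E5 → ℂ} (hχ : Sm χ) : SmS (aG a F χ) := fun j l =>
  (ha j l).sub (((Sm.const 1).sub hχ).mul (sm_TT ha hF h0 j l))

/-- bound of the correction -/
theorem TT_bd {a : Str} (ha : SmS a) {F : Mp} (hF : ∀ k, Sm (F k)) (h0 : ∀ y, dt F y ≠ 0)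
    {KG M : ℝ} (hKG : 0 ≤ KG) (hM : 0 ≤ M) (hg : ∀ l k, Bo 4 (Metric.ball 0 1) (gi F l k) KG)
    {Ω : Set E5} (hΩ : Ω ⊆ Metric.ball 0 1) (hE : ∀ j k, Bo 4 Ω (EF a F j k) M) (j : Fin 2)
    (l : Fin 3) : Bo 4 Ω (TT a F j l) (3 * (cmG 4 * KG * M)) := by
  have hc := cmG_pos 4
  have h1 := Bo.sum (Finset.univ : Finset (Fin 3)) (f := fun k x => gi F l k x * EF a F j k x)
    (M := fun _ => cmG 4 * KG * M) (m := 4) (Ω := Ω)
    (fun k _ => (sm_gi hF h0 l k).mul (sm_EF ha hF j k))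
    (fun _ _ => by positivity) (fun k _ => Bo.mul (sm_gi hF h0 l k) (sm_EF ha hF j k)
      (Bo.mono (hg l k) le_rfl hΩ hKG le_rfl) (hE j k))
  refine Bo.mono h1 le_rfl (Subset.refl _) (by simp; positivity) (le_of_eq ?_)
  simp only [Finset.sum_const, Finset.card_univ, Fintype.card_fin, nsmul_eq_mul]
  push_cast
  ring

theorem L_aG {a : Str} {F : Mp} {χ : E5 → ℂ} {x : E5} (h0 : dt F x ≠ 0) (j : Fin 2)
    (k : Fin 3) : L (aG a F χ) j (F k) x = χ x * EF a F j k x := by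
  have h1 : L (aG a F χ) j (F k) x = EF a F j k x
      - (1 - χ x) * ∑ l, TT a F j l x * nf F k l x := by
    simp only [L, EF, aG, nf, Fin.sum_univ_three]
    ring
  have h2 : ∑ l, TT a F j l x * nf F k l x = EF a F j k x := by
    have e1 : ∀ l, TT a F j l x * nf F k l x
        = ∑ k', EF a F j k' x * (nf F k l x * gi F l k' x) := by
      intro l
      unfold TT
      rw [Finset.sum_mul]
      refine Finset.sum_congr rfl fun k' _ => ?_
      ring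
    rw [Finset.sum_congr rfl fun l _ => e1 l, Finset.sum_comm]
    simp only [← Finset.mul_sum, mul_gi h0]
    simp
  rw [h1, h2]
  ring

theorem kap_aG {a : Str} (ha : SmS a) {F : Mp} (hF : ∀ k, Sm (F k)) (h0 : ∀ y, dt F y ≠ 0)
    {χ : E5 → ℂ} (hχ : Sm χ) (l : Fin 3) :
    kap (aG a F χ) l = fun x => ∑ k, gi F l k x
      * (L (aG a F χ) 0 (fun y => χ y * EF a F 1 k y) x
        - L (aG a F χ) 1 (fun y => χ y * EF a F 0 k y) x) := by
  funext x
  have hs := sm_aG ha hF h0 hχ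
  have h1 : ∀ k, ∑ l', kap (aG a F χ) l' x * nf F k l' x
      = L (aG a F χ) 0 (fun y => χ y * EF a F 1 k y) x
        - L (aG a F χ) 1 (fun y => χ y * EF a F 0 k y) x := by
    intro k
    have h2 := D1_D0 hs (hF k) x
    have e : ∀ j, D0 (aG a F χ) (F k) j = fun y => χ y * EF a F j k y := by
      intro j
      funext y
      exact L_aG (h0 y) j k
    unfold D1 at h2
    rw [e 0, e 1] at h2
    rw [h2]
    rfl
  rw [← solve (h0 x) (fun l' => kap (aG a F χ) l' x) l]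
  simp only [h1]

/-- the glued structure is standard outside the ball of radius 3/4 -/
theorem aG_out {a : Str} {F : Mp} {η : ℝ} (hF : FC η F) {χ : E5 → ℂ} {x : E5}
    (h0 : dt F x ≠ 0) (hx : 3 / 4 < ‖x‖) (hχ : χ x = 0) (j : Fin 2) (l : Fin 3) :
    aG a F χ j l x = a0 j l x := by
  have h1 : ∀ k, ∑ l', (aG a F χ j l' x - a0 j l' x) * nf F k l' x = 0 := by
    intro k
    have e1 : ∑ l', (aG a F χ j l' x - a0 j l' x) * nf F k l' x
        = L (aG a F χ) j (F k) x - L a0 j (F k) x := by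
      simp only [L, nf, Fin.sum_univ_three]
      ring
    have e2 : L a0 j (F k) x = 0 := by
      rw [← L0_F0 j k x]
      apply L_congr
      have ho : IsOpen {y : E5 | 3 / 4 < ‖y‖} := isOpen_lt continuous_const continuous_norm
      filter_upwards [ho.mem_nhds hx] with y hy
      exact hF.out k y hy.le
    rw [e1, e2, L_aG h0, hχ]
    ring
  have h2 := solve h0 (fun l' => aG a F χ j l' x - a0 j l' x) l
  simp only [h1] at h2
  have h3 : (0 : ℂ) = aG a F χ j l x - a0 j l x := by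
    rw [← h2]
    simp
  exact (sub_eq_zero.1 h3.symm)

end Stsx

end Pool.Agent.CR5
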