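import Pool.Agent.Lib.CR5.SpecG

open MeasureTheory Set Filter Topology
open scoped ENNReal ComplexConjugate

noncomputable section

namespace Pool.Agent.CR5

namespace GgMix

theorem b1 {Cs K K' V H : ℝ} (hCs : 1 ≤ Cs) (hK : 0 ≤ K) (hV : 0 ≤ V) (hK' : Cs * K ≤ K')
    (h : H ≤ (K * V) ^ 2) : Cs * H ≤ (K' * V) ^ 2 := by
  have h0 : 0 ≤ (K * V) ^ 2 := by positivity
  have h1 : Cs * H ≤ Cs * (K * V) ^ 2 := mul_le_mul_of_nonneg_left h (by linarith)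
  have h2 : Cs * (K * V) ^ 2 ≤ Cs ^ 2 * (K * V) ^ 2 := by
    refine mul_le_mul_of_nonneg_right ?_ h0
    nlinarith
  have h3 : Cs ^ 2 * (K * V) ^ 2 = (Cs * K * V) ^ 2 := by ring
  have h4 : (Cs * K * V) ^ 2 ≤ (K' * V) ^ 2 := by
    have : Cs * K * V ≤ K' * V := mul_le_mul_of_nonneg_right hK' hV
    have hp : 0 ≤ Cs * K * V := by positivity
    exact pow_le_pow_left₀ hp this 2
  linarith

theorem b2 {Cs K K1 K' E G κ e W I H : ℝ} (hCs : 1 ≤ Cs) (hK : 0 ≤ K) (hK1 : 1 ≤ K1)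
    (hE : 0 ≤ E) (hG : 0 ≤ G) (hκ : 0 ≤ κ) (he : 0 ≤ e) (hW : 0 ≤ W)
    (hI : I ≤ (K * E * W) ^ 2) (hH : H ≤ (K * G * W) ^ 2) (h1 : κ * G ≤ K1 * E) (h2 : e * G ≤ E)
    (hK' : 3 * Cs * K1 * K ≤ K') :
    Cs * (I + κ ^ 2 * H + e ^ 2 * H) ≤ (K' * (E * W)) ^ 2 := by
  have a1 : I ≤ (K * K1 * E * W) ^ 2 := by
    refine hI.trans (pow_le_pow_left₀ (by positivity) ?_ 2)
    have : K ≤ K * K1 := by nlinarith
    have hEW : 0 ≤ E * W := by positivity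
    nlinarith [mul_le_mul_of_nonneg_right this hEW]
  have a2 : κ ^ 2 * H ≤ (K * K1 * E * W) ^ 2 := by
    calc κ ^ 2 * H ≤ κ ^ 2 * (K * G * W) ^ 2 := mul_le_mul_of_nonneg_left hH (by positivity)
      _ = (K * W * (κ * G)) ^ 2 := by ring
      _ ≤ (K * W * (K1 * E)) ^ 2 :=
          pow_le_pow_left₀ (by positivity) (mul_le_mul_of_nonneg_left h1 (by positivity)) 2
      _ = _ := by ring
  have a3 : e ^ 2 * H ≤ (K * K1 * E * W) ^ 2 := by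
    calc e ^ 2 * H ≤ e ^ 2 * (K * G * W) ^ 2 := mul_le_mul_of_nonneg_left hH (by positivity)
      _ = (K * W * (e * G)) ^ 2 := by ring
      _ ≤ (K * W * (K1 * E)) ^ 2 := by
          refine pow_le_pow_left₀ (by positivity) (mul_le_mul_of_nonneg_left ?_ (by positivity)) 2
          nlinarith
      _ = _ := by ring
  have hS : I + κ ^ 2 * H + e ^ 2 * H ≤ (3 * (K * K1 * E * W)) ^ 2 := by
    have : (0 : ℝ) ≤ (K * K1 * E * W) ^ 2 := by positivity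
    nlinarith
  have := b1 (K := 3) (V := K * K1 * E * W) (K' := 3 * Cs) hCs (by norm_num) (by positivity)
    (by linarith) hS
  refine this.trans (pow_le_pow_left₀ (by positivity) ?_ 2)
  calc 3 * Cs * (K * K1 * E * W) = (3 * Cs * K1 * K) * (E * W) := by ring
    _ ≤ K' * (E * W) := mul_le_mul_of_nonneg_right hK' (by positivity)

theorem fcmono {ε ε' : ℝ} {F : Mp} (h : FC ε F) (h0 : 0 ≤ ε) (hε : ε ≤ ε') : FC ε' F :=
  ⟨h.sm, h.out, fun k i hi x => (h.c5 k i hi x).trans (by gcongr)⟩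

theorem hypmono {a : Str} {h : ℕ → ℝ} {m : ℕ} {ε ε' lam R : ℝ} {F : Mp}
    (H : HypF a h m ε lam R F) (h0 : 0 ≤ ε) (hε : ε ≤ ε') : HypF a h m ε' lam R F :=
  ⟨H.sm, H.out, fun k i hi x => (H.c5 k i hi x).trans (by gcongr), H.nn, H.er⟩

theorem cst {Cs C1 C2 X : ℝ} {p1 p2 : ℕ} (hCs : 1 ≤ Cs) (hC1 : 1 ≤ C1) (hC2 : 1 ≤ C2)
    (hX : 1 ≤ X) :
    3 * Cs * (C1 * X) ^ p1 * (C2 * X) ^ p2 ≤ (3 * Cs * C1 * C2 * X) ^ (1 + p1 + p2) := by
  have a0 : 3 * Cs ≤ (3 * Cs * X) ^ 1 := by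
    rw [pow_one]; nlinarith
  have a1 := pw_mul (C := 3 * Cs) (C' := C1) (p := 1) (p' := p1) (by linarith) hC1 hX
  have a2 := pw_mul (C := 3 * Cs * C1) (C' := C2) (p := 1 + p1) (p' := p2) (by nlinarith) hC2 hX
  have h1 : 0 ≤ (C1 * X) ^ p1 := by positivity
  have h2 : 0 ≤ (C2 * X) ^ p2 := by positivity
  calc 3 * Cs * (C1 * X) ^ p1 * (C2 * X) ^ p2
      ≤ (3 * Cs * X) ^ 1 * (C1 * X) ^ p1 * (C2 * X) ^ p2 :=
        mul_le_mul_of_nonneg_right (mul_le_mul_of_nonneg_right a0 h1) h2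
    _ ≤ (3 * Cs * C1 * X) ^ (1 + p1) * (C2 * X) ^ p2 := mul_le_mul_of_nonneg_right a1 h2
    _ ≤ _ := a2

theorem cst2 {Cs C1 C2 X : ℝ} {p1 p2 : ℕ} (hCs : 1 ≤ Cs) (hC1 : 1 ≤ C1) (hC2 : 1 ≤ C2)
    (hX : 1 ≤ X) :
    Cs * (C2 * X) ^ p2 ≤ (3 * Cs * C1 * C2 * X) ^ (1 + p1 + p2) := by
  refine le_trans ?_ (cst (p1 := p1) (p2 := p2) hCs hC1 hC2 hX)
  have h1 : 1 ≤ (C1 * X) ^ p1 := pw_one hC1 hX p1
  have h2 : 0 ≤ (C2 * X) ^ p2 := by positivity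
  calc Cs * (C2 * X) ^ p2 ≤ (3 * Cs * (C1 * X) ^ p1) * (C2 * X) ^ p2 := by
        refine mul_le_mul_of_nonneg_right ?_ h2
        nlinarith
    _ = _ := by ring

end GgMix

open GgMix

theorem pgMix : S_gMix := by
  intro hPhi hSTS hSol hQua hQuB hBdE hBox hNum hGEO hCUT hEpt hELP hChi hEx hHs hD1 hPt hEX hLIN
    hLOC
  obtain ⟨ε', hε', Cs, hCs, sol⟩ := hSol hEX hLIN
  obtain ⟨ε1a, hε1a, C2, p2, hC2, phi⟩ := hPhi hCUT hGEO hEpt hELP hChi hEx hHs hD1 hPt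
  obtain ⟨εS, hεS, ε1b, hε1b, C1, p1, hC1, sts⟩ := hSTS ε' hε'
  obtain ⟨εQ, hεQ, qua⟩ := hQua hLOC hBdE
  obtain ⟨ε1c, hε1c, CG, hCG, geo⟩ := hGEO
  have hCs' : (1 : ℝ) ≤ Cs := hCs
  refine ⟨min (min εS εQ) 1, by positivity, min (min ε1a ε1b) ε1c, by positivity,
    3 * Cs * C1 * C2, 1 + p1 + p2, ?_, ?_⟩
  · have h1 : 1 ≤ 3 * Cs := by linarith
    have h2 : 1 ≤ 3 * Cs * C1 := by nlinarith
    nlinarith
  intro a ha hκ h m hAdm lam R δ s μ D ρ F hP hF hlog E' hE' hD1E W0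
  set εm := min (min εS εQ) 1 with hεm
  have hεm0 : 0 < εm := by positivity
  have hεmS : εm ≤ εS := (min_le_left _ _).trans (min_le_left _ _)
  have hεmQ : εm ≤ εQ := (min_le_left _ _).trans (min_le_right _ _)
  have hεm1 : εm ≤ 1 := min_le_right _ _
  set ε1 := min (min ε1a ε1b) ε1c with hε1
  have hε10 : 0 < ε1 := by positivity
  have hFa : HypF a h m ε1a lam R F :=
    hypmono hF hε10.le ((min_le_left _ _).trans (min_le_left _ _))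
  have hFb : HypF a h m ε1b lam R F :=
    hypmono hF hε10.le ((min_le_left _ _).trans (min_le_right _ _))
  have hFc : FC ε1c F := fcmono hF.fc hε10.le (min_le_right _ _)
  have ha4 : Near a 4 1 := Near.monoG ha (by unfold MM; norm_num) hεm0.le hεm1
  have haQ : Near a 4 εQ := Near.monoG ha (by unfold MM; norm_num) hεm0.le hεmQ
  have haS : Near a MM εS := Near.monoG ha le_rfl hεm0.le hεmS
  obtain ⟨n1, n2, n3, n4, n5, n6, n7⟩ := hNum lam R δ s μ D ρ hP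
  set X := lam / s with hX
  have hXd : ∀ (C : ℝ), C * lam / s = C * X := fun C => by rw [hX, mul_div_assoc]
  set W := NN2 h m (Dm F ρ) (Ps μ F E') with hW
  set E := Real.exp (-(D * (R - 5 * δ))) with hE
  set G := Real.exp (D * R) with hG
  have hE0 : 0 < E := Real.exp_pos _
  have hG0 : 0 < G := Real.exp_pos _
  have hs0 := hP.s0
  have hs1 : s ≤ 1 := by linarith [hP.s1, hP.d1]
  -- the structure
  have hlogS : (p1 : ℝ) * Real.log (C1 * lam / δ) ≤ lam * δ / 4 := by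
    have hd0 := hP.d0
    have hX1 : 1 ≤ C1 * lam / δ := by
      rw [mul_div_assoc]
      have : 1 ≤ lam / δ := by
        rw [le_div_iff₀ hd0]; linarith [hP.l1, hP.d1]
      nlinarith
    have h2 : C1 * lam / δ ≤ 3 * Cs * C1 * C2 * lam / s := by
      rw [mul_div_assoc, mul_div_assoc]
      have hc : C1 ≤ 3 * Cs * C1 * C2 := by
        have : C1 ≤ 3 * Cs * C1 := by nlinarith
        nlinarith
      have hp0 : 0 ≤ lam / δ := by have := hP.l1; positivity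
      exact mul_le_mul hc n5 hp0 (by linarith)
    have h3 : Real.log (C1 * lam / δ) ≤ Real.log (3 * Cs * C1 * C2 * lam / s) :=
      Real.log_le_log (by linarith) h2
    have h4 : 0 ≤ Real.log (C1 * lam / δ) := Real.log_nonneg hX1
    have h5 : (p1 : ℝ) ≤ ((1 + p1 + p2 : ℕ) : ℝ) := by
      push_cast
      have : (0 : ℝ) ≤ (p2 : ℝ) := Nat.cast_nonneg p2
      linarith
    calc (p1 : ℝ) * Real.log (C1 * lam / δ)
        ≤ ((1 + p1 + p2 : ℕ) : ℝ) * Real.log (3 * Cs * C1 * C2 * lam / s) :=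
          mul_le_mul h5 h3 h4 (by positivity)
      _ ≤ _ := hlog
  obtain ⟨aS, naS, eqS, kS, kS'⟩ := sts a haS hκ h m lam R δ F hAdm hP.l1 hP.R1 hP.R2 hP.d0 hP.d1
    hFb hlogS
  set κ := (C1 * lam / δ) ^ p1 * Real.exp (-(lam * δ)) with hκd
  have hκ0 : 0 ≤ κ := by
    have := hP.l1; have := hP.d0; positivity
  -- the form Φ
  obtain ⟨Φ, tΦ, oΦ, eΦ, hsΦ, dΦ⟩ := phi a h m lam R δ s μ D ρ F ha4 hAdm hP hFa E' hE' hD1E
  have dΦ' := dΦ aS naS.smS eqS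
  rw [hXd] at hsΦ dΦ'
  -- domains
  have hρ1 : ρ - s / 2 ≤ 1 / 16 := by linarith [hP.r2, hP.R2, hP.d0]
  obtain ⟨_, _, _, hInn, _, _⟩ := geo F hFc
  have hI12 : Inn (Dm F (ρ - 3 / 4 * s)) (Dm F (ρ - s / 2)) (s / 16) := by
    have := hInn (ρ - s / 2) (ρ - 3 / 4 * s) (by linarith) hρ1
    have e : (ρ - s / 2 - (ρ - 3 / 4 * s)) / 4 = s / 16 := by ring
    rwa [e] at this
  have hsub12 : Dm F (ρ - 3 / 4 * s) ⊆ Dm F (ρ - s / 2) := Dm_mono F (by linarith)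
  have hsub2 : Dm F (ρ - s / 2) ⊆ Dm F (R - 2 * δ) :=
    Dm_mono F (by linarith [hP.r2, hP.d0])
  have ho1 := Dm_open hF.sm (ρ - 3 / 4 * s)
  have ho2 := Dm_open hF.sm (ρ - s / 2)
  have hoR := Dm_open hF.sm (R - 2 * δ)
  obtain ⟨Q1, hQ1⟩ := qua a haQ (m + 3) (s / 16) (by positivity) (by linarith) _ _ ho1 ho2 hsub12
    hI12 (Dm_sub F _) Φ (fun j => (tΦ j).sm) (Cs * Hs 2 Φ)
  have hpos := hAdm.pos
  have hle1 : ∀ i, h i ≤ 1 := by
    intro i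
    induction i with
    | zero => exact (hAdm.one 0 (Nat.zero_le _)).le
    | succ i ih => exact (hAdm.anti i).trans ih
  obtain ⟨Q2, hQ20, hQ2⟩ := hQuB hBdE a MM εm ha h m hpos hle1 (Dm F (ρ - 3 / 4 * s)) ho1
    (Dm_sub F _)
  set Q := Q2 * max Q1 0 with hQ
  have hQ0 : 0 ≤ Q := mul_nonneg hQ20 (le_max_right _ _)
  set e := min (Real.exp (-(lam * δ))) (E * W / (Q + 1)) with he
  have he0 : 0 < e := by
    have : 0 < E * W / (Q + 1) := by positivity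
    exact lt_min (Real.exp_pos _) this
  have he1 : e ≤ 1 := (min_le_left _ _).trans n3
  have heQ : e * Q ≤ E * W := by
    have h1 : e ≤ E * W / (Q + 1) := min_le_right _ _
    have h2 : e * Q ≤ E * W / (Q + 1) * Q := mul_le_mul_of_nonneg_right h1 hQ0
    have h3 : E * W / (Q + 1) * Q ≤ E * W := by
      rw [div_mul_eq_mul_div, div_le_iff₀ (by linarith)]
      have : 0 ≤ E * W := by positivity
      nlinarith
    linarith
  obtain ⟨w, smw, eqw, bw, by'⟩ := sol aS naS Φ tΦ oΦ κ kS kS' e he0 he1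
  have hbx : ∀ x ∈ Dm F (ρ - s / 2), _ := fun x hx =>
    hBox aS a (Dm F (R - 2 * δ)) hoR (fun j l x hx => eqS j l x hx) w x (hsub2 hx)
  have eqw' : ∀ j, ∀ x ∈ Dm F (ρ - s / 2), BoxE a e w j x = Φ j x := fun j x hx => by
    rw [← (hbx x hx).2.2.2 e j]; exact eqw j x
  have hball : Dm F (ρ - s / 2) ⊆ Metric.ball (0 : E5) 1 := Dm_sub F _
  have i1 : (∫ x in Dm F (ρ - s / 2), (‖w 0 x‖ ^ 2 + ‖w 1 x‖ ^ 2)) ≤ Cs * Hs 2 Φ := by
    refine le_trans (setIntegral_mono_set ?_ ?_ (LE.le.eventuallyLE hball)) bw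
    · exact intOn_cont (((smw 0).cont.norm.pow 2).add ((smw 1).cont.norm.pow 2))
        Metric.isBounded_ball
    · exact Eventually.of_forall fun x => by positivity
  have i2 : (∫ x in Dm F (ρ - s / 2), (‖D1s a (D1 a w) 0 x‖ ^ 2 + ‖D1s a (D1 a w) 1 x‖ ^ 2))
      ≤ Cs * ((∫ x, ‖D1 aS Φ x‖ ^ 2) + κ ^ 2 * Hs 2 Φ + e ^ 2 * Hs 2 Φ) := by
    have e1 : (∫ x in Dm F (ρ - s / 2), (‖D1s a (D1 a w) 0 x‖ ^ 2 + ‖D1s a (D1 a w) 1 x‖ ^ 2))
        = ∫ x in Dm F (ρ - s / 2),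
          (‖D1s aS (D1 aS w) 0 x‖ ^ 2 + ‖D1s aS (D1 aS w) 1 x‖ ^ 2) := by
      refine setIntegral_congr_fun ho2.measurableSet fun x hx => ?_
      show (‖D1s a (D1 a w) 0 x‖ ^ 2 + ‖D1s a (D1 a w) 1 x‖ ^ 2)
        = (‖D1s aS (D1 aS w) 0 x‖ ^ 2 + ‖D1s aS (D1 aS w) 1 x‖ ^ 2)
      rw [(hbx x hx).2.2.1 0, (hbx x hx).2.2.1 1]
    rw [e1]
    refine le_trans (setIntegral_mono_set ?_ ?_ (LE.le.eventuallyLE hball)) by'
    · have hD := fun j => Sm.D1s naS.smS (Sm.D1 naS.smS smw) j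
      exact intOn_cont (((hD 0).cont.norm.pow 2).add ((hD 1).cont.norm.pow 2))
        Metric.isBounded_ball
    · exact Eventually.of_forall fun x => by positivity
  have q1 : NN2 (fun _ => 1) (m + 3) (Dm F (ρ - 3 / 4 * s)) w ≤ max Q1 0 :=
    (hQ1 e he0 he1 w smw eqw' i1).trans (le_max_left _ _)
  obtain ⟨r1, r2⟩ := hQ2 w smw
  have hK2 : (0 : ℝ) ≤ (C2 * X) ^ p2 := by positivity
  have hK1 : (1 : ℝ) ≤ (C1 * X) ^ p1 := pw_one hC1 n4 p1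
  have hW0' : 0 ≤ W := W0.le
  refine ⟨Φ, w, e, Q, fun j => (tΦ j).sm, smw, he0, he1, hQ0, eΦ, eqw', ?_, ?_, ?_, ?_, heQ⟩
  · rw [hXd]
    refine i1.trans (b1 hCs' hK2 (by positivity) (cst2 hCs' hC1 hC2 n4) ?_)
    rw [← mul_assoc]; exact hsΦ
  · rw [hXd]
    refine i2.trans (b2 (K := (C2 * X) ^ p2) (K1 := (C1 * X) ^ p1) (G := G) hCs' hK2 hK1 hE0.le
      hG0.le hκ0 he0.le hW0' dΦ' hsΦ ?_ ?_ (cst hCs' hC1 hC2 n4))
    · -- κ G ≤ K1 E
      have hd0 := hP.d0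
      have hl1 := hP.l1
      have c1 : (C1 * lam / δ) ^ p1 ≤ (C1 * X) ^ p1 := by
        refine pow_le_pow_left₀ (by positivity) ?_ p1
        rw [mul_div_assoc]
        exact mul_le_mul_of_nonneg_left n5 (by linarith)
      calc κ * G = (C1 * lam / δ) ^ p1 * (Real.exp (-(lam * δ)) * G) := by rw [hκd]; ring
        _ ≤ (C1 * X) ^ p1 * E := mul_le_mul c1 n1 (by positivity) (by positivity)
    · calc e * G ≤ Real.exp (-(lam * δ)) * G :=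
            mul_le_mul_of_nonneg_right (min_le_left _ _) hG0.le
        _ ≤ E := n1
  · exact r1.trans (mul_le_mul_of_nonneg_left q1 hQ20)
  · exact r2.trans (mul_le_mul_of_nonneg_left q1 hQ20)

end Pool.Agent.CR5
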